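import Pool.Agent.H38.OP.BadVol
import Pool.Agent.H19.Wb.Abs

/-!
# Module AEBAD: almost every coefficient vector is good at all large dyadic scales

Let `Q_j = (2^j)^lam = 2^(lam j) → ∞`. For `j` with `Q_j ≥ Q0` `bad_vol` bounds the volume of `B_j = {a ∈ Ba p A | not Go .. Q_j a}` by
`C Q_j^(e - e0 + c + ε) = C (2^(lam (e - e0 + c + ε)))^j`, a convergent geometric series (`he`). Borel-Cantelli (`MeasureTheory.ae_eventually_notMem`, shift the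
index by `j0`, or `measure_setOf_frequently_eq_zero`): almost every `a` is in only finitely many `B_j`; for `a ∈ Ba p A` (`ae_restrict_mem`,
`measurableSet_Ba`) this says `Go` for all large `j` (`not_lt`). The geometric series: `Pool.H19.Wb.geom_lt_top` in `Pool/Agent/H19/Wb/Abs.lean`.
-/

set_option autoImplicit false

namespace Pool.H38.OP

open MeasureTheory Set Pool.H19.Wa Pool.H48.Wt Pool.H19.Fc

/-- good coefficient vectors at scale `Q` -/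
def Go (l p n u : ℕ) (κ c e Q : ℝ) (a : Fin p → ℝ) : Prop :=
  volume (Mb l p n u Q a (Q ^ (-c)) ∩ Wi l p κ Q) ≤ ENNReal.ofReal (Q ^ (((l + 1 + p : ℕ) : ℝ) - e))

theorem ae_bad (l p n u : ℕ) (A κ c ε C Q0 : ℝ) (hQ0 : 1 ≤ Q0) (hC : 0 < C)
    (h : ∀ Q : ℝ, Q0 ≤ Q → ∫⁻ a in Ba p A, volume (Mb l p n u Q a (Q ^ (-c)) ∩ Wi l p κ Q) ≤
        ENNReal.ofReal (C * Q ^ (((l + 1 + p : ℕ) : ℝ) - e0 l p n u + c + ε))) (lam e : ℝ) (h0 : 0 < lam)
    (he : e + c + ε < e0 l p n u) :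
    ∀ᵐ a ∂((volume : Measure (Fin p → ℝ)).restrict (Ba p A)), ∃ J : ℕ, ∀ j : ℕ, J ≤ j →
      Go l p n u κ c e (((2 : ℝ) ^ j) ^ lam) a := by
  have hθ : lam * (e - e0 l p n u + c + ε) < 0 := mul_neg_of_pos_of_neg h0 (by linarith)
  obtain ⟨j0, hj0⟩ : ∃ j0 : ℕ, ∀ j : ℕ, j0 ≤ j → Q0 ≤ ((2 : ℝ) ^ j) ^ lam := by
    have h1 : Filter.Tendsto (fun j : ℕ => ((2 : ℝ) ^ j) ^ lam) Filter.atTop Filter.atTop :=
      (tendsto_rpow_atTop h0).comp (tendsto_pow_atTop_atTop_of_one_lt (by norm_num))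
    obtain ⟨j0, hj⟩ := Filter.eventually_atTop.1 (h1.eventually_ge_atTop Q0)
    exact ⟨j0, hj⟩
  let B : ℕ → Set (Fin p → ℝ) := fun j => {a | a ∈ Ba p A ∧
    ENNReal.ofReal ((((2 : ℝ) ^ (j + j0)) ^ lam) ^ (((l + 1 + p : ℕ) : ℝ) - e)) <
      volume (Mb l p n u (((2 : ℝ) ^ (j + j0)) ^ lam) a ((((2 : ℝ) ^ (j + j0)) ^ lam) ^ (-c)) ∩
        Wi l p κ (((2 : ℝ) ^ (j + j0)) ^ lam))}
  have hB : ∀ j, volume (B j) ≤
      ENNReal.ofReal (C * (2 : ℝ) ^ (((j + j0 : ℕ) : ℝ) * (lam * (e - e0 l p n u + c + ε)))) := by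
    intro j
    refine (bad_vol l p n u A κ c ε C Q0 hQ0 hC h e _ (hj0 (j + j0) (by omega))).trans (le_of_eq ?_)
    have h5 : (((2 : ℝ) ^ (j + j0)) ^ lam) ^ (e - e0 l p n u + c + ε) =
        (2 : ℝ) ^ (((j + j0 : ℕ) : ℝ) * (lam * (e - e0 l p n u + c + ε))) := by
      have h2 : (0 : ℝ) ≤ 2 := by norm_num
      rw [← mul_assoc, Real.rpow_mul h2, Real.rpow_mul h2, Real.rpow_natCast]
    rw [h5]
  have hsum : ∑' j, volume (B j) ≠ ⊤ :=
    ((ENNReal.tsum_le_tsum hB).trans_lt (Pool.H19.Wb.AbsAux.geom_lt_top C _ hθ j0)).ne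
  have h2 := MeasureTheory.ae_eventually_notMem hsum
  rw [ae_restrict_iff' (measurableSet_Ba p A)]
  filter_upwards [h2] with a ha haB
  obtain ⟨J, hJ⟩ := Filter.eventually_atTop.1 ha
  refine ⟨J + j0, fun j hj => ?_⟩
  have h3 := hJ (j - j0) (by omega)
  have h4 : j - j0 + j0 = j := by omega
  simp only [B, Set.mem_ofPred_eq, h4, not_and, not_lt] at h3
  exact h3 haB

end Pool.H38.OP
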