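import Pool.Agent.H19.Fc.Defs

/-!
# Waring's problem for one polynomial with few generic coefficients: definitions and plan (helper38, MP_efcac8_nt)

`k = l + 1 + p`. For `a : Fin p → ℝ` let `f_a(x) = x^k + ∑_(c < p) a_c x^(l+1+c)`, i.e. the top `p` lower coefficients
(of `x^(k-1), ..., x^(k-p)`) are generic, the others are `0`.

THEOREM. `θ = (1-1/k)^u`, `ρ = 1 - 1/(k-p) = l/(l+1)`, `ν = p (1-p/k) (1-ρ^n)`, `κ = (2k-p)/(k-p)`. Assume `k θ < (l+1) ρ^n`.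
(I) If `θ < ν`: for almost every `a` the real `τ ≤ X` which are not within `τ^(-c)` of a value
`y_1^k + .. + y_u^k + f_a(x_1) + .. + f_a(x_(pn))` have measure `O(X^(1-c))`.
(II) If `(p+1)(ν-θ) > κ` and `κ (1-1/k)^v < 1`: for almost every `a` every large real `τ` is within `τ^(-c)` of a value
`y_1^k + .. + y_(u+v)^k + f_a(x_1) + .. + f_a(x_(pn+1))`.

PROOF. Chapter A (block count): `Sep2, Level, Tail, Block`. Blocks: levels `i < n`, `P_i = ⌊Q^(ρ^i)⌋`, `p` variables per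
level, the `b`-th in `((2b+1) P_i, (2b+2) P_i]`; the number of `y` with `|ps y c - T_c| ≤ L` for all `c < p` is at most
`C (1+L/R)^(pn)`, `R = min P_i^l`.
Chapter B (Gaussian average over `a`): `Layer, GaussAvg, AvgF2, AvgH2, Lower2, BoxGam, Scale2`.
Chapter C (base estimate at every real scale `Q`): `Levels, PtsQ, GaBd, BaseInt2, Meas2`: the mean over `|a_c| ≤ A` of
the measure of the missed points of the window `[κ Q^k, (κ+3) Q^k]` is at most `C Q^(k + kθ - (l+1)p(1-ρ^n) + c + ε)`.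
Chapter D (the step with `p+1` values of one more variable): `Det, Affine, Chain2, MbMono, Small2, CellStep, GoodSum, BadVol`.
Chapter E: `AE2, Hit2, MainII, AE1, Dyad1, MainI, Num, Final`.
-/

set_option autoImplicit false

namespace Pool.H38.OP

open MeasureTheory Set Pool.H19.Wa Pool.H48.Wt Pool.H19.Fc

noncomputable section

/-- `f_a(x) = x^(l+1+p) + ∑_(c < p) a_c x^(l+1+c)` -/
def fa (l p : ℕ) (a : Fin p → ℝ) (x : ℕ) : ℝ :=
  (x : ℝ) ^ (l + 1 + p) + ∑ c : Fin p, a c * (x : ℝ) ^ (l + 1 + (c : ℕ))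

/-- the box of one level: `x b ∈ ((2b+1) P, (2b+2) P]` -/
def bo (p P : ℕ) : Finset (Fin p → ℕ) :=
  Fintype.piFinset fun b => Finset.Ioc ((2 * (b : ℕ) + 1) * P) ((2 * (b : ℕ) + 2) * P)

/-- the blocks -/
def Yb (p n : ℕ) (P : Fin n → ℕ) : Finset (Fin n → Fin p → ℕ) := Fintype.piFinset fun i => bo p (P i)

/-- power sums of one level, exponent `l+1+c` -/
def pl (l : ℕ) {p : ℕ} (x : Fin p → ℕ) (c : ℕ) : ℝ := ∑ b, (x b : ℝ) ^ (l + 1 + c)

/-- power sums of a block -/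
def ps (l : ℕ) {p n : ℕ} (y : Fin n → Fin p → ℕ) (c : ℕ) : ℝ := ∑ i, pl l (y i) c

/-- the sum of the values of `f_a` over a block -/
def ga (l : ℕ) {p n : ℕ} (a : Fin p → ℝ) (y : Fin n → Fin p → ℕ) : ℝ := ∑ i, ∑ b, fa l p a (y i b)

/-- index of the base family: `u` genuine powers and `n p` values of `f_a` -/
abbrev Ix (p n u : ℕ) := (Fin u → ℕ) × (Fin n → Fin p → ℕ)

/-- the base family -/
def bval (l : ℕ) {p n u : ℕ} (x : Ix p n u) (a : Fin p → ℝ) : ℝ :=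
  ∑ j, (x.1 j : ℝ) ^ (l + 1 + p) + ga l a x.2

/-- the reals at distance at least `r` from all values of the base family with block variables at most `(2p+2) Q` -/
def Mb (l p n u : ℕ) (Q : ℝ) (a : Fin p → ℝ) (r : ℝ) : Set ℝ :=
  {τ | ∀ x : Ix p n u, (∀ i b, (x.2 i b : ℝ) ≤ (2 * p + 2) * Q) → r ≤ |bval l x a - τ|}

/-- the full family: `v` more genuine powers and one more value of `f_a` -/
def tval (l : ℕ) {p n u v : ℕ} (x : Ix p n u × (Fin v → ℕ) × ℕ) (a : Fin p → ℝ) : ℝ :=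
  bval l x.1 a + ∑ j, (x.2.1 j : ℝ) ^ (l + 1 + p) + fa l p a x.2.2

/-- the reals at distance at least `r` from all values of the full family -/
def Mt (l p n u v : ℕ) (a : Fin p → ℝ) (r : ℝ) : Set ℝ :=
  Mi (fun x : Ix p n u × (Fin v → ℕ) × ℕ => tval l x a) r

/-- the box of coefficients -/
def Ba (p : ℕ) (A : ℝ) : Set (Fin p → ℝ) := Set.pi univ fun _ => Icc (-A) A

/-- the window of the base family at scale `Q` -/
def Wi (l p : ℕ) (κ Q : ℝ) : Set ℝ := Icc (κ * Q ^ (l + 1 + p)) ((κ + 3) * Q ^ (l + 1 + p))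

/-- admissible levels -/
def Lev (l p n : ℕ) (K R : ℝ) (P : Fin n → ℕ) : Prop :=
  (∀ i, 1 ≤ P i) ∧ (∀ i, R ≤ (P i : ℝ) ^ l) ∧
    ∀ i j : Fin n, i < j → ∀ c : Fin p, (P j : ℝ) ^ (l + 1 + (c : ℕ)) ≤ K * (P i : ℝ) ^ (l + (c : ℕ))

/-- `θ` -/
def th (k u : ℕ) : ℝ := (1 - 1 / (k : ℝ)) ^ u

/-- `ρ` -/
def rh (l : ℕ) : ℝ := (l : ℝ) / (l + 1)

/-- side of the cells in the coefficient `c` (`P` the top scale, `Q` the base scale) -/
def om (l p : ℕ) (P Q : ℝ) (c : ℕ) : ℝ := Q ^ (l + 1 + p) / ((p + 1) * P ^ (l + 1 + c))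

end

/-! ## Basic facts -/

theorem mem_bo {p P : ℕ} {x : Fin p → ℕ} :
    x ∈ bo p P ↔ ∀ b : Fin p, (2 * (b : ℕ) + 1) * P < x b ∧ x b ≤ (2 * (b : ℕ) + 2) * P := by
  unfold bo
  rw [Fintype.mem_piFinset]
  simp only [Finset.mem_Ioc]

theorem mem_Yb {p n : ℕ} {P : Fin n → ℕ} {y : Fin n → Fin p → ℕ} : y ∈ Yb p n P ↔ ∀ i, y i ∈ bo p (P i) := by
  unfold Yb
  rw [Fintype.mem_piFinset]

theorem card_bo (p P : ℕ) : (bo p P).card = P ^ p := by
  unfold bo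
  rw [Fintype.card_piFinset]
  have h : ∀ b : Fin p, (Finset.Ioc ((2 * (b : ℕ) + 1) * P) ((2 * (b : ℕ) + 2) * P)).card = P := by
    intro b
    rw [Nat.card_Ioc]
    have : (2 * (b : ℕ) + 2) * P = (2 * (b : ℕ) + 1) * P + P := by ring
    omega
  rw [Finset.prod_congr rfl fun b _ => h b]
  simp

theorem card_Yb (p n : ℕ) (P : Fin n → ℕ) : (Yb p n P).card = ∏ i, P i ^ p := by
  unfold Yb
  rw [Fintype.card_piFinset]
  exact Finset.prod_congr rfl fun i _ => card_bo p (P i)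

/-- `ga` is the top power sum plus a linear form in `a` -/
theorem ga_eq (l : ℕ) {p n : ℕ} (a : Fin p → ℝ) (y : Fin n → Fin p → ℕ) :
    ga l a y = ps l y p + ∑ c : Fin p, a c * ps l y (c : ℕ) := by
  unfold ga ps pl fa
  simp only [Finset.sum_add_distrib, Finset.mul_sum]
  congr 1
  have h1 : ∀ i : Fin n, ∑ b : Fin p, ∑ c : Fin p, a c * (y i b : ℝ) ^ (l + 1 + (c : ℕ)) =
      ∑ c : Fin p, ∑ b : Fin p, a c * (y i b : ℝ) ^ (l + 1 + (c : ℕ)) := fun i => Finset.sum_comm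
  simp_rw [h1]
  exact Finset.sum_comm

theorem ps_cons (l : ℕ) {p n : ℕ} (x : Fin p → ℕ) (y : Fin n → Fin p → ℕ) (c : ℕ) :
    ps l (Fin.cons x y : Fin (n + 1) → Fin p → ℕ) c = pl l x c + ps l y c := by
  unfold ps
  rw [Fin.sum_univ_succ]
  rfl

theorem measurableSet_Ba (p : ℕ) (A : ℝ) : MeasurableSet (Ba p A) := by
  unfold Ba
  exact MeasurableSet.univ_pi fun _ => measurableSet_Icc

theorem mem_Ba {p : ℕ} {A : ℝ} {a : Fin p → ℝ} : a ∈ Ba p A ↔ ∀ c, |a c| ≤ A := by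
  unfold Ba
  simp only [Set.mem_pi, Set.mem_univ, forall_true_left, Set.mem_Icc, abs_le]

end Pool.H38.OP
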