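import Pool.Agent.H19.Fc.Meas
import Pool.Agent.H38.OP.Defs

/-!
# Module MEAS2: measurability of the missed sets

`Ix p n u` and `Ix p n u × (Fin v → ℕ) × ℕ` are countable; `bval l x`, `tval l x` are continuous in `a` (finite sums). `Mb` is the countable
intersection over the admissible `x` of `{r ≤ |bval l x a - τ|}` (`MeasurableSet.iInter` twice, the second over a `Prop`). `meas_Mi`, `meas_vol` of
`Fc/Meas` for `Mt`; for `Mb` use `measurable_measure_prodMk_left` in the same way.
-/

set_option autoImplicit false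

namespace Pool.H38.OP

open MeasureTheory Set Pool.H19.Wa Pool.H48.Wt Pool.H19.Fc

private theorem continuous_fa_aux (l p x : ℕ) : Continuous (fun a : Fin p → ℝ => fa l p a x) := by
  unfold fa
  fun_prop

theorem continuous_bval (l : ℕ) {p n u : ℕ} (x : Ix p n u) : Continuous (bval l x) := by
  unfold bval ga
  refine continuous_const.add ?_
  refine continuous_finsetSum _ fun i _ => ?_
  refine continuous_finsetSum _ fun b _ => ?_
  exact continuous_fa_aux l p (x.2 i b)

theorem continuous_tval (l : ℕ) {p n u v : ℕ} (x : Ix p n u × (Fin v → ℕ) × ℕ) : Continuous (tval l x) := by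
  unfold tval
  exact ((continuous_bval l x.1).add continuous_const).add (continuous_fa_aux l p x.2.2)

theorem measurableSet_Wi (l p : ℕ) (κ Q : ℝ) : MeasurableSet (Wi l p κ Q) := by
  unfold Wi
  exact measurableSet_Icc

theorem meas_Mb (l p n u : ℕ) (Q r : ℝ) :
    MeasurableSet {x : (Fin p → ℝ) × ℝ | x.2 ∈ Mb l p n u Q x.1 r} := by
  have h : {x : (Fin p → ℝ) × ℝ | x.2 ∈ Mb l p n u Q x.1 r}
      = ⋂ y : Ix p n u, ⋂ _ : (∀ i b, (y.2 i b : ℝ) ≤ (2 * p + 2) * Q),
        {x : (Fin p → ℝ) × ℝ | r ≤ |bval l y x.1 - x.2|} := by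
    ext x
    simp only [Mb, Set.mem_ofPred_eq, Set.mem_iInter]
  rw [h]
  refine MeasurableSet.iInter fun y => MeasurableSet.iInter fun _ => ?_
  refine measurableSet_le measurable_const ?_
  exact (((continuous_bval l y).measurable.comp measurable_fst).sub measurable_snd).abs

theorem meas_Mt (l p n u v : ℕ) (r : ℝ) :
    MeasurableSet {x : (Fin p → ℝ) × ℝ | x.2 ∈ Mt l p n u v x.1 r} :=
  meas_Mi (fun x : Ix p n u × (Fin v → ℕ) × ℕ => tval l x) (fun x => (continuous_tval l x).measurable) r

theorem meas_Mb_vol (l p n u : ℕ) (Q r : ℝ) {I : Set ℝ} (hI : MeasurableSet I) :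
    Measurable (fun a : Fin p → ℝ => volume (Mb l p n u Q a r ∩ I)) := by
  have h := (meas_Mb l p n u Q r).inter (measurable_snd hI)
  exact measurable_measure_prodMk_left (ν := (volume : Measure ℝ)) h

theorem meas_Mt_vol (l p n u v : ℕ) (r : ℝ) {I : Set ℝ} (hI : MeasurableSet I) :
    Measurable (fun a : Fin p → ℝ => volume (Mt l p n u v a r ∩ I)) :=
  meas_vol (fun x : Ix p n u × (Fin v → ℕ) × ℕ => tval l x) (fun x => (continuous_tval l x).measurable) r hI

end Pool.H38.OP
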