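import Pool.Agent.H38.OP.BaseInt2
import Pool.Agent.H38.OP.Meas2

/-!
# Module BADVOL: the bad coefficient vectors have small measure

Markov: `mul_meas_ge_le_lintegral` for the measure `volume.restrict (Ba p A)` and the measurable function
`a ↦ volume (Mb .. ∩ Wi ..)` (`meas_Mb_vol`, `measurableSet_Wi`): `ofReal (Q^(k-e)) * volume {a ∈ Ba | ofReal (Q^(k-e)) ≤ ..} ≤ ofReal (C Q^(k - e0 + c + ε))`
(`base_int2`); divide (`Q^(k-e) > 0`, `Real.rpow_sub`/`Real.rpow_add`): exponent `(k - e0 + c + ε) - (k - e)`.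
-/

set_option autoImplicit false

namespace Pool.H38.OP

open MeasureTheory Set Pool.H19.Wa Pool.H48.Wt Pool.H19.Fc

theorem bad_vol (l p n u : ℕ) (A κ c ε C Q0 : ℝ) (hQ0 : 1 ≤ Q0) (hC : 0 < C)
    (h : ∀ Q : ℝ, Q0 ≤ Q → ∫⁻ a in Ba p A, volume (Mb l p n u Q a (Q ^ (-c)) ∩ Wi l p κ Q) ≤
        ENNReal.ofReal (C * Q ^ (((l + 1 + p : ℕ) : ℝ) - e0 l p n u + c + ε))) (e Q : ℝ) (hQ : Q0 ≤ Q) :
    volume {a | a ∈ Ba p A ∧ ENNReal.ofReal (Q ^ (((l + 1 + p : ℕ) : ℝ) - e)) <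
        volume (Mb l p n u Q a (Q ^ (-c)) ∩ Wi l p κ Q)} ≤
      ENNReal.ofReal (C * Q ^ (e - e0 l p n u + c + ε)) := by
  have hQ1 : 0 < Q := by linarith
  have hmeas : Measurable (fun a : Fin p → ℝ => volume (Mb l p n u Q a (Q ^ (-c)) ∩ Wi l p κ Q)) :=
    meas_Mb_vol l p n u Q _ (measurableSet_Wi l p κ Q)
  have hM := mul_meas_ge_le_lintegral (μ := volume.restrict (Ba p A)) hmeas
    (ENNReal.ofReal (Q ^ (((l + 1 + p : ℕ) : ℝ) - e)))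
  have hpos : 0 < Q ^ (((l + 1 + p : ℕ) : ℝ) - e) := Real.rpow_pos_of_pos hQ1 _
  have hx0 : ENNReal.ofReal (Q ^ (((l + 1 + p : ℕ) : ℝ) - e)) ≠ 0 := (ENNReal.ofReal_pos.2 hpos).ne'
  have hsub : volume {a | a ∈ Ba p A ∧ ENNReal.ofReal (Q ^ (((l + 1 + p : ℕ) : ℝ) - e)) <
        volume (Mb l p n u Q a (Q ^ (-c)) ∩ Wi l p κ Q)} ≤
      (volume.restrict (Ba p A)) {a | ENNReal.ofReal (Q ^ (((l + 1 + p : ℕ) : ℝ) - e)) ≤
        volume (Mb l p n u Q a (Q ^ (-c)) ∩ Wi l p κ Q)} := by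
    rw [Measure.restrict_apply (measurableSet_le measurable_const hmeas)]
    exact measure_mono fun a ha => ⟨ha.2.le, ha.1⟩
  refine hsub.trans ?_
  have h2 : (volume.restrict (Ba p A)) {a | ENNReal.ofReal (Q ^ (((l + 1 + p : ℕ) : ℝ) - e)) ≤
        volume (Mb l p n u Q a (Q ^ (-c)) ∩ Wi l p κ Q)} ≤
      ENNReal.ofReal (C * Q ^ (((l + 1 + p : ℕ) : ℝ) - e0 l p n u + c + ε)) /
        ENNReal.ofReal (Q ^ (((l + 1 + p : ℕ) : ℝ) - e)) := by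
    rw [ENNReal.le_div_iff_mul_le (Or.inl hx0) (Or.inl ENNReal.ofReal_ne_top), mul_comm]
    exact hM.trans (h Q hQ)
  refine h2.trans (le_of_eq ?_)
  rw [← ENNReal.ofReal_div_of_pos hpos]
  congr 1
  rw [mul_div_assoc, ← Real.rpow_sub hQ1]
  congr 2
  ring

end Pool.H38.OP
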