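import Pool.Agent.H19.Wb.Abs
import Pool.Agent.H38.OP.BadVol

/-!
# Module AEBASE: almost every coefficient vector, base family, scales μ^j

`Pool.H19.Wb.ae_bound` for the measure `volume.restrict (Ba p A)` and `A_j(a) = volume (Mb l p n u (μ^j) a ((μ^j)^(-c)) ∩ Wi l p κ (μ^j))` (measurable:
`meas_Mb_vol`, `measurableSet_Wi`; finite: contained in `Wi`, a bounded interval). `(μ^j)^x = 2^(j (x log_2 μ))` with `log_2 μ = Real.logb 2 μ > 0`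
(`Real.rpow_logb`), so the hypothesis holds for `j` with `μ^j ≥ Q0` with `θ = (k - e0 + c + ε) log_2 μ`, and `θ' = E log_2 μ > θ`.
-/

set_option autoImplicit false

namespace Pool.H38.OP

open MeasureTheory Set Pool.H19.Wa Pool.H48.Wt Pool.H19.Fc

theorem aebase_pow {μ : ℝ} (hμ : 1 < μ) (j : ℕ) (x : ℝ) :
    (μ ^ j) ^ x = (2 : ℝ) ^ ((j : ℝ) * (x * Real.logb 2 μ)) := by
  have h1 : (2 : ℝ) ^ Real.logb 2 μ = μ := Real.rpow_logb (by norm_num) (by norm_num) (by linarith)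
  conv_lhs => rw [← h1]
  rw [← Real.rpow_natCast, ← Real.rpow_mul (by norm_num : (0 : ℝ) ≤ 2), ← Real.rpow_mul (by norm_num : (0 : ℝ) ≤ 2)]
  congr 1
  ring

theorem ae_base (l p n u : ℕ) (A κ c ε C Q0 μ E : ℝ) (hQ0 : 1 ≤ Q0) (hC : 0 < C) (hμ : 1 < μ)
    (h : ∀ Q : ℝ, Q0 ≤ Q → ∫⁻ a in Ba p A, volume (Mb l p n u Q a (Q ^ (-c)) ∩ Wi l p κ Q) ≤
        ENNReal.ofReal (C * Q ^ (((l + 1 + p : ℕ) : ℝ) - e0 l p n u + c + ε)))
    (hE : ((l + 1 + p : ℕ) : ℝ) - e0 l p n u + c + ε < E) :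
    ∀ᵐ a ∂((volume : Measure (Fin p → ℝ)).restrict (Ba p A)), ∃ C' : ℝ, 0 ≤ C' ∧ ∀ j : ℕ,
      volume (Mb l p n u (μ ^ j) a ((μ ^ j) ^ (-c)) ∩ Wi l p κ (μ ^ j)) ≤ ENNReal.ofReal (C' * (μ ^ j) ^ E) := by
  have hlog : 0 < Real.logb 2 μ := Real.logb_pos (by norm_num) hμ
  obtain ⟨j0, hj0⟩ := pow_unbounded_of_one_lt Q0 hμ
  have hb := Pool.H19.Wb.ae_bound ((volume : Measure (Fin p → ℝ)).restrict (Ba p A))
    (fun (j : ℕ) (a : Fin p → ℝ) =>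
      volume (Mb l p n u (μ ^ j) a ((μ ^ j) ^ (-c)) ∩ Wi l p κ (μ ^ j)))
    (fun j => meas_Mb_vol l p n u (μ ^ j) _ (measurableSet_Wi l p κ (μ ^ j))) C
    ((((l + 1 + p : ℕ) : ℝ) - e0 l p n u + c + ε) * Real.logb 2 μ) (E * Real.logb 2 μ) j0
    (fun j hj => by
      have h1 : Q0 ≤ μ ^ j := hj0.le.trans (pow_le_pow_right₀ hμ.le hj)
      have h2 := h (μ ^ j) h1
      rw [aebase_pow hμ j (((l + 1 + p : ℕ) : ℝ) - e0 l p n u + c + ε)] at h2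
      exact h2)
    (mul_lt_mul_of_pos_right hE hlog)
    (fun j a => by
      refine lt_of_le_of_lt (measure_mono Set.inter_subset_right) ?_
      unfold Wi
      rw [Real.volume_Icc]
      exact ENNReal.ofReal_lt_top)
  filter_upwards [hb] with a ha
  obtain ⟨C', hC', h3⟩ := ha
  refine ⟨C', hC', fun j => ?_⟩
  rw [aebase_pow hμ j E]
  exact h3 j

end Pool.H38.OP
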