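import Pool.Agent.H38.OP.Defs

/-!
# Module FUB: Fubini for (Fin p → ℝ) × ℝ and Fin (p+1) → ℝ

`volume_preserving_piFinSuccAbove (fun _ : Fin (p+1) => ℝ) 0` identifies `Fin (p+1) → ℝ` with `ℝ × (Fin p → ℝ)`, `x ↦ (x 0, fun c => x c.succ)`
(`Fin.succAbove_zero`; see `lint_pi` in `Pool/Agent/H19/Fc/AvgF.lean`). `Measure.prod_apply_symm` (or `Measure.prod_apply` after `Prod.swap`,
`Measure.measurePreserving_swap`) gives the integral over `a` of the measure of the section.
-/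

set_option autoImplicit false

namespace Pool.H38.OP

open MeasureTheory Set Pool.H19.Wa Pool.H48.Wt Pool.H19.Fc

theorem fub (p : ℕ) (S : Set ((Fin p → ℝ) × ℝ)) (hS : MeasurableSet S) :
    ∫⁻ a : Fin p → ℝ, volume {τ : ℝ | (a, τ) ∈ S} =
      volume {x : Fin (p + 1) → ℝ | ((fun c : Fin p => x c.succ), x 0) ∈ S} := by
  have h1 : ∫⁻ a : Fin p → ℝ, volume {τ : ℝ | (a, τ) ∈ S} = volume S := by
    rw [Measure.volume_eq_prod, Measure.prod_apply hS]
    rfl
  have hmp := volume_preserving_piFinSuccAbove (fun _ : Fin (p + 1) => ℝ) 0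
  have hsw : MeasurePreserving (Prod.swap : ℝ × (Fin p → ℝ) → (Fin p → ℝ) × ℝ) volume volume :=
    Measure.measurePreserving_swap
  have hS2 : MeasurableSet ((Prod.swap : ℝ × (Fin p → ℝ) → (Fin p → ℝ) × ℝ) ⁻¹' S) := measurable_swap hS
  rw [h1, ← hsw.measure_preimage hS.nullMeasurableSet, ← hmp.measure_preimage hS2.nullMeasurableSet]
  congr 1

end Pool.H38.OP
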