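import Pool.Agent.H38.OP.Defs

/-!
# Module GRID: covering a bounded set by grid cells

If `S` is empty nothing is to prove (`volume ∅ = 0`). Otherwise `lo i ≤ hi i` for all `i`. Let `M i = ⌊(hi i - lo i)/ω i⌋₊`. For
`ν ∈ Fintype.piFinset (fun i => Finset.range (M i + 1))` let `S_ν = {x ∈ S | ∀ i, ⌊(x i - lo i)/ω i⌋₊ = ν i}`. The `S_ν` cover `S`. If `x0, x ∈ S_ν` then
`|x i - x0 i| ≤ ω i` (same floor), so `volume S_ν ≤ V` (`S_ν` empty: trivial; otherwise choose `x0 ∈ S_ν` and use `hV x0` and monotonicity).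
`measure_biUnion_finset_le`, number of cells `∏ (M i + 1) ≤ ∏ ((hi i - lo i)/ω i + 1)`.
-/

set_option autoImplicit false

namespace Pool.H38.OP

open MeasureTheory Set Pool.H19.Wa Pool.H48.Wt Pool.H19.Fc

private theorem floor_close {x y ω : ℝ} (hω : 0 < ω) (hx : 0 ≤ x) (hy : 0 ≤ y)
    (h : ⌊x / ω⌋₊ = ⌊y / ω⌋₊) : |x - y| ≤ ω := by
  have h1 := Nat.floor_le (div_nonneg hx hω.le)
  have h2 := Nat.lt_floor_add_one (x / ω)
  have h3 := Nat.floor_le (div_nonneg hy hω.le)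
  have h4 := Nat.lt_floor_add_one (y / ω)
  rw [h] at h1 h2
  have h5 : x / ω - y / ω < 1 := by linarith
  have h6 : y / ω - x / ω < 1 := by linarith
  rw [← sub_div, div_lt_one hω] at h5 h6
  rw [abs_le]
  constructor <;> linarith

theorem grid_cover (m : ℕ) (S : Set (Fin m → ℝ)) (lo hi ω : Fin m → ℝ) (hω : ∀ i, 0 < ω i)
    (hS : ∀ x ∈ S, ∀ i, lo i ≤ x i ∧ x i ≤ hi i) (V : ENNReal)
    (hV : ∀ x0 ∈ S, volume {x | x ∈ S ∧ ∀ i, |x i - x0 i| ≤ ω i} ≤ V) :
    volume S ≤ ENNReal.ofReal (∏ i, ((hi i - lo i) / ω i + 1)) * V := by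
  rcases S.eq_empty_or_nonempty with hE | ⟨x1, hx1⟩
  · rw [hE, measure_empty]
    exact zero_le
  have hlh : ∀ i, lo i ≤ hi i := fun i => (hS x1 hx1 i).1.trans (hS x1 hx1 i).2
  let F : Finset (Fin m → ℕ) :=
    Fintype.piFinset fun i => Finset.range (⌊(hi i - lo i) / ω i⌋₊ + 1)
  let Sn : (Fin m → ℕ) → Set (Fin m → ℝ) := fun ν => {x | x ∈ S ∧ ∀ i, ⌊(x i - lo i) / ω i⌋₊ = ν i}
  have hcov : S ⊆ ⋃ ν ∈ F, Sn ν := by
    intro x hx
    rw [Set.mem_iUnion₂]
    refine ⟨fun i => ⌊(x i - lo i) / ω i⌋₊, ?_, hx, fun i => rfl⟩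
    rw [Fintype.mem_piFinset]
    intro i
    rw [Finset.mem_range, Nat.lt_succ_iff]
    apply Nat.floor_le_floor
    have := (hS x hx i).2
    exact div_le_div_of_nonneg_right (by linarith) (hω i).le
  have hSn : ∀ ν ∈ F, volume (Sn ν) ≤ V := by
    intro ν _
    rcases (Sn ν).eq_empty_or_nonempty with hE | ⟨x0, hx0⟩
    · rw [hE, measure_empty]
      exact zero_le
    · refine (measure_mono ?_).trans (hV x0 hx0.1)
      intro x hx
      refine ⟨hx.1, fun i => ?_⟩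
      have h1 := floor_close (hω i) (by linarith [(hS x hx.1 i).1] : 0 ≤ x i - lo i)
        (by linarith [(hS x0 hx0.1 i).1] : 0 ≤ x0 i - lo i) ((hx.2 i).trans (hx0.2 i).symm)
      have h2 : x i - lo i - (x0 i - lo i) = x i - x0 i := by ring
      rw [h2] at h1
      exact h1
  refine (measure_mono hcov).trans ((measure_biUnion_finset_le F Sn).trans
    ((Finset.sum_le_card_nsmul F _ V hSn).trans ?_))
  rw [nsmul_eq_mul]
  refine mul_le_mul_left ?_ V
  rw [← ENNReal.ofReal_natCast]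
  apply ENNReal.ofReal_le_ofReal
  rw [Fintype.card_piFinset, Nat.cast_prod]
  refine Finset.prod_le_prod (fun _ _ => Nat.cast_nonneg _) fun i _ => ?_
  rw [Finset.card_range, Nat.cast_add, Nat.cast_one]
  have h3 : (⌊(hi i - lo i) / ω i⌋₊ : ℝ) ≤ (hi i - lo i) / ω i :=
    Nat.floor_le (div_nonneg (by linarith [hlh i]) (hω i).le)
  linarith

end Pool.H38.OP
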