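import Pool.Agent.H38.OP.Defs

/-!
# Module SMALL2: the cells are small for the base family

Let `Q = P^lam`, `1 ≤ Q ≤ P` (`0 < lam < 1`, which follows from `hlam`, `hc`). `om l p P Q i = Q^k/((p+1) P^(l+1+i))`, `k = l+1+p`. So
`om * ((2p+2) Q)^(l+1+i) ≤ (2p+2)^k Q^k (Q/P)^(l+1+i) ≤ (2p+2)^k Q^k (Q/P)^(l+1) = (2p+2)^k P^(lam (k+l+1) - (l+1))`, and the sum over `i : Fin p` is
at most `n p^2 (2p+2)^k P^(lam (k+l+1) - (l+1)) ≤ P^(-lam c) = Q^(-c)` for `P` large because `lam (k+l+1+c) < l+1`. Also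
`om ≤ Q^k/P^(l+1) = P^(lam k - (l+1)) ≤ 1`.
-/

set_option autoImplicit false

namespace Pool.H38.OP

open MeasureTheory Set Pool.H19.Wa Pool.H48.Wt Pool.H19.Fc

theorem small2 (l p n : ℕ) (lam c : ℝ) (hc : 0 ≤ c) (h0 : 0 < lam)
    (hlam : lam * (((l + 1 + p : ℕ) : ℝ) + ((l : ℝ) + 1) + c) < (l : ℝ) + 1) :
    ∃ P0 : ℝ, 1 ≤ P0 ∧ ∀ P : ℝ, P0 ≤ P →
      (∑ i : Fin p, om l p P (P ^ lam) i * (n * p * ((2 * p + 2) * P ^ lam) ^ (l + 1 + (i : ℕ))) ≤
        (P ^ lam) ^ (-c)) ∧ ∀ i : Fin p, om l p P (P ^ lam) i ≤ 1 := by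
  have hp0 : (0 : ℝ) ≤ p := Nat.cast_nonneg p
  have hn0 : (0 : ℝ) ≤ n := Nat.cast_nonneg n
  have hl0 : (0 : ℝ) ≤ l := Nat.cast_nonneg l
  have hkc : (((l + 1 + p : ℕ)) : ℝ) = l + 1 + p := by push_cast; ring
  have hlam1 : lam < 1 := by
    rw [hkc] at hlam
    by_contra hge
    push Not at hge
    nlinarith [mul_nonneg h0.le hp0, mul_nonneg h0.le hc, mul_nonneg h0.le hl0]
  set D : ℝ := n * p * (2 * p + 2) ^ (l + 1 + p) with hD
  have hD0 : 0 ≤ D := by positivity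
  set δ : ℝ := ((l : ℝ) + 1) - lam * (((l + 1 + p : ℕ) : ℝ) + ((l : ℝ) + 1) + c) with hδ
  have hδ0 : 0 < δ := by rw [hδ]; linarith
  obtain ⟨P1, hP1⟩ := Filter.eventually_atTop.mp ((tendsto_rpow_atTop hδ0).eventually_ge_atTop (p * D))
  refine ⟨max 1 P1, le_max_left _ _, ?_⟩
  intro P hP
  have hPone : 1 ≤ P := (le_max_left _ _).trans hP
  have hPpos : 0 < P := lt_of_lt_of_le one_pos hPone
  have hbig : p * D ≤ P ^ δ := hP1 P ((le_max_right _ _).trans hP)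
  set Q : ℝ := P ^ lam with hQ
  have hQ0 : 0 < Q := Real.rpow_pos_of_pos hPpos _
  have hQk : ∀ j : ℕ, Q ^ j = P ^ (lam * j) := by
    intro j
    rw [hQ, ← Real.rpow_natCast, ← Real.rpow_mul hPpos.le]
  set q : ℝ := Q / P with hq
  have hq0 : 0 < q := div_pos hQ0 hPpos
  have hqe : q = P ^ (lam - 1) := by
    rw [hq, hQ, Real.rpow_sub_one hPpos.ne']
  have hq1 : q ≤ 1 := by
    rw [hqe]
    exact Real.rpow_le_one_of_one_le_of_nonpos hPone (by linarith)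
  have hqj : q ^ (l + 1) = P ^ ((lam - 1) * ((l : ℝ) + 1)) := by
    rw [hqe, ← Real.rpow_natCast, ← Real.rpow_mul hPpos.le]
    push_cast
    rfl
  constructor
  · have hterm : ∀ i : Fin p, om l p P Q i * (n * p * ((2 * p + 2) * Q) ^ (l + 1 + (i : ℕ))) ≤
        D * (Q ^ (l + 1 + p) * q ^ (l + 1)) := by
      intro i
      have e1 : om l p P Q i * (n * p * ((2 * p + 2) * Q) ^ (l + 1 + (i : ℕ))) =
          (1 / ((p : ℝ) + 1)) * (n * p * (2 * p + 2) ^ (l + 1 + (i : ℕ))) *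
            (Q ^ (l + 1 + p) * q ^ (l + 1 + (i : ℕ))) := by
        unfold om
        rw [hq, div_pow, mul_pow]
        have : (0 : ℝ) < (p : ℝ) + 1 := by positivity
        have h3 : 0 < P ^ (l + 1 + (i : ℕ)) := pow_pos hPpos _
        field_simp
      rw [e1]
      have h1 : (1 : ℝ) / ((p : ℝ) + 1) ≤ 1 := by
        rw [div_le_one (by positivity)]
        linarith
      have h2 : ((2 : ℝ) * p + 2) ^ (l + 1 + (i : ℕ)) ≤ (2 * p + 2) ^ (l + 1 + p) :=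
        pow_le_pow_right₀ (by linarith) (by omega)
      have h3 : q ^ (l + 1 + (i : ℕ)) ≤ q ^ (l + 1) := pow_le_pow_of_le_one hq0.le hq1 (by omega)
      have h4 : (1 / ((p : ℝ) + 1)) * (n * p * (2 * p + 2) ^ (l + 1 + (i : ℕ))) ≤ D := by
        calc (1 / ((p : ℝ) + 1)) * (n * p * (2 * p + 2) ^ (l + 1 + (i : ℕ)))
            ≤ 1 * (n * p * (2 * p + 2) ^ (l + 1 + (i : ℕ))) := mul_le_mul_of_nonneg_right h1 (by positivity)
          _ = n * p * (2 * p + 2) ^ (l + 1 + (i : ℕ)) := one_mul _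
          _ ≤ D := mul_le_mul_of_nonneg_left h2 (by positivity)
      exact mul_le_mul h4 (mul_le_mul_of_nonneg_left h3 (by positivity)) (by positivity) hD0
    have hsum : ∑ i : Fin p, om l p P Q i * (n * p * ((2 * p + 2) * Q) ^ (l + 1 + (i : ℕ))) ≤
        p * (D * (Q ^ (l + 1 + p) * q ^ (l + 1))) := by
      refine (Finset.sum_le_sum fun i _ => hterm i).trans ?_
      rw [Finset.sum_const, Finset.card_univ, Fintype.card_fin, nsmul_eq_mul]
    refine hsum.trans ?_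
    rw [hQk, hqj, ← Real.rpow_add hPpos]
    have e2 : (P ^ lam) ^ (-c) = P ^ δ * P ^ (lam * ((l + 1 + p : ℕ) : ℝ) + (lam - 1) * ((l : ℝ) + 1)) := by
      rw [← Real.rpow_add hPpos, ← Real.rpow_mul hPpos.le]
      congr 1
      rw [hδ]
      ring
    rw [← hQ] at e2
    rw [e2, ← mul_assoc]
    exact mul_le_mul_of_nonneg_right hbig (Real.rpow_nonneg hPpos.le _)
  · intro i
    unfold om
    rw [div_le_one (by positivity)]
    have h1 : Q ^ (l + 1 + p) ≤ P ^ (l + 1) := by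
      rw [hQk, ← Real.rpow_natCast P (l + 1)]
      refine Real.rpow_le_rpow_of_exponent_le hPone ?_
      push_cast at hlam ⊢
      nlinarith [mul_nonneg h0.le hc, mul_nonneg h0.le hl0]
    have h2 : P ^ (l + 1) ≤ P ^ (l + 1 + (i : ℕ)) := pow_le_pow_right₀ hPone (by omega)
    have h3 : (0 : ℝ) < P ^ (l + 1 + (i : ℕ)) := pow_pos hPpos _
    nlinarith

end Pool.H38.OP
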