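import Pool.Agent.H38.OP.CellStep
import Pool.Agent.H38.OP.Small2
import Pool.Agent.H38.OP.Grid

/-!
# Module GOODSUM: the missed set over the good coefficient vectors

Let `k = l+1+p`, `Q = P^lam`, `Σ = ∑_(c<p)(l+1+c)`. `hlam` and `hc` give `0 < lam < 1`. `C1, P1` from `cell_step`, `P2` from `small2` (so with `r = 2 Q^(-c)`,
`r' = Q^(-c)` the hypothesis of `cell_step` holds: `r - r' = Q^(-c)`). Let `S` be the set of the statement. Apply `grid_cover` (`m = p+1`) with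
`lo = Fin.cons (P^k) (fun _ => -A)`, `hi = Fin.cons (2^k P^k) (fun _ => A)`, `ω = Fin.cons (Q^k/(p+1)) (fun c => om l p P Q c)`. For `x0 ∈ S` put `t0 = x0 0`,
`a0 = fun c => x0 c.succ`: `{x ∈ S | close to x0}` is contained in the set of `cell_step`, so its volume is at most
`V = ofReal (C1/P^Σ) * (ofReal (Q^(k-e)))^(p+1)` (`x0 ∈ S` says that the volume of `Mb .. a0 .. ∩ Wi ..` is `≤ ofReal (Q^(k-e))`).
The number of cells: first factor `(2^k - 1) P^k (p+1)/Q^k + 1 ≤ 2^k (p+1) P^k/Q^k` (`Q ≤ P`); the others `2A/om + 1 ≤ (2A+1)/om` (`om ≤ 1`, `small2`) and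
`∏_(c<p) 1/om_c = (p+1)^p P^Σ/Q^(kp)` (`om`; `Finset.prod_pow_eq_pow_sum`, `Fin.prod_univ_eq_prod_range`). Total
`C P^k Q^(-k(p+1)) Q^((k-e)(p+1)) = C P^k Q^(-e(p+1)) = C P^(k - lam (p+1) e)`.
-/

set_option autoImplicit false

namespace Pool.H38.OP

open MeasureTheory Set Pool.H19.Wa Pool.H48.Wt Pool.H19.Fc

theorem good_sum (l p n u v : ℕ) (hp : 1 ≤ p) (A κ lam c e : ℝ) (hA : 1 ≤ A) (hκ : 1 ≤ κ) (hc : 0 ≤ c)
    (h0 : 0 < lam) (h1 : th (l + 1 + p) v < lam)
    (hlam : lam * (((l + 1 + p : ℕ) : ℝ) + ((l : ℝ) + 1) + c) < (l : ℝ) + 1) :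
    ∃ C P0 : ℝ, 0 < C ∧ 1 ≤ P0 ∧ ∀ P : ℝ, P0 ≤ P →
      volume {x : Fin (p + 1) → ℝ | (fun c => x c.succ) ∈ Ba p A ∧
          volume (Mb l p n u (P ^ lam) (fun c => x c.succ) ((P ^ lam) ^ (-c)) ∩ Wi l p κ (P ^ lam)) ≤
            ENNReal.ofReal ((P ^ lam) ^ (((l + 1 + p : ℕ) : ℝ) - e)) ∧
          x 0 ∈ Mt l p n u v (fun c => x c.succ) (2 * (P ^ lam) ^ (-c)) ∧
          x 0 ∈ Icc (P ^ (l + 1 + p)) (2 ^ (l + 1 + p) * P ^ (l + 1 + p))} ≤
        ENNReal.ofReal (C * P ^ (((l + 1 + p : ℕ) : ℝ) - lam * (p + 1) * e)) := by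
  have hk0 : (0 : ℝ) < ((l + 1 + p : ℕ) : ℝ) := by positivity
  have hlam1 : lam < 1 := by
    by_contra hcon
    push Not at hcon
    have h2 : (1 : ℝ) * (((l + 1 + p : ℕ) : ℝ) + ((l : ℝ) + 1) + c) ≤
        lam * (((l + 1 + p : ℕ) : ℝ) + ((l : ℝ) + 1) + c) :=
      mul_le_mul_of_nonneg_right hcon (by positivity)
    linarith
  obtain ⟨C1, P1, hC1, hP1, hcell⟩ := cell_step l p n u v hp A κ lam hA hκ h1 hlam1
  obtain ⟨P2, hP2, hsm⟩ := small2 l p n lam c hc h0 hlam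
  refine ⟨C1 * (2 ^ (l + 1 + p) * (p + 1)) * ((2 * A + 1) * (p + 1)) ^ p, max P1 P2, by positivity,
    hP1.trans (le_max_left _ _), fun P hP => ?_⟩
  have hPP1 : P1 ≤ P := (le_max_left _ _).trans hP
  have hPP2 : P2 ≤ P := (le_max_right _ _).trans hP
  have hP1' : 1 ≤ P := hP1.trans hPP1
  have hP0 : 0 < P := by linarith
  obtain ⟨hs1, hs2⟩ := hsm P hPP2
  set Q : ℝ := P ^ lam with hQ
  have hQ0 : 0 < Q := Real.rpow_pos_of_pos hP0 _
  have hQP : Q ≤ P := by
    calc Q ≤ P ^ (1 : ℝ) := Real.rpow_le_rpow_of_exponent_le hP1' hlam1.le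
      _ = P := Real.rpow_one P
  set k : ℕ := l + 1 + p with hk
  set S : Set (Fin (p + 1) → ℝ) := {x : Fin (p + 1) → ℝ | (fun c => x c.succ) ∈ Ba p A ∧
          volume (Mb l p n u Q (fun c => x c.succ) (Q ^ (-c)) ∩ Wi l p κ Q) ≤
            ENNReal.ofReal (Q ^ ((k : ℝ) - e)) ∧
          x 0 ∈ Mt l p n u v (fun c => x c.succ) (2 * Q ^ (-c)) ∧
          x 0 ∈ Icc (P ^ k) (2 ^ k * P ^ k)} with hS
  set Sg : ℕ := ∑ c ∈ Finset.range p, (l + 1 + c) with hSg
  set V : ENNReal := ENNReal.ofReal (C1 / P ^ Sg) * (ENNReal.ofReal (Q ^ ((k : ℝ) - e))) ^ (p + 1) with hV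
  have hom : ∀ c : Fin p, 0 < om l p P Q c := by
    intro c
    unfold om
    positivity
  have hgrid := grid_cover (p + 1) S (Fin.cons (P ^ k) (fun _ => -A)) (Fin.cons (2 ^ k * P ^ k) (fun _ => A))
    (Fin.cons (Q ^ k / (p + 1)) (fun c : Fin p => om l p P Q c)) (by
      intro i
      refine Fin.cases ?_ (fun i => ?_) i
      · rw [Fin.cons_zero]
        positivity
      · rw [Fin.cons_succ]
        exact hom i) (by
      intro x hx i
      obtain ⟨hx1, -, -, hx4⟩ := hx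
      refine Fin.cases ?_ (fun i => ?_) i
      · simp only [Fin.cons_zero]
        exact ⟨hx4.1, hx4.2⟩
      · simp only [Fin.cons_succ]
        have := (mem_Ba.1 hx1) i
        rw [abs_le] at this
        exact this) V (by
      intro x0 hx0
      obtain ⟨ha, hb, -, hd⟩ := hx0
      have h3 := hcell P hPP1 (x0 0) (fun c => x0 c.succ) (2 * Q ^ (-c)) (Q ^ (-c)) hd.1 hd.2 (mem_Ba.1 ha)
        (hs1.trans (by linarith))
      refine (measure_mono ?_).trans (h3.trans ?_)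
      · rintro x ⟨hxS, hx⟩
        refine ⟨hxS.2.2.1, ?_, fun c => ?_⟩
        · have := hx 0
          rw [Fin.cons_zero] at this
          exact this
        · have := hx c.succ
          rw [Fin.cons_succ] at this
          exact this
      · rw [hV]
        gcongr)
  refine hgrid.trans ?_
  rw [Fin.prod_univ_succ]
  simp only [Fin.cons_zero, Fin.cons_succ]
  -- the number of cells
  have hPk : 0 < P ^ k := by positivity
  have hQk : 0 < Q ^ k := by positivity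
  have hQPk : Q ^ k ≤ P ^ k := pow_le_pow_left₀ hQ0.le hQP k
  have hF1 : (2 ^ k * P ^ k - P ^ k) / (Q ^ k / ((p : ℝ) + 1)) + 1 ≤ 2 ^ k * (p + 1) * (P ^ k / Q ^ k) := by
    have h3 : (2 ^ k * P ^ k - P ^ k) / (Q ^ k / ((p : ℝ) + 1)) =
        2 ^ k * (p + 1) * (P ^ k / Q ^ k) - (p + 1) * (P ^ k / Q ^ k) := by
      field_simp
    have h4 : 1 ≤ P ^ k / Q ^ k := by
      rw [le_div_iff₀ hQk]
      linarith
    have h5 : (1 : ℝ) ≤ ((p : ℝ) + 1) * (P ^ k / Q ^ k) := by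
      have : (1 : ℝ) ≤ (p : ℝ) + 1 := by
        have : (0 : ℝ) ≤ (p : ℝ) := Nat.cast_nonneg _
        linarith
      nlinarith
    rw [h3]
    linarith
  have hF2 : ∏ c : Fin p, ((A - -A) / om l p P Q c + 1) ≤
      ((2 * A + 1) * (p + 1)) ^ p * P ^ Sg / (Q ^ k) ^ p := by
    have h3 : ∀ c : Fin p, (A - -A) / om l p P Q c + 1 ≤
        ((2 * A + 1) * (p + 1) / Q ^ k) * P ^ (l + 1 + (c : ℕ)) := by
      intro c
      have h4 : 1 ≤ 1 / om l p P Q c := by
        rw [le_div_iff₀ (hom c), one_mul]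
        exact hs2 c
      have h5 : (A - -A) / om l p P Q c = 2 * A * (1 / om l p P Q c) := by
        field_simp
        ring
      have h6 : 1 / om l p P Q c = (p + 1) / Q ^ k * P ^ (l + 1 + (c : ℕ)) := by
        have h7 : om l p P Q c = Q ^ k / ((p + 1) * P ^ (l + 1 + (c : ℕ))) := rfl
        rw [h7]
        field_simp
      calc (A - -A) / om l p P Q c + 1 ≤ 2 * A * (1 / om l p P Q c) + 1 / om l p P Q c := by
            rw [h5]
            linarith
        _ = (2 * A + 1) * (1 / om l p P Q c) := by ring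
        _ = _ := by
            rw [h6]
            ring
    calc ∏ c : Fin p, ((A - -A) / om l p P Q c + 1)
        ≤ ∏ c : Fin p, (((2 * A + 1) * (p + 1) / Q ^ k) * P ^ (l + 1 + (c : ℕ))) := by
          refine Finset.prod_le_prod (fun c _ => ?_) (fun c _ => h3 c)
          have h8 : 0 ≤ (A - -A) / om l p P Q c := div_nonneg (by linarith) (hom c).le
          linarith
      _ = ((2 * A + 1) * (p + 1) / Q ^ k) ^ p * P ^ Sg := by
          rw [Finset.prod_mul_distrib, Finset.prod_const, Finset.card_univ, Fintype.card_fin,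
            Fin.prod_univ_eq_prod_range (fun c => P ^ (l + 1 + c)) p, Finset.prod_pow_eq_pow_sum]
      _ = _ := by
          rw [div_pow]
          ring
  have hF20 : 0 ≤ ∏ c : Fin p, ((A - -A) / om l p P Q c + 1) := by
    refine Finset.prod_nonneg fun c _ => ?_
    have h8 : 0 ≤ (A - -A) / om l p P Q c := div_nonneg (by linarith) (hom c).le
    linarith
  rw [hV, ← ENNReal.ofReal_pow (by positivity), ← ENNReal.ofReal_mul (by positivity),
    ← ENNReal.ofReal_mul (by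
      refine mul_nonneg ?_ hF20
      have h3 : P ^ k ≤ 2 ^ k * P ^ k := by
        have : (1 : ℝ) ≤ 2 ^ k := one_le_pow₀ (by norm_num)
        nlinarith
      have : 0 ≤ 2 ^ k * P ^ k - P ^ k := by linarith
      positivity)]
  refine ENNReal.ofReal_le_ofReal ?_
  have hQe : 0 < Q ^ e := Real.rpow_pos_of_pos hQ0 _
  have hQke : Q ^ ((k : ℝ) - e) = Q ^ k / Q ^ e := by
    rw [Real.rpow_sub hQ0, Real.rpow_natCast]
  have hPe : P ^ ((k : ℝ) - lam * (p + 1) * e) = P ^ k / (Q ^ e) ^ (p + 1) := by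
    rw [Real.rpow_sub hP0, Real.rpow_natCast]
    congr 1
    rw [hQ, ← Real.rpow_mul hP0.le, ← Real.rpow_natCast, ← Real.rpow_mul hP0.le]
    congr 1
    push_cast
    ring
  rw [hQke, hPe]
  calc ((2 ^ k * P ^ k - P ^ k) / (Q ^ k / ((p : ℝ) + 1)) + 1) *
        (∏ c : Fin p, ((A - -A) / om l p P Q c + 1)) * (C1 / P ^ Sg * (Q ^ k / Q ^ e) ^ (p + 1))
      ≤ (2 ^ k * (p + 1) * (P ^ k / Q ^ k)) * (((2 * A + 1) * (p + 1)) ^ p * P ^ Sg / (Q ^ k) ^ p) *
          (C1 / P ^ Sg * (Q ^ k / Q ^ e) ^ (p + 1)) := by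
        gcongr
    _ = C1 * (2 ^ k * (p + 1)) * ((2 * A + 1) * (p + 1)) ^ p * (P ^ k / (Q ^ e) ^ (p + 1)) := by
        rw [div_pow]
        have h3 : (Q ^ k) ^ (p + 1) = (Q ^ k) ^ p * Q ^ k := pow_succ _ _
        rw [h3]
        have h4 : P ^ Sg ≠ 0 := by positivity
        have h5 : (Q ^ k) ^ p ≠ 0 := by positivity
        have h6 : (Q ^ e) ^ (p + 1) ≠ 0 := by positivity
        generalize (Q ^ k) ^ p = X1 at *
        generalize (Q ^ e) ^ (p + 1) = X2 at *
        generalize P ^ Sg = X3 at *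
        generalize ((2 * A + 1) * ((p : ℝ) + 1)) ^ p = X4 at *
        field_simp

end Pool.H38.OP
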