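import Pool.Agent.H19.Wb.Abs
import Pool.Agent.H38.OP.AEBad
import Pool.Agent.H38.OP.GoodSum
import Pool.Agent.H38.OP.Fub

/-!
# Module AETOP: for almost every coefficient vector the full family misses little

Let `k = l+1+p`, `P = 2^j`, `Q_j = P^lam`, `I_j = Icc (P^k) (2^k P^k)`, `G_j = {a | Go l p n u κ c e Q_j a}` (measurable: `meas_Mb_vol`,
`measurableSet_Wi`, `measurableSet_le`). Let `A_j(a) = indicator of G_j ∩ Ba p A at a * volume (Mt l p n u v a (2 Q_j^(-c)) ∩ I_j)`, i.e.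
`volume {τ | (a, τ) ∈ S_j}` with `S_j = {(a, τ) | a ∈ Ba p A ∧ Go .. a ∧ τ ∈ Mt .. ∧ τ ∈ I_j}` (measurable: `meas_Mt`). By `fub` and
`good_sum` (for `P = 2^j ≥ P0`): `∫⁻ A_j ≤ ofReal (C P^(k - lam (p+1) e)) = ofReal (C 2^(j θ))`, `θ = k - lam (p+1) e < -g`. `Pool.H19.Wb.ae_bound` with
`θ' ∈ (θ, -g)` gives, for almost every `a`, `C'` with `A_j(a) ≤ ofReal (C' 2^(j θ'))` for all `j`, and `C' 2^(j θ') ≤ 2^(-(g j))` for large `j`. For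
`a ∈ Ba p A` with `Go` for all `j ≥ J` we have `A_j(a) = volume (Mt .. ∩ I_j)` for `j ≥ J`. (`A_j` finite: contained in `I_j`.)
-/

set_option autoImplicit false

namespace Pool.H38.OP

open MeasureTheory Set Pool.H19.Wa Pool.H48.Wt Pool.H19.Fc

theorem ae_top (l p n u v : ℕ) (hp : 1 ≤ p) (A κ lam c e g : ℝ) (hA : 1 ≤ A) (hκ : 1 ≤ κ) (hc : 0 ≤ c)
    (h0 : 0 < lam) (h1 : th (l + 1 + p) v < lam)
    (hlam : lam * (((l + 1 + p : ℕ) : ℝ) + ((l : ℝ) + 1) + c) < (l : ℝ) + 1)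
    (hg : g < lam * (p + 1) * e - ((l + 1 + p : ℕ) : ℝ)) :
    ∀ᵐ a ∂((volume : Measure (Fin p → ℝ)).restrict (Ba p A)),
      (∃ J : ℕ, ∀ j : ℕ, J ≤ j → Go l p n u κ c e (((2 : ℝ) ^ j) ^ lam) a) →
      ∃ J : ℕ, ∀ j : ℕ, J ≤ j →
        volume (Mt l p n u v a (2 * (((2 : ℝ) ^ j) ^ lam) ^ (-c)) ∩
          Icc (((2 : ℝ) ^ j) ^ (l + 1 + p)) (2 ^ (l + 1 + p) * ((2 : ℝ) ^ j) ^ (l + 1 + p))) ≤
        ENNReal.ofReal ((2 : ℝ) ^ (-(g * j))) := by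
  obtain ⟨C, P0, hC, hP0, hgs⟩ := good_sum l p n u v hp A κ lam c e hA hκ hc h0 h1 hlam
  obtain ⟨j0, hj0⟩ := Filter.eventually_atTop.1
    ((tendsto_pow_atTop_atTop_of_one_lt (by norm_num : (1 : ℝ) < 2)).eventually_ge_atTop P0)
  set θ : ℝ := ((l + 1 + p : ℕ) : ℝ) - lam * (p + 1) * e with hθ
  set S : ℕ → Set ((Fin p → ℝ) × ℝ) := fun j => {x | x.1 ∈ Ba p A ∧ Go l p n u κ c e (((2 : ℝ) ^ j) ^ lam) x.1 ∧
    x.2 ∈ Mt l p n u v x.1 (2 * (((2 : ℝ) ^ j) ^ lam) ^ (-c)) ∧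
    x.2 ∈ Icc (((2 : ℝ) ^ j) ^ (l + 1 + p)) (2 ^ (l + 1 + p) * ((2 : ℝ) ^ j) ^ (l + 1 + p))} with hS
  have hSm : ∀ j, MeasurableSet (S j) := by
    intro j
    have h2 : MeasurableSet {x : (Fin p → ℝ) × ℝ | x.1 ∈ Ba p A} := measurable_fst (measurableSet_Ba p A)
    have h3 : MeasurableSet {x : (Fin p → ℝ) × ℝ | Go l p n u κ c e (((2 : ℝ) ^ j) ^ lam) x.1} := by
      have h4 : MeasurableSet {a : Fin p → ℝ | Go l p n u κ c e (((2 : ℝ) ^ j) ^ lam) a} :=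
        measurableSet_le (meas_Mb_vol l p n u _ _ (measurableSet_Wi l p κ _)) measurable_const
      exact measurable_fst h4
    have h5 := meas_Mt l p n u v (2 * (((2 : ℝ) ^ j) ^ lam) ^ (-c))
    have h6 : MeasurableSet {x : (Fin p → ℝ) × ℝ |
        x.2 ∈ Icc (((2 : ℝ) ^ j) ^ (l + 1 + p)) (2 ^ (l + 1 + p) * ((2 : ℝ) ^ j) ^ (l + 1 + p))} :=
      measurable_snd measurableSet_Icc
    exact h2.inter (h3.inter (h5.inter h6))
  have hint : ∀ j, j0 ≤ j → ∫⁻ a, volume {τ : ℝ | (a, τ) ∈ S j} ≤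
      ENNReal.ofReal (C * (2 : ℝ) ^ ((j : ℝ) * θ)) := by
    intro j hj
    rw [fub p (S j) (hSm j)]
    refine (hgs ((2 : ℝ) ^ j) (hj0 j hj)).trans_eq ?_
    congr 2
    rw [← Real.rpow_natCast 2 j, ← Real.rpow_mul (by norm_num)]
  have hθ' : θ < (θ - g) / 2 := by
    rw [hθ]
    linarith
  have hab := Pool.H19.Wb.ae_bound (volume : Measure (Fin p → ℝ)) (fun j a => volume {τ : ℝ | (a, τ) ∈ S j})
    (fun j => measurable_measure_prodMk_left (hSm j)) C θ ((θ - g) / 2) j0 hint hθ' (by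
      intro j a
      refine (measure_mono (t := Icc (((2 : ℝ) ^ j) ^ (l + 1 + p)) (2 ^ (l + 1 + p) * ((2 : ℝ) ^ j) ^ (l + 1 + p)))
        ?_).trans_lt ?_
      · intro τ hτ
        exact hτ.2.2.2
      · rw [Real.volume_Icc]
        exact ENNReal.ofReal_lt_top)
  have hab' := ae_restrict_of_ae (s := Ba p A) hab
  filter_upwards [hab', ae_restrict_mem (measurableSet_Ba p A)] with a ha hmem hgo
  obtain ⟨C', hC', hb⟩ := ha
  obtain ⟨J, hJ⟩ := hgo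
  have hd : 0 < -g - (θ - g) / 2 := by
    rw [hθ]
    linarith
  obtain ⟨J2, hJ2⟩ := Filter.eventually_atTop.1
    ((tendsto_pow_atTop_atTop_of_one_lt (Real.one_lt_rpow (by norm_num : (1 : ℝ) < 2) hd)).eventually_ge_atTop C')
  refine ⟨max J J2, fun j hj => ?_⟩
  have hj1 : J ≤ j := (le_max_left _ _).trans hj
  have hj2 : J2 ≤ j := (le_max_right _ _).trans hj
  have h2 : volume (Mt l p n u v a (2 * (((2 : ℝ) ^ j) ^ lam) ^ (-c)) ∩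
          Icc (((2 : ℝ) ^ j) ^ (l + 1 + p)) (2 ^ (l + 1 + p) * ((2 : ℝ) ^ j) ^ (l + 1 + p))) ≤
      volume {τ : ℝ | (a, τ) ∈ S j} := by
    refine measure_mono ?_
    rintro τ ⟨h3, h4⟩
    exact ⟨hmem, hJ j hj1, h3, h4⟩
  refine h2.trans ((hb j).trans (ENNReal.ofReal_le_ofReal ?_))
  have h3 := hJ2 j hj2
  calc C' * (2 : ℝ) ^ ((j : ℝ) * ((θ - g) / 2))
      ≤ ((2 : ℝ) ^ (-g - (θ - g) / 2)) ^ j * (2 : ℝ) ^ ((j : ℝ) * ((θ - g) / 2)) :=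
        mul_le_mul_of_nonneg_right h3 (by positivity)
    _ = (2 : ℝ) ^ (-(g * j)) := by
        rw [← Real.rpow_natCast ((2 : ℝ) ^ (-g - (θ - g) / 2)) j, ← Real.rpow_mul (by norm_num),
          ← Real.rpow_add (by norm_num)]
        congr 1
        ring

end Pool.H38.OP
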