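import Pool.Agent.H38.OP.Defs

/-!
# Module AFFINE: the preimage of a product set under an affine map

`T ⊆ (Matrix.toLin' M) ⁻¹' (Set.pi univ fun j => (fun y => y + b j) ⁻¹' E)`. `MeasureTheory.Measure.addHaar_preimage_linearMap` (with
`LinearMap.det_toLin'`): the volume of the preimage is `ofReal |(det M)⁻¹| *` the volume of the product set; `MeasureTheory.volume_pi_pi` (no measurability
needed) and translation invariance (`measure_preimage_add_right`): every factor is `volume E`; `Finset.prod_const`, `Finset.card_univ`. `abs_inv`.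
-/

set_option autoImplicit false

namespace Pool.H38.OP

open MeasureTheory Set Pool.H19.Wa Pool.H48.Wt Pool.H19.Fc

theorem affine_vol (m : ℕ) (M : Matrix (Fin m) (Fin m) ℝ) (hM : M.det ≠ 0) (E : Set ℝ) (b : Fin m → ℝ)
    (T : Set (Fin m → ℝ)) (hT : ∀ x ∈ T, ∀ j, (M.mulVec x) j + b j ∈ E) :
    volume T ≤ ENNReal.ofReal (|M.det|⁻¹) * volume E ^ m := by
  have hsub : T ⊆ (Matrix.toLin' M) ⁻¹' (Set.pi univ fun j => (fun y => y + b j) ⁻¹' E) := by
    intro x hx
    rw [mem_preimage, Set.mem_pi]
    intro j _
    rw [mem_preimage, Matrix.toLin'_apply]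
    exact hT x hx j
  have hdet : LinearMap.det (Matrix.toLin' M) ≠ 0 := by
    rw [LinearMap.det_toLin']
    exact hM
  refine (measure_mono hsub).trans (le_of_eq ?_)
  rw [Measure.addHaar_preimage_linearMap volume hdet, volume_pi_pi, LinearMap.det_toLin', abs_inv]
  congr 1
  simp only [measure_preimage_add_right]
  rw [Finset.prod_const, Finset.card_univ, Fintype.card_fin]

end Pool.H38.OP
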