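import Pool.Agent.H19.Fc.AvgF
import Pool.Agent.H38.OP.Defs

/-!
# Module GAUSSAVG: Gaussian average of a general exponential sum

`Gam p = Measure.pi (fun _ => gam)`, `gam` has density `exp(-(π x^2))` and is a probability measure (instance in `Fc/Avg1`).
(1) One variable: `∫ x, e (x * δ) ∂gam = exp(-(π δ^2))` (as complex numbers): `integral_withDensity_eq_integral_smul` and the Gaussian
Fourier transform (`fourierIntegral_gaussian_pi`, or `Pool.H19.Wa` : the file `Pool/Agent/H19/Wa/Rep.lean` proves `∫ w b t * e (t u) = G b u`;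
see how `ker_hat` in `Fc/Ker.lean` uses it; take `b = 1`, `w 1 t = exp(-(π t^2))`, `G 1 u = exp(-(π u^2))`).
(2) `∫ a, e (∑ j, a j * δ j) ∂Gam p = ∏ j, exp(-(π δ_j^2)) = exp(-(π ∑ δ_j^2))`: `e_sum`, `MeasureTheory.integral_fintype_prod_eq_prod`.
(3) `‖∑_i c_i e(φ_i)‖^2 = ∑_(i,i') c_i conj(c_i') e(φ_i - φ_i')` (as complex numbers; `Complex.mul_conj`, `e_neg`, `e_add`); integrate (all
functions are bounded and continuous, the measure is finite), take real parts / norms: the integral of the left side is at most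
`∑_(i,i') ‖c_i‖ ‖c_i'‖ exp(-(π ∑_j (lam_i j - lam_i' j)^2)) ≤ ∑_(i,i') exp(..)`.
(4) `∫⁻ ofReal = ofReal ∫` (`ofReal_integral_eq_lintegral_ofReal`).
-/

set_option autoImplicit false

namespace Pool.H38.OP

open MeasureTheory Set Pool.H19.Wa Pool.H48.Wt Pool.H19.Fc

private theorem ga_one (δ : ℝ) :
    ∫ x, e (x * δ) ∂gam = ((Real.exp (-(Real.pi * δ ^ 2)) : ℝ) : ℂ) := by
  have h1 := gauss_hat one_pos δ
  unfold G w at h1
  rw [Real.sqrt_one, inv_one] at h1
  simp only [one_mul, mul_one, div_one] at h1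
  rw [h1]
  unfold gam
  rw [integral_withDensity_eq_integral_toReal_smul (by fun_prop)
    (Filter.Eventually.of_forall fun x => ENNReal.ofReal_lt_top)]
  refine integral_congr_ae (Filter.Eventually.of_forall fun x => ?_)
  simp only
  rw [ENNReal.toReal_ofReal (Real.exp_pos _).le, Complex.real_smul]

private theorem ga_pi (p : ℕ) (δ : Fin p → ℝ) :
    ∫ a, e (∑ j, a j * δ j) ∂Gam p =
      ((Real.exp (-(Real.pi * ∑ j, δ j ^ 2)) : ℝ) : ℂ) := by
  have h1 : ∀ a : Fin p → ℝ, e (∑ j, a j * δ j) = ∏ j, e (a j * δ j) := fun a => e_sum _ _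
  simp_rw [h1]
  unfold Gam
  rw [integral_fintype_prod_eq_prod (fun j x => e (x * δ j))]
  simp_rw [ga_one]
  rw [← Complex.ofReal_prod, ← Real.exp_sum]
  congr 2
  rw [Finset.sum_neg_distrib, ← Finset.mul_sum]

private instance ga_prob (p : ℕ) : IsProbabilityMeasure (Gam p) := by
  unfold Gam
  infer_instance

theorem gauss_avg (p : ℕ) {ι : Type*} (s : Finset ι) (c : ι → ℂ) (hc : ∀ i ∈ s, ‖c i‖ ≤ 1) (lam : ι → Fin p → ℝ) :
    ∫⁻ a, ENNReal.ofReal (‖∑ i ∈ s, c i * e (∑ j, a j * lam i j)‖ ^ 2) ∂Gam p ≤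
      ENNReal.ofReal (∑ i ∈ s, ∑ i' ∈ s, Real.exp (-(Real.pi * ∑ j, (lam i j - lam i' j) ^ 2))) := by
  have hcont : ∀ δ : Fin p → ℝ, Continuous fun a : Fin p → ℝ => e (∑ j, a j * δ j) := fun δ =>
    continuous_e.comp (by fun_prop)
  have hint : ∀ δ : Fin p → ℝ, Integrable (fun a : Fin p → ℝ => e (∑ j, a j * δ j)) (Gam p) := by
    intro δ
    refine Integrable.mono' (integrable_const (1 : ℝ)) (hcont δ).aestronglyMeasurable
      (Filter.Eventually.of_forall fun a => ?_)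
    rw [norm_e]
  have hF : Continuous fun a : Fin p → ℝ => ‖∑ i ∈ s, c i * e (∑ j, a j * lam i j)‖ ^ 2 := by
    refine Continuous.pow (Continuous.norm ?_) 2
    exact continuous_finsetSum _ fun i _ => continuous_const.mul (hcont _)
  have hFb : ∀ a : Fin p → ℝ, ‖∑ i ∈ s, c i * e (∑ j, a j * lam i j)‖ ≤ s.card := by
    intro a
    refine (norm_sum_le _ _).trans ?_
    have h1 : ∀ i ∈ s, ‖c i * e (∑ j, a j * lam i j)‖ ≤ 1 := by
      intro i hi
      rw [norm_mul, norm_e, mul_one]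
      exact hc i hi
    refine (Finset.sum_le_sum h1).trans ?_
    rw [Finset.sum_const, nsmul_eq_mul, mul_one]
  have hFi : Integrable (fun a : Fin p → ℝ => ‖∑ i ∈ s, c i * e (∑ j, a j * lam i j)‖ ^ 2)
      (Gam p) := by
    refine Integrable.mono' (integrable_const ((s.card : ℝ) ^ 2)) hF.aestronglyMeasurable
      (Filter.Eventually.of_forall fun a => ?_)
    rw [Real.norm_of_nonneg (by positivity)]
    exact pow_le_pow_left₀ (norm_nonneg _) (hFb a) 2
  rw [← ofReal_integral_eq_lintegral_ofReal hFi (Filter.Eventually.of_forall fun a => by positivity)]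
  refine ENNReal.ofReal_le_ofReal ?_
  -- expansion
  have hexp : ∀ a : Fin p → ℝ, ((‖∑ i ∈ s, c i * e (∑ j, a j * lam i j)‖ ^ 2 : ℝ) : ℂ) =
      ∑ i ∈ s, ∑ i' ∈ s, (c i * (starRingEnd ℂ) (c i')) *
        e (∑ j, a j * (lam i j - lam i' j)) := by
    intro a
    rw [← Complex.normSq_eq_norm_sq, ← Complex.mul_conj, map_sum, Finset.sum_mul_sum]
    refine Finset.sum_congr rfl fun i _ => Finset.sum_congr rfl fun i' _ => ?_
    rw [map_mul, ← e_neg]
    have h1 : ∑ j, a j * (lam i j - lam i' j) = ∑ j, a j * lam i j + -(∑ j, a j * lam i' j) := by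
      simp only [mul_sub, Finset.sum_sub_distrib]
      ring
    rw [h1, e_add]
    ring
  have hC : ((∫ a, ‖∑ i ∈ s, c i * e (∑ j, a j * lam i j)‖ ^ 2 ∂Gam p : ℝ) : ℂ) =
      ∑ i ∈ s, ∑ i' ∈ s, (c i * (starRingEnd ℂ) (c i')) *
        ((Real.exp (-(Real.pi * ∑ j, (lam i j - lam i' j) ^ 2)) : ℝ) : ℂ) := by
    rw [← integral_complex_ofReal]
    simp_rw [hexp]
    rw [integral_finsetSum _ fun i _ => integrable_finsetSum _ fun i' _ =>
      (hint (fun j => lam i j - lam i' j)).const_mul _]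
    refine Finset.sum_congr rfl fun i _ => ?_
    rw [integral_finsetSum _ fun i' _ => (hint (fun j => lam i j - lam i' j)).const_mul _]
    refine Finset.sum_congr rfl fun i' _ => ?_
    rw [integral_const_mul, ga_pi]
  have h0 : (∫ a, ‖∑ i ∈ s, c i * e (∑ j, a j * lam i j)‖ ^ 2 ∂Gam p : ℝ) =
      ‖((∫ a, ‖∑ i ∈ s, c i * e (∑ j, a j * lam i j)‖ ^ 2 ∂Gam p : ℝ) : ℂ)‖ := by
    rw [Complex.norm_real, Real.norm_of_nonneg]
    exact integral_nonneg fun a => by positivity
  rw [h0, hC]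
  refine (norm_sum_le _ _).trans (Finset.sum_le_sum fun i hi => (norm_sum_le _ _).trans
    (Finset.sum_le_sum fun i' hi' => ?_))
  rw [norm_mul, norm_mul, RCLike.norm_conj, Complex.norm_real,
    Real.norm_of_nonneg (Real.exp_pos _).le]
  have h1 : ‖c i‖ * ‖c i'‖ ≤ 1 := mul_le_one₀ (hc i hi) (norm_nonneg _) (hc i' hi')
  exact mul_le_of_le_one_left (Real.exp_pos _).le h1

end Pool.H38.OP
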