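import Pool.Agent.H38.OP.Defs

/-!
# Module LAYER: a Gaussian sum over points with a counting bound

Let `m_i = ⌊|t| d_i⌋₊`, so `m_i ≤ |t| d_i < m_i + 1` and `exp(-(π t^2 d_i^2)) ≤ exp(-(π m_i^2)) ≤ exp(-m_i)`
(`m^2 ≥ m` for a natural number, `π ≥ 1`). Group by `m_i` (`Finset.sum_fiberwise_of_maps_to` or `Finset.sum_comp`): the points with
`m_i = m` have `d_i ≤ L = (m+1)/|t|`, so there are at most `C (1 + (m+1)/(|t| R))^q ≤ C (m+2)^q (1 + 1/(|t| R))^q`
(`1 + (m+1) x ≤ (m+2)(1+x)` for `x ≥ 0`). So the sum is at most `C (1 + 1/(|t| R))^q ∑_(m < M) (m+2)^q exp(-m)`, and the series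
`∑_m (m+2)^q exp(-m)` converges (`Real.summable_pow_mul_exp_neg_nat_mul` after an index shift: `(m+2)^q exp(-m) = e^2 (m+2)^q exp(-(m+2))`;
its partial sums are at most its sum, `Summable.sum_le_tsum`). `C1 = 1 + ∑' m, (m+2)^q exp(-m)`.
-/

set_option autoImplicit false

namespace Pool.H38.OP

open MeasureTheory Set Pool.H19.Wa Pool.H48.Wt Pool.H19.Fc

private theorem lay_sum (q : ℕ) : Summable fun m : ℕ => ((m : ℝ) + 2) ^ q * Real.exp (-(m : ℝ)) := by
  have h1 := Real.summable_pow_mul_exp_neg_nat_mul q one_pos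
  have h2 := (summable_nat_add_iff 2).2 h1
  have h3 := h2.mul_left (Real.exp 2)
  refine h3.congr fun m => ?_
  push_cast
  have h4 : Real.exp (-(m : ℝ)) = Real.exp 2 * Real.exp (-1 * ((m : ℝ) + 2)) := by
    rw [← Real.exp_add]
    congr 1
    ring
  rw [h4]
  ring

theorem layer {ι : Type} (q : ℕ) : ∃ C1 : ℝ, 0 < C1 ∧ ∀ (s : Finset ι) (d : ι → ℝ) (C R t : ℝ),
    0 ≤ C → 0 < R → t ≠ 0 → (∀ i ∈ s, 0 ≤ d i) →
    (∀ L : ℝ, 0 ≤ L → ∀ S : Finset ι, S ⊆ s → (∀ i ∈ S, d i ≤ L) → (S.card : ℝ) ≤ C * (1 + L / R) ^ q) →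
    ∑ i ∈ s, Real.exp (-(Real.pi * t ^ 2 * d i ^ 2)) ≤ C1 * C * (1 + 1 / (|t| * R)) ^ q := by
  classical
  have hsum := lay_sum q
  refine ⟨1 + ∑' m : ℕ, ((m : ℝ) + 2) ^ q * Real.exp (-(m : ℝ)), ?_, ?_⟩
  · have : 0 ≤ ∑' m : ℕ, ((m : ℝ) + 2) ^ q * Real.exp (-(m : ℝ)) :=
      tsum_nonneg fun m => by positivity
    linarith
  intro s d C R t hC hR ht hd hcount
  have ht0 : 0 < |t| := abs_pos.2 ht
  set m : ι → ℕ := fun i => ⌊|t| * d i⌋₊ with hm
  set X : ℝ := 1 / (|t| * R) with hX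
  have hX0 : 0 ≤ X := by positivity
  set M : ℕ := s.sup m + 1 with hM
  have hmap : ∀ i ∈ s, m i ∈ Finset.range M := by
    intro i hi
    rw [Finset.mem_range, hM]
    exact Nat.lt_succ_of_le (Finset.le_sup hi)
  rw [← Finset.sum_fiberwise_of_maps_to hmap]
  have hterm : ∀ i ∈ s, Real.exp (-(Real.pi * t ^ 2 * d i ^ 2)) ≤ Real.exp (-(m i : ℝ)) := by
    intro i hi
    refine Real.exp_le_exp.2 (neg_le_neg ?_)
    have h1 : (m i : ℝ) ≤ |t| * d i := Nat.floor_le (mul_nonneg ht0.le (hd i hi))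
    have h2 : (m i : ℝ) ≤ (m i : ℝ) ^ 2 := by
      have h3 : m i ≤ m i ^ 2 := Nat.le_self_pow two_ne_zero _
      exact_mod_cast h3
    have h3 : (m i : ℝ) ^ 2 ≤ t ^ 2 * d i ^ 2 := by
      have h4 := pow_le_pow_left₀ (Nat.cast_nonneg _) h1 2
      rw [mul_pow, sq_abs] at h4
      exact h4
    have h4 : t ^ 2 * d i ^ 2 ≤ Real.pi * t ^ 2 * d i ^ 2 := by
      have h5 : (1 : ℝ) ≤ Real.pi := by linarith [Real.pi_gt_three]
      have h6 : 0 ≤ t ^ 2 * d i ^ 2 := by positivity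
      nlinarith
    linarith
  have hfib : ∀ j ∈ Finset.range M,
      ∑ i ∈ s.filter (fun i => m i = j), Real.exp (-(Real.pi * t ^ 2 * d i ^ 2)) ≤
        (C * (1 + X) ^ q) * (((j : ℝ) + 2) ^ q * Real.exp (-(j : ℝ))) := by
    intro j _
    have h1 : ∀ i ∈ s.filter (fun i => m i = j),
        Real.exp (-(Real.pi * t ^ 2 * d i ^ 2)) ≤ Real.exp (-(j : ℝ)) := by
      intro i hi
      rw [Finset.mem_filter] at hi
      have h2 := hterm i hi.1
      rw [hi.2] at h2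
      exact h2
    refine (Finset.sum_le_sum h1).trans ?_
    rw [Finset.sum_const, nsmul_eq_mul]
    have h2 := hcount (((j : ℝ) + 1) / |t|) (by positivity) (s.filter fun i => m i = j)
      (Finset.filter_subset _ _) (by
        intro i hi
        rw [Finset.mem_filter] at hi
        rw [le_div_iff₀ ht0, mul_comm]
        have h3 := Nat.lt_floor_add_one (|t| * d i)
        have h4 : ((⌊|t| * d i⌋₊ : ℕ) : ℝ) = j := by
          have h5 : m i = j := hi.2
          exact_mod_cast h5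
        rw [h4] at h3
        exact h3.le)
    have h3 : C * (1 + ((j : ℝ) + 1) / |t| / R) ^ q ≤ C * ((1 + X) ^ q * ((j : ℝ) + 2) ^ q) := by
      refine mul_le_mul_of_nonneg_left ?_ hC
      rw [← mul_pow]
      refine pow_le_pow_left₀ (by positivity) ?_ q
      have h4 : ((j : ℝ) + 1) / |t| / R = ((j : ℝ) + 1) * X := by
        rw [hX]
        field_simp
      rw [h4]
      have h5 : (0 : ℝ) ≤ j := Nat.cast_nonneg j
      nlinarith
    calc ((s.filter fun i => m i = j).card : ℝ) * Real.exp (-(j : ℝ)) ≤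
          (C * ((1 + X) ^ q * ((j : ℝ) + 2) ^ q)) * Real.exp (-(j : ℝ)) :=
          mul_le_mul_of_nonneg_right (h2.trans h3) (Real.exp_pos _).le
      _ = _ := by ring
  refine (Finset.sum_le_sum hfib).trans ?_
  rw [← Finset.mul_sum]
  have h1 : ∑ j ∈ Finset.range M, ((j : ℝ) + 2) ^ q * Real.exp (-(j : ℝ)) ≤
      1 + ∑' m : ℕ, ((m : ℝ) + 2) ^ q * Real.exp (-(m : ℝ)) := by
    have h2 := hsum.sum_le_tsum (Finset.range M) fun m _ => by positivity
    linarith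
  have h2 : 0 ≤ C * (1 + X) ^ q := by positivity
  refine (mul_le_mul_of_nonneg_left h1 h2).trans (le_of_eq ?_)
  ring

end Pool.H38.OP
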