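import Pool.Agent.H38.OP.Block
import Pool.Agent.H38.OP.Layer
import Pool.Agent.H38.OP.GaussAvg

/-!
# Module AVGF2: the averaged mean square of the exponential sum

`Fs (range N ×ˢ Yb) (β x.1 + ga l a x.2) t = Bh N β t * ∑_(y ∈ Yb) e (t * ga l a y)` (`Finset.sum_product`, `e_add`, `Finset.sum_mul_sum`), and
`t * ga l a y = t * ps l y p + ∑ c, a c * (t * ps l y c)` (`ga_eq`), so with `c y = e (t * ps l y p)` (`norm_e`) and
`lam y c = t * ps l y c` the square of the norm is `‖Bh‖^2 ‖∑_y c y * e (∑ c, a c * lam y c)‖^2`. By `gauss_avg` the mean is at most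
`‖Bh‖^2 ∑_(y') ∑_y exp(-(π t^2 ∑_c (ps l y c - ps l y' c)^2))` (symmetric, so order the sums as convenient).
For fixed `y'` let `d y = Finset.univ.sup'`-type maximum of `|ps l y c - ps l y' c|` over `c : Fin p`; simplest:
`d y = Real.sqrt (∑ c, (ps l y c - ps l y' c)^2)`, so `d y ^ 2 = ∑ c (..)^2` and `d y ≤ L` implies `|ps l y c - ps l y' c| ≤ L` for every `c`
(`Finset.single_le_sum`, `Real.abs_le_sqrt`). `block_count` with `T c = ps l y' c` gives the counting hypothesis of `layer`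
(`q = p * n`) with the constant `C` of `block_count`. So the inner sum is at most `C1 C (1 + 1/(|t| R))^(pn)`; sum over `y' ∈ Yb`.
-/

set_option autoImplicit false

namespace Pool.H38.OP

open MeasureTheory Set Pool.H19.Wa Pool.H48.Wt Pool.H19.Fc

private theorem af_fac (l p n : ℕ) (P : Fin n → ℕ) (N : ℕ) (β : ℕ → ℝ) (t : ℝ) (a : Fin p → ℝ) :
    Fs (Finset.range N ×ˢ Yb p n P) (fun x => β x.1 + ga l a x.2) t =
      Bh N β t * ∑ y ∈ Yb p n P, e (t * ps l y p) * e (∑ j, a j * (t * ps l y (j : ℕ))) := by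
  unfold Fs Bh
  rw [Finset.sum_product, Finset.sum_mul_sum]
  refine Finset.sum_congr rfl fun x _ => Finset.sum_congr rfl fun y _ => ?_
  rw [← e_add, ← e_add]
  congr 1
  simp only [ga_eq]
  have h1 : ∑ j : Fin p, a j * (t * ps l y (j : ℕ)) = t * ∑ j : Fin p, a j * ps l y (j : ℕ) := by
    rw [Finset.mul_sum]
    exact Finset.sum_congr rfl fun j _ => by ring
  rw [h1]
  ring

theorem avg_F2 (l p n : ℕ) (K : ℝ) (hK : 1 ≤ K) : ∃ C : ℝ, 0 < C ∧
    ∀ (P : Fin n → ℕ) (R : ℝ) (N : ℕ) (β : ℕ → ℝ) (t : ℝ), Lev l p n K R P → 0 < R → t ≠ 0 →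
      ∫⁻ a, ENNReal.ofReal (‖Fs (Finset.range N ×ˢ Yb p n P) (fun x => β x.1 + ga l a x.2) t‖ ^ 2) ∂Gam p ≤
        ENNReal.ofReal (C * ‖Bh N β t‖ ^ 2 * ((Yb p n P).card : ℝ) * (1 + 1 / (|t| * R)) ^ (p * n)) := by
  obtain ⟨Cb, hCb, hblock⟩ := block_count l p n K hK
  obtain ⟨C1, hC1, hlayer⟩ := layer (ι := Fin n → Fin p → ℕ) (p * n)
  refine ⟨C1 * Cb, by positivity, ?_⟩
  intro P R N β t hlev hR ht
  have ht0 : 0 < |t| := abs_pos.2 ht
  obtain ⟨Xp, hXp⟩ : ∃ Xp, Xp = (1 + 1 / (|t| * R)) ^ (p * n) := ⟨_, rfl⟩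
  rw [← hXp]
  have hXp0 : 0 ≤ Xp := by rw [hXp]; positivity
  have h1 : ∀ a : Fin p → ℝ,
      ENNReal.ofReal (‖Fs (Finset.range N ×ˢ Yb p n P) (fun x => β x.1 + ga l a x.2) t‖ ^ 2) =
        ENNReal.ofReal (‖Bh N β t‖ ^ 2) * ENNReal.ofReal (‖∑ y ∈ Yb p n P,
          e (t * ps l y p) * e (∑ j, a j * (t * ps l y (j : ℕ)))‖ ^ 2) := by
    intro a
    rw [af_fac, norm_mul, mul_pow, ENNReal.ofReal_mul (by positivity)]
  simp_rw [h1]
  rw [lintegral_const_mul' _ _ ENNReal.ofReal_ne_top]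
  have h2 := gauss_avg p (Yb p n P) (fun y => e (t * ps l y p)) (fun y _ => (norm_e _).le)
    (fun y j => t * ps l y (j : ℕ))
  have h3 : ∀ i ∈ Yb p n P, ∑ i' ∈ Yb p n P, Real.exp (-(Real.pi * ∑ j : Fin p,
      (t * ps l i (j : ℕ) - t * ps l i' (j : ℕ)) ^ 2)) ≤ C1 * Cb * Xp := by
    intro i _
    have h4 : ∀ i' : Fin n → Fin p → ℕ, Real.exp (-(Real.pi * ∑ j : Fin p,
        (t * ps l i (j : ℕ) - t * ps l i' (j : ℕ)) ^ 2)) = Real.exp (-(Real.pi * t ^ 2 *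
          Real.sqrt (∑ c : Fin p, (ps l i' (c : ℕ) - ps l i (c : ℕ)) ^ 2) ^ 2)) := by
      intro i'
      rw [Real.sq_sqrt (Finset.sum_nonneg fun c _ => sq_nonneg _), mul_assoc]
      have h5 : ∑ j : Fin p, (t * ps l i (j : ℕ) - t * ps l i' (j : ℕ)) ^ 2 =
          t ^ 2 * ∑ c : Fin p, (ps l i' (c : ℕ) - ps l i (c : ℕ)) ^ 2 := by
        rw [Finset.mul_sum]
        exact Finset.sum_congr rfl fun c _ => by ring
      rw [h5]
    simp_rw [h4]
    rw [hXp]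
    refine hlayer (Yb p n P)
      (fun i' => Real.sqrt (∑ c : Fin p, (ps l i' (c : ℕ) - ps l i (c : ℕ)) ^ 2)) Cb R t
      (by linarith) hR ht (fun _ _ => Real.sqrt_nonneg _) ?_
    intro L hL S hS hSL
    refine hblock P R L (fun c => ps l i (c : ℕ)) S hlev hR hL ?_
    intro y hy
    refine ⟨hS hy, fun c => ?_⟩
    refine le_trans (Real.abs_le_sqrt ?_) (hSL y hy)
    exact Finset.single_le_sum (f := fun c : Fin p => (ps l y (c : ℕ) - ps l i (c : ℕ)) ^ 2)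
      (fun c _ => sq_nonneg _) (Finset.mem_univ c)
  have h5 := Finset.sum_le_sum h3
  rw [Finset.sum_const, nsmul_eq_mul] at h5
  calc ENNReal.ofReal (‖Bh N β t‖ ^ 2) * ∫⁻ a, ENNReal.ofReal (‖∑ y ∈ Yb p n P,
        e (t * ps l y p) * e (∑ j, a j * (t * ps l y (j : ℕ)))‖ ^ 2) ∂Gam p ≤
        ENNReal.ofReal (‖Bh N β t‖ ^ 2) *
          ENNReal.ofReal (((Yb p n P).card : ℝ) * (C1 * Cb * Xp)) :=
        mul_le_mul' le_rfl (h2.trans (ENNReal.ofReal_le_ofReal h5))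
    _ = ENNReal.ofReal (C1 * Cb * ‖Bh N β t‖ ^ 2 * ((Yb p n P).card : ℝ) * Xp) := by
        rw [← ENNReal.ofReal_mul (by positivity)]
        congr 1
        ring

end Pool.H38.OP
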