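import Pool.Agent.H19.Fc.Planch
import Pool.Agent.H19.Fc.RhoBd
import Pool.Agent.H38.OP.AvgF2

/-!
# Module AVGH2: the averaged mean square of H

Same proof as `avg_H` in `Pool/Agent/H19/Fc/AvgH.lean` (copy it) with `avg_F2` in place of `avg_F`:
for every `a` apply `planch` (`s = range N ×ˢ Yb`, `v x = β x.1 + ga l a x.2`, `q = p * n`, `b0 = 1/(A D)^2`), Tonelli
(`(a, t) ↦ ofReal (rho t ^2 * ‖Fs .. t‖^2)` is continuous: `ga l a y` is continuous in `a`), for `t ≠ 0` `avg_F2`, and `rho_bd (p * n) A c0` with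
the constant family `D i = R` (`c0 * D ≤ R`): `rho^2 * ∏_(i : Fin (pn)) (3 + 4/(|t| R)) ≤ C0 exp(-(π t^2/b))`, where
`(1 + 1/(|t| R))^(pn) ≤ ∏ (3 + 4/(|t| R))` (`Finset.prod_const`, `Finset.card_univ`, `Fintype.card_fin`). Then `exp(-(π t^2/b)) = √b w b t` and `L2_le`:
`∫ w b t ‖Bh N β t‖^2 ≤ N (3 + 4/(√b D)) ≤ 7 N`. `C = 7 C0 C(avg_F2)`.
-/

set_option autoImplicit false

namespace Pool.H38.OP

open MeasureTheory Set Pool.H19.Wa Pool.H48.Wt Pool.H19.Fc

theorem avg_H2 (l p n : ℕ) (K A c0 : ℝ) (hK : 1 ≤ K) (hA : 1 ≤ A) (hc0 : 0 < c0) : ∃ C : ℝ, 0 < C ∧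
    ∀ (P : Fin n → ℕ) (R : ℝ) (N : ℕ) (β : ℕ → ℝ) (D b X : ℝ), Lev l p n K R P → 0 < D → Cells N β D →
      c0 * D ≤ R → 0 < b → 0 < X → 1 ≤ Real.sqrt b * D →
      ∫⁻ a, (∫⁻ τ : ℝ, ENNReal.ofReal (Hs (p * n) b (1 / (A * D) ^ 2) (Finset.range N ×ˢ Yb p n P)
          (fun x => β x.1 + ga l a x.2) τ ^ 2 * Real.exp (-(Real.pi * τ ^ 2 / X ^ 2)))) ∂Gam p ≤
        ENNReal.ofReal (C * Real.sqrt b * (N : ℝ) * ((Yb p n P).card : ℝ)) := by
  obtain ⟨C2, hC2, hav⟩ := avg_F2 l p n K hK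
  obtain ⟨C0, hC0, hρ⟩ := rho_bd (p * n) A c0 hA hc0
  refine ⟨7 * C0 * C2, by positivity, ?_⟩
  intro P R N β D b X hlev hD hβ hDR hb hX hbD
  have hR : 0 < R := lt_of_lt_of_le (by positivity) hDR
  have hsf : SigmaFinite gam := by
    unfold gam
    exact SigmaFinite.withDensity_ofReal (fun x => Real.exp (-(Real.pi * x ^ 2)))
  have hsG : SFinite (Gam p) := by
    unfold Gam
    infer_instance
  have hA0 : 0 < A := by linarith
  have hb0 : 0 < 1 / (A * D) ^ 2 := by positivity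
  set b0 : ℝ := 1 / (A * D) ^ 2 with hb0def
  set Y : Finset (Fin n → Fin p → ℕ) := Yb p n P with hY
  -- measurability
  have hcont : Continuous (fun z : (Fin p → ℝ) × ℝ =>
      rho (p * n) b b0 z.2 ^ 2 * ‖Fs (Finset.range N ×ˢ Y) (fun x => β x.1 + ga l z.1 x.2) z.2‖ ^ 2) := by
    refine (((continuous_rho (p * n) b b0).comp continuous_snd).pow 2).mul (Continuous.pow ?_ 2)
    refine Continuous.norm ?_
    unfold Fs
    refine continuous_finsetSum _ fun x _ => ?_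
    refine continuous_e.comp (continuous_snd.mul ?_)
    simp only [ga_eq]
    fun_prop
  have hmeas : AEMeasurable (Function.uncurry fun (a : Fin p → ℝ) (t : ℝ) =>
      ENNReal.ofReal (rho (p * n) b b0 t ^ 2 * ‖Fs (Finset.range N ×ˢ Y) (fun x => β x.1 + ga l a x.2) t‖ ^ 2))
      ((Gam p).prod volume) :=
    (ENNReal.measurable_ofReal.comp hcont.measurable).aemeasurable
  set PN : ℝ := (Y.card : ℝ) with hPN
  have hPN0 : 0 ≤ PN := Nat.cast_nonneg _
  have hint := (integrable_w_Bh N β hb).const_mul (C0 * C2 * PN * Real.sqrt b)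
  calc ∫⁻ a, (∫⁻ τ : ℝ, ENNReal.ofReal (Hs (p * n) b b0 (Finset.range N ×ˢ Y)
          (fun x => β x.1 + ga l a x.2) τ ^ 2 * Real.exp (-(Real.pi * τ ^ 2 / X ^ 2)))) ∂Gam p
      ≤ ∫⁻ a, (∫⁻ t : ℝ, ENNReal.ofReal (rho (p * n) b b0 t ^ 2 *
          ‖Fs (Finset.range N ×ˢ Y) (fun x => β x.1 + ga l a x.2) t‖ ^ 2)) ∂Gam p :=
        lintegral_mono fun a => planch (Finset.range N ×ˢ Y) (fun x => β x.1 + ga l a x.2) (p * n) hb hb0 hX
    _ = ∫⁻ t : ℝ, (∫⁻ a, ENNReal.ofReal (rho (p * n) b b0 t ^ 2 *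
          ‖Fs (Finset.range N ×ˢ Y) (fun x => β x.1 + ga l a x.2) t‖ ^ 2) ∂Gam p) := lintegral_lintegral_swap hmeas
    _ ≤ ∫⁻ t : ℝ, ENNReal.ofReal ((C0 * C2 * PN * Real.sqrt b) *
          (w b t * ‖Bh N β t‖ ^ 2)) := by
        refine lintegral_mono_ae ?_
        have hne : ∀ᵐ t : ℝ, t ≠ 0 := by
          rw [ae_iff]
          simp
        filter_upwards [hne] with t ht
        have e1 : ∀ a : Fin p → ℝ, ENNReal.ofReal (rho (p * n) b b0 t ^ 2 *
            ‖Fs (Finset.range N ×ˢ Y) (fun x => β x.1 + ga l a x.2) t‖ ^ 2) = ENNReal.ofReal (rho (p * n) b b0 t ^ 2) *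
            ENNReal.ofReal (‖Fs (Finset.range N ×ˢ Y) (fun x => β x.1 + ga l a x.2) t‖ ^ 2) := fun a =>
          ENNReal.ofReal_mul (by positivity)
        rw [lintegral_congr e1, lintegral_const_mul' _ _ ENNReal.ofReal_ne_top]
        refine (mul_le_mul_right (hav P R N β t hlev hR ht) _).trans ?_
        rw [← ENNReal.ofReal_mul (by positivity)]
        refine ENNReal.ofReal_le_ofReal ?_
        have h1 := hρ b D (fun _ => R) hb hD (fun _ => hDR) t ht
        rw [← hb0def, Finset.prod_const, Finset.card_univ, Fintype.card_fin] at h1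
        have ht0 : 0 < |t| := abs_pos.mpr ht
        have h4 : (1 + 1 / (|t| * R)) ^ (p * n) ≤ (3 + 4 / (|t| * R)) ^ (p * n) := by
          apply pow_le_pow_left₀ (by positivity)
          have h5 : 0 < |t| * R := by positivity
          have h6 : 1 / (|t| * R) ≤ 4 / (|t| * R) := by
            apply div_le_div_of_nonneg_right _ h5.le
            norm_num
          linarith
        have h7 : 0 ≤ rho (p * n) b b0 t ^ 2 := by positivity
        have h8 := (mul_le_mul_of_nonneg_left h4 h7).trans h1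
        have h2 : rho (p * n) b b0 t ^ 2 * (C2 * ‖Bh N β t‖ ^ 2 * PN * (1 + 1 / (|t| * R)) ^ (p * n)) =
            (rho (p * n) b b0 t ^ 2 * (1 + 1 / (|t| * R)) ^ (p * n)) *
              (C2 * PN * ‖Bh N β t‖ ^ 2) := by ring
        rw [h2]
        refine (mul_le_mul_of_nonneg_right h8 (by positivity)).trans (le_of_eq ?_)
        have h3 : Real.sqrt b ≠ 0 := (Real.sqrt_pos.mpr hb).ne'
        unfold w
        field_simp
    _ = ENNReal.ofReal (∫ t : ℝ, (C0 * C2 * PN * Real.sqrt b) *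
          (w b t * ‖Bh N β t‖ ^ 2)) := by
        rw [ofReal_integral_eq_lintegral_ofReal hint]
        refine Filter.Eventually.of_forall fun t => ?_
        have := w_nonneg b t
        show 0 ≤ (C0 * C2 * PN * Real.sqrt b) * (w b t * ‖Bh N β t‖ ^ 2)
        positivity
    _ ≤ ENNReal.ofReal (7 * C0 * C2 * Real.sqrt b * (N : ℝ) * PN) := by
        refine ENNReal.ofReal_le_ofReal ?_
        rw [integral_const_mul]
        have h1 := L2_le N β D hD hβ hb
        have h2 : (3 : ℝ) + 4 / (Real.sqrt b * D) ≤ 7 := by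
          have h3 : 4 / (Real.sqrt b * D) ≤ 4 := by
            rw [div_le_iff₀ (by linarith)]
            linarith
          linarith
        have h3 : (N : ℝ) * (3 + 4 / (Real.sqrt b * D)) ≤ (N : ℝ) * 7 :=
          mul_le_mul_of_nonneg_left h2 (Nat.cast_nonneg _)
        calc (C0 * C2 * PN * Real.sqrt b) * ∫ t : ℝ, w b t * ‖Bh N β t‖ ^ 2
            ≤ (C0 * C2 * PN * Real.sqrt b) * ((N : ℝ) * 7) :=
              mul_le_mul_of_nonneg_left (h1.trans h3) (by positivity)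
          _ = 7 * C0 * C2 * Real.sqrt b * (N : ℝ) * PN := by ring

end Pool.H38.OP
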