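import Pool.Agent.H38.OP.Defs

/-!
# Module GABD: the size of a block value

`|fa l p a x| ≤ x^k + ∑_c |a c| x^(l+1+c) ≤ (1 + p A) M^k` for `x ≤ M = (2p+2) Q`, `M ≥ 1` (`x^j ≤ M^j ≤ M^k` for `j ≤ k = l+1+p`; `mem_Ba`).
Sum over the `n p` pairs `(i, b)`. `M^k = (2p+2)^k Q^k`.
-/

set_option autoImplicit false

namespace Pool.H38.OP

open MeasureTheory Set Pool.H19.Wa Pool.H48.Wt Pool.H19.Fc

theorem ga_bd (l p n : ℕ) (A Q : ℝ) (hA : 0 ≤ A) (hQ : 1 ≤ Q) (a : Fin p → ℝ) (ha : a ∈ Ba p A)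
    (y : Fin n → Fin p → ℕ) (hy : ∀ i b, (y i b : ℝ) ≤ (2 * p + 2) * Q) :
    |ga l a y| ≤ (n * p * (1 + p * A) * (2 * p + 2) ^ (l + 1 + p)) * Q ^ (l + 1 + p) := by
  set M : ℝ := (2 * p + 2) * Q with hM
  have hp0 : (0 : ℝ) ≤ p := Nat.cast_nonneg p
  have hM1 : 1 ≤ M := by
    rw [hM]
    nlinarith
  have hfa : ∀ i b, |fa l p a (y i b)| ≤ (1 + p * A) * M ^ (l + 1 + p) := by
    intro i b
    have hx0 : (0 : ℝ) ≤ (y i b : ℝ) := Nat.cast_nonneg _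
    have hpow : ∀ j : ℕ, j ≤ l + 1 + p → (y i b : ℝ) ^ j ≤ M ^ (l + 1 + p) := fun j hj =>
      (pow_le_pow_left₀ hx0 (hy i b) j).trans (pow_le_pow_right₀ hM1 hj)
    unfold fa
    refine (abs_add_le _ _).trans ?_
    have h1 : |((y i b : ℕ) : ℝ) ^ (l + 1 + p)| ≤ M ^ (l + 1 + p) := by
      rw [abs_of_nonneg (pow_nonneg hx0 _)]
      exact hpow _ le_rfl
    have h2 : |∑ c : Fin p, a c * ((y i b : ℕ) : ℝ) ^ (l + 1 + (c : ℕ))| ≤ p * (A * M ^ (l + 1 + p)) := by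
      refine (Finset.abs_sum_le_sum_abs _ _).trans ?_
      refine (Finset.sum_le_sum (g := fun _ : Fin p => A * M ^ (l + 1 + p)) fun c _ => ?_).trans ?_
      · rw [abs_mul, abs_of_nonneg (pow_nonneg hx0 _)]
        exact mul_le_mul (mem_Ba.mp ha c) (hpow _ (by omega)) (pow_nonneg hx0 _) hA
      · rw [Finset.sum_const, Finset.card_univ, Fintype.card_fin, nsmul_eq_mul]
    calc _ ≤ M ^ (l + 1 + p) + p * (A * M ^ (l + 1 + p)) := add_le_add h1 h2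
      _ = (1 + p * A) * M ^ (l + 1 + p) := by ring
  unfold ga
  refine (Finset.abs_sum_le_sum_abs _ _).trans ?_
  refine (Finset.sum_le_sum (g := fun _ : Fin n => p * ((1 + p * A) * M ^ (l + 1 + p))) fun i _ => ?_).trans ?_
  · refine (Finset.abs_sum_le_sum_abs _ _).trans ?_
    refine (Finset.sum_le_sum (g := fun _ : Fin p => (1 + p * A) * M ^ (l + 1 + p)) fun b _ => hfa i b).trans ?_
    rw [Finset.sum_const, Finset.card_univ, Fintype.card_fin, nsmul_eq_mul]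
  · rw [Finset.sum_const, Finset.card_univ, Fintype.card_fin, nsmul_eq_mul, hM, mul_pow]
    exact le_of_eq (by ring)

end Pool.H38.OP
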