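import Pool.Agent.H38.OP.Defs

/-!
# Module LEVELS: the levels at scale Q

`P i = ⌊Q^(ρ^i)⌋₊`, `ρ = rh l = l/(l+1) ∈ [0,1)`, `Q ≥ 1`. As `Q^(ρ^i) ≥ 1`: `1 ≤ P i`, `Q^(ρ^i)/2 ≤ P i ≤ Q^(ρ^i) ≤ Q`
(`⌊z⌋ ≥ z/2` for `z ≥ 1`; `ρ^i ≤ 1`).
* `(P i)^l ≥ 2^(-l) Q^(l ρ^i) ≥ 2^(-l) Q^(l ρ^(n-1)) = 2^(-l) Q^((l+1) ρ^n)` for `i ≤ n-1` (`l = (l+1) ρ`).
* `i < j`, `c < p`: `(P j)^(l+1+c) ≤ Q^(ρ^j (l+1+c)) ≤ Q^(ρ^(i+1) (l+1+c)) ≤ Q^(ρ^i (l+c))` because `ρ (l+1+c) = l + l c/(l+1) ≤ l + c`; and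
`Q^(ρ^i (l+c)) ≤ (2 P i)^(l+c) ≤ 2^(l+p) (P i)^(l+c)`. `K = 2^(l+p)`.
* `card_Yb`: `|Yb| = ∏ (P i)^p ≥ 2^(-pn) Q^(p ∑_(i<n) ρ^i)` and `∑_(i<n) ρ^i = (1-ρ^n)/(1-ρ) = (l+1)(1-ρ^n)` (`geom_sum_eq`, `1 - ρ = 1/(l+1)`).
`c = 2^(-(l+pn))`. (`l = 0` is allowed: `ρ = 0`, `0^0 = 1`.) All real powers with natural exponents: `Real.rpow_natCast`, `Real.rpow_mul`.
-/

set_option autoImplicit false

namespace Pool.H38.OP

open MeasureTheory Set Pool.H19.Wa Pool.H48.Wt Pool.H19.Fc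

theorem levels (l p n : ℕ) : ∃ c K : ℝ, 0 < c ∧ 1 ≤ K ∧ ∀ Q : ℝ, 1 ≤ Q → ∃ P : Fin n → ℕ,
    Lev l p n K (c * Q ^ (((l : ℝ) + 1) * rh l ^ n)) P ∧ (∀ i, (P i : ℝ) ≤ Q) ∧
    c * Q ^ (((l : ℝ) + 1) * p * (1 - rh l ^ n)) ≤ ((Yb p n P).card : ℝ) := by
  have hl0 : (0 : ℝ) ≤ l := Nat.cast_nonneg l
  have hl1 : (0 : ℝ) < (l : ℝ) + 1 := by linarith
  have hρ0 : 0 ≤ rh l := by
    unfold rh
    positivity
  have hρ1 : rh l < 1 := by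
    unfold rh
    rw [div_lt_one hl1]
    linarith
  have hρl : ((l : ℝ) + 1) * rh l = l := by
    unfold rh
    field_simp
  obtain ⟨ρ, hρ⟩ : ∃ ρ : ℝ, ρ = rh l := ⟨_, rfl⟩
  rw [← hρ] at hρ0 hρ1 hρl ⊢
  refine ⟨(1 / 2) ^ (l + p * n), 2 ^ (l + p), by positivity, one_le_pow₀ (by norm_num), fun Q hQ => ?_⟩
  have hQ0 : 0 < Q := by linarith
  obtain ⟨z, hz⟩ : ∃ z : ℕ → ℝ, z = fun i => Q ^ (ρ ^ i) := ⟨_, rfl⟩
  have hz1 : ∀ i, 1 ≤ z i := by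
    intro i
    rw [hz]
    exact Real.one_le_rpow hQ (pow_nonneg hρ0 i)
  have hzQ : ∀ i, z i ≤ Q := by
    intro i
    rw [hz]
    have := Real.rpow_le_rpow_of_exponent_le hQ (pow_le_one₀ (n := i) hρ0 hρ1.le)
    rwa [Real.rpow_one] at this
  have hP1 : ∀ i, 1 ≤ ⌊z i⌋₊ := fun i => (Nat.one_le_floor_iff _).2 (hz1 i)
  have hPz : ∀ i, (⌊z i⌋₊ : ℝ) ≤ z i := fun i => Nat.floor_le (by linarith [hz1 i])
  have hzP : ∀ i, z i ≤ 2 * (⌊z i⌋₊ : ℝ) := by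
    intro i
    have h1 := Nat.lt_floor_add_one (z i)
    have h2 : (1 : ℝ) ≤ (⌊z i⌋₊ : ℝ) := by exact_mod_cast hP1 i
    linarith
  have hzp : ∀ i k : ℕ, z i ^ k = Q ^ (ρ ^ i * k) := by
    intro i k
    rw [hz]
    simp only
    rw [Real.rpow_mul hQ0.le, Real.rpow_natCast]
  refine ⟨fun i => ⌊z i⌋₊, ⟨fun i => hP1 i, fun i => ?_, fun i j hij c => ?_⟩,
    fun i => (hPz i).trans (hzQ i), ?_⟩
  · -- lower bound
    have h1 : (z i / 2) ^ l ≤ (⌊z i⌋₊ : ℝ) ^ l := by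
      apply pow_le_pow_left₀
      · linarith [hz1 i]
      · linarith [hzP i]
    refine le_trans ?_ h1
    rw [div_pow (z i), hzp, div_eq_mul_one_div (Q ^ (ρ ^ (i : ℕ) * (l : ℝ))), mul_comm]
    have h2 : ((l : ℝ) + 1) * ρ ^ n ≤ ρ ^ (i : ℕ) * l := by
      have hn : n = (n - 1) + 1 := by
        have := i.2
        omega
      have h3 : ((l : ℝ) + 1) * ρ ^ n = ρ ^ (n - 1) * l := by
        conv_lhs => rw [hn]
        rw [pow_succ, ← mul_assoc, mul_right_comm, hρl, mul_comm]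
      rw [h3]
      apply mul_le_mul_of_nonneg_right _ hl0
      exact pow_le_pow_of_le_one hρ0 hρ1.le (by
        have := i.2
        omega)
    have h4 : Q ^ (((l : ℝ) + 1) * ρ ^ n) ≤ Q ^ (ρ ^ (i : ℕ) * l) :=
      Real.rpow_le_rpow_of_exponent_le hQ h2
    have h5 : ((1 : ℝ) / 2) ^ (l + p * n) ≤ 1 / 2 ^ l := by
      rw [← one_div_pow]
      exact pow_le_pow_of_le_one (by norm_num) (by norm_num) (by omega)
    exact mul_le_mul h4 h5 (by positivity) (by positivity)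
  · -- consecutive levels
    have hij' : (i : ℕ) + 1 ≤ j := hij
    calc (⌊z j⌋₊ : ℝ) ^ (l + 1 + (c : ℕ)) ≤ z j ^ (l + 1 + (c : ℕ)) :=
          pow_le_pow_left₀ (Nat.cast_nonneg _) (hPz j) _
      _ = Q ^ (ρ ^ (j : ℕ) * ((l + 1 + (c : ℕ) : ℕ) : ℝ)) := hzp _ _
      _ ≤ Q ^ (ρ ^ (i : ℕ) * ((l + (c : ℕ) : ℕ) : ℝ)) := by
          apply Real.rpow_le_rpow_of_exponent_le hQ
          have h1 : ρ ^ (j : ℕ) ≤ ρ ^ ((i : ℕ) + 1) := pow_le_pow_of_le_one hρ0 hρ1.le hij'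
          have h2 : ρ ^ (j : ℕ) * ((l + 1 + (c : ℕ) : ℕ) : ℝ) ≤
              ρ ^ ((i : ℕ) + 1) * ((l + 1 + (c : ℕ) : ℕ) : ℝ) :=
            mul_le_mul_of_nonneg_right h1 (Nat.cast_nonneg _)
          refine h2.trans ?_
          rw [pow_succ, mul_assoc]
          apply mul_le_mul_of_nonneg_left _ (pow_nonneg hρ0 _)
          push_cast
          have hc0 : (0 : ℝ) ≤ ((c : ℕ) : ℝ) := Nat.cast_nonneg _
          nlinarith
      _ = z i ^ (l + (c : ℕ)) := (hzp _ _).symm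
      _ ≤ (2 * (⌊z i⌋₊ : ℝ)) ^ (l + (c : ℕ)) :=
          pow_le_pow_left₀ (by linarith [hz1 i]) (hzP i) _
      _ = 2 ^ (l + (c : ℕ)) * (⌊z i⌋₊ : ℝ) ^ (l + (c : ℕ)) := mul_pow _ _ _
      _ ≤ 2 ^ (l + p) * (⌊z i⌋₊ : ℝ) ^ (l + (c : ℕ)) := by
          apply mul_le_mul_of_nonneg_right _ (by positivity)
          apply pow_le_pow_right₀ (by norm_num)
          have := c.2
          omega
  · -- number of blocks
    rw [card_Yb]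
    push_cast
    have h1 : ∏ i : Fin n, (z i / 2) ^ p ≤ ∏ i : Fin n, (⌊z i⌋₊ : ℝ) ^ p := by
      apply Finset.prod_le_prod
      · intro i _
        have := hz1 i
        positivity
      · intro i _
        apply pow_le_pow_left₀
        · linarith [hz1 i]
        · linarith [hzP i]
    refine le_trans ?_ h1
    have h2 : ∀ i : Fin n, (z i / 2) ^ p = (1 / 2) ^ p * Q ^ (ρ ^ (i : ℕ) * p) := by
      intro i
      rw [div_pow, hzp, one_div_pow]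
      ring
    rw [Finset.prod_congr rfl fun i _ => h2 i, Finset.prod_mul_distrib, Finset.prod_const,
      Finset.card_univ, Fintype.card_fin, ← Real.rpow_sum_of_pos hQ0, ← pow_mul]
    have h3 : ∑ i : Fin n, ρ ^ (i : ℕ) * (p : ℝ) = ((l : ℝ) + 1) * p * (1 - ρ ^ n) := by
      rw [← Finset.sum_mul, Fin.sum_univ_eq_sum_range (fun i => ρ ^ i) n,
        geom_sum_eq hρ1.ne n]
      have h4 : ρ - 1 ≠ 0 := by linarith
      have h5 : ((l : ℝ) + 1) * (1 - ρ) = 1 := by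
        rw [mul_sub, hρl]
        ring
      rw [div_mul_eq_mul_div, div_eq_iff h4]
      linear_combination (1 - ρ ^ n) * p * h5
    rw [h3]
    apply mul_le_mul_of_nonneg_right _ (by positivity)
    exact pow_le_pow_of_le_one (by norm_num) (by norm_num) (by omega)

end Pool.H38.OP
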