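import Pool.Agent.H38.OP.Defs
import Pool.Agent.H19.Fc.Pts

/-!
# Module PTSQ: well spaced sums of u powers at a real scale Q

Compare `pts_one` in `Pool/Agent/H19/Fc/Pts.lean`. `θ = th k u ∈ (0,1)` (`theta_bd` there). `greedy k u` gives `K1`;
`points (Pw k u) 1 K1 θ θ (2κ)` (its `k := 1`, `x := δ := θ`, `κ0 := 2κ`) gives `K' ≥ 1`. Let `Z = ⌈Q^k⌉₊`, so `Q^k ≤ Z ≤ 2 Q^k` (`Q ≥ 1`), and apply it with
its `P := Z`: `D = K' Z^θ`, so `Q^(kθ) ≤ D ≤ 2 K' Q^(kθ)` (`Real.rpow_le_rpow`, `2^θ ≤ 2`). `N = ⌊2 κ Q^k/D⌋₊`: for `m < N`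
`(m+1) D ≤ N D ≤ 2 κ Q^k ≤ 2 κ Z`, so the cell property and `β m ∈ Pw k u` hold; `N D > 2 κ Q^k - D ≥ κ Q^k` as soon as
`2 K' Q^(kθ) ≤ κ Q^k`, true for large `Q` because `θ < 1`; `N > 0` follows.
-/

set_option autoImplicit false

namespace Pool.H38.OP

open MeasureTheory Set Pool.H19.Wa Pool.H48.Wt Pool.H19.Fc

theorem pts_Q (k u : ℕ) (hk : 2 ≤ k) (hu : 1 ≤ u) (κ : ℝ) (hκ : 0 < κ) :
    ∃ K Q0 : ℝ, 1 ≤ K ∧ 1 ≤ Q0 ∧ ∀ Q : ℝ, Q0 ≤ Q → ∃ (N : ℕ) (β : ℕ → ℝ) (D : ℝ),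
      Cells N β D ∧ (∀ m < N, β m ∈ Pw k u) ∧ 0 < N ∧ Q ^ ((k : ℝ) * th k u) ≤ D ∧
      D ≤ K * Q ^ ((k : ℝ) * th k u) ∧ κ * Q ^ k ≤ N * D ∧ N * D ≤ 2 * κ * Q ^ k := by
  obtain ⟨hθ0, hθ1⟩ := theta_bd k u hk hu
  obtain ⟨θ, hθ⟩ : ∃ θ, θ = th k u := ⟨_, rfl⟩
  have hθ' : θ = (1 - 1 / (k : ℝ)) ^ u := hθ
  rw [← hθ] at *
  rw [← hθ'] at hθ0 hθ1
  obtain ⟨K1, hK1, hg⟩ := greedy k u (by omega)
  rw [← hθ'] at hg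
  obtain ⟨K', hK', hp⟩ := points (Pw k u) 1 K1 θ θ (2 * κ) hK1 hθ0.le (by push_cast; linarith)
    (by linarith) hg
  have hK0 : 0 < K' := by linarith
  have hk0 : (0 : ℝ) < k := by exact_mod_cast (by omega : 0 < k)
  have hpos : 0 < (k : ℝ) * (1 - θ) := mul_pos hk0 (by linarith)
  obtain ⟨Q1, hQ1⟩ := Filter.eventually_atTop.1
    ((tendsto_rpow_atTop hpos).eventually_ge_atTop (2 * K' / κ))
  refine ⟨2 * K', max 1 Q1, by linarith, le_max_left _ _, fun Q hQ => ?_⟩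
  have hQ1' : 1 ≤ Q := (le_max_left _ _).trans hQ
  have hQ0 : 0 < Q := by linarith
  have hbig : 2 * K' * Q ^ ((k : ℝ) * θ) ≤ κ * Q ^ k := by
    have h1 := hQ1 Q ((le_max_right _ _).trans hQ)
    rw [div_le_iff₀ hκ] at h1
    have h2 : Q ^ ((k : ℝ) * (1 - θ)) * Q ^ ((k : ℝ) * θ) = Q ^ k := by
      rw [← Real.rpow_add hQ0, ← Real.rpow_natCast Q k]
      congr 1
      ring
    have h3 : 0 ≤ Q ^ ((k : ℝ) * θ) := Real.rpow_nonneg hQ0.le _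
    calc 2 * K' * Q ^ ((k : ℝ) * θ) ≤ Q ^ ((k : ℝ) * (1 - θ)) * κ * Q ^ ((k : ℝ) * θ) :=
          mul_le_mul_of_nonneg_right h1 h3
      _ = κ * (Q ^ ((k : ℝ) * (1 - θ)) * Q ^ ((k : ℝ) * θ)) := by ring
      _ = κ * Q ^ k := by rw [h2]
  obtain ⟨Y, hY⟩ : ∃ Y, Y = Q ^ k := ⟨_, rfl⟩
  rw [← hY] at hbig
  rw [← hY]
  have hY1 : 1 ≤ Y := by rw [hY]; exact one_le_pow₀ hQ1'
  have hY0 : 0 < Y := by linarith
  have hYθ : Y ^ θ = Q ^ ((k : ℝ) * θ) := by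
    rw [hY, ← Real.rpow_natCast Q k, ← Real.rpow_mul hQ0.le]
  rw [← hYθ] at hbig
  rw [← hYθ]
  have hZ1 : Y ≤ (⌈Y⌉₊ : ℝ) := Nat.le_ceil Y
  have hZ2 : (⌈Y⌉₊ : ℝ) ≤ 2 * Y := by
    have := (Nat.ceil_lt_add_one hY0.le).le
    linarith
  have hZ3 : 1 ≤ ⌈Y⌉₊ := Nat.one_le_ceil_iff.2 hY0
  obtain ⟨β, hβ⟩ := hp ⌈Y⌉₊ hZ3
  rw [pow_one] at hβ
  have hW1 : Y ^ θ ≤ (⌈Y⌉₊ : ℝ) ^ θ := Real.rpow_le_rpow hY0.le hZ1 hθ0.le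
  have hW2 : (⌈Y⌉₊ : ℝ) ^ θ ≤ 2 * Y ^ θ := by
    calc (⌈Y⌉₊ : ℝ) ^ θ ≤ (2 * Y) ^ θ := Real.rpow_le_rpow (by positivity) hZ2 hθ0.le
      _ = 2 ^ θ * Y ^ θ := Real.mul_rpow (by norm_num) hY0.le
      _ ≤ 2 * Y ^ θ := by
          refine mul_le_mul_of_nonneg_right ?_ (Real.rpow_nonneg hY0.le _)
          calc (2 : ℝ) ^ θ ≤ 2 ^ (1 : ℝ) := Real.rpow_le_rpow_of_exponent_le (by norm_num) hθ1.le
            _ = 2 := Real.rpow_one 2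
  have hYp : 0 < Y ^ θ := Real.rpow_pos_of_pos hY0 _
  obtain ⟨D, hD⟩ : ∃ D, D = K' * (⌈Y⌉₊ : ℝ) ^ θ := ⟨_, rfl⟩
  simp only [← hD] at hβ
  have hD1 : Y ^ θ ≤ D := by
    rw [hD]
    nlinarith
  have hD0 : 0 < D := by linarith
  have hD2 : D ≤ 2 * K' * Y ^ θ := by
    rw [hD]
    nlinarith
  obtain ⟨N, hN⟩ : ∃ N, N = ⌊2 * κ * Y / D⌋₊ := ⟨_, rfl⟩
  have hN1 : (N : ℝ) * D ≤ 2 * κ * Y := by
    have := Nat.floor_le (by positivity : 0 ≤ 2 * κ * Y / D)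
    rw [← hN, le_div_iff₀ hD0] at this
    exact this
  have hN2 : 2 * κ * Y < ((N : ℝ) + 1) * D := by
    have := Nat.lt_floor_add_one (2 * κ * Y / D)
    rw [← hN, div_lt_iff₀ hD0] at this
    exact this
  have hN3 : κ * Y ≤ N * D := by linarith
  have hcond : ∀ m < N, ((m : ℝ) + 1) * D ≤ 2 * κ * (⌈Y⌉₊ : ℝ) := by
    intro m hm
    have h1 : ((m : ℝ) + 1) ≤ N := by exact_mod_cast hm
    refine ((mul_le_mul_of_nonneg_right h1 hD0.le).trans hN1).trans ?_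
    exact mul_le_mul_of_nonneg_left hZ1 (by linarith)
  refine ⟨N, β, D, fun m hm => (hβ m (hcond m hm)).2, fun m hm => (hβ m (hcond m hm)).1, ?_, hD1,
    hD2, hN3, hN1⟩
  by_contra hcon
  have h0 : N = 0 := by omega
  rw [h0] at hN3
  push_cast at hN3
  have : 0 < κ * Y := by positivity
  linarith

end Pool.H38.OP
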