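import Pool.Agent.H38.OP.Scale2
import Pool.Agent.H38.OP.Levels
import Pool.Agent.H38.OP.PtsQ
import Pool.Agent.H38.OP.GaBd

/-!
# Module BASEINT2: the mean measure of the missed set of the base family at scale Q

Compare `base_int` in `Pool/Agent/H19/Fc/BaseInt.lean`. Let `k = l+1+p ≥ 2`. `u ≥ 1`, since for `u = 0` `th = 1` and `hθ` says
`k < (l+1) ρ^n ≤ l+1`. `κ1 = n p (1 + p A)(2p+2)^k ≥ 1` (`ga_bd`), `κ = κ1 + 1`. `c_L, K_L` from `levels l p n`; `K, Q1` from `pts_Q k u` with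
its `κ := 2 κ1 + 5`; `c0 = c_L/K`; `C1, R0` from `scale2 l p n K_L A c0`. For `Q` large take `P` from `levels`, `N, β, D` from `pts_Q`, and apply `scale2`
with `R = c_L Q^((l+1)ρ^n)`, `b = Q^(2(c+ε))` (`√b = Q^(c+ε)`, `b ≥ 1`), `r = Q^(-c)` (`b r^2 = Q^(2ε)`), `Y = κ Q^k`, `X = (κ+3) Q^k`. Conditions:
* `c0 D ≤ c_L Q^(kθ) ≤ R` by `hθ` (`Q ≥ 1`); `D ≥ Q^(kθ) ≥ 1`.
* window: for `a ∈ Ba p A`, `y ∈ Yb`: `y i b ≤ (2b+2) P i ≤ (2p+2) Q` (`mem_Yb`, `mem_bo`), so `|ga l a y| ≤ κ1 Q^k` (`ga_bd`) and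
`Q^k ≤ τ - ga ≤ (2 κ1 + 4) Q^k`; `R0 D ≤ R0 K Q^(kθ) ≤ Q^k` for `Q` large (`th < 1`), and `N D - R0 D ≥ (2 κ1 + 5) Q^k - Q^k`.
* smallness: `4 √b (N D) exp(-(π Q^(2ε))) ≤ 8 (2κ1+5) Q^(k+c+ε) exp(-(π Q^(2ε))) ≤ 1` for `Q` large (`tendsto_rpow_mul_exp_neg_mul_atTop_nhds_zero` composed
with `Q ↦ Q^(2ε)`, see `bi_event2` in `Fc/BaseInt`).
The missed set: `Mb ⊆ {τ | ∀ m < N, ∀ y ∈ Yb, r ≤ |β m + ga l a y - τ|}`: `β m = ∑_j (x j)^k` (`Pw`), take the index `(x, y)`; then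
`setLIntegral_mono'`, `measure_mono`. Bound: `C1 √b N D^2/|Yb| ≤ C1 Q^(c+ε) (N D) D/(c_L Q^((l+1)p(1-ρ^n)))
≤ C Q^(k + kθ - (l+1)p(1-ρ^n) + c + ε)`, `C = C1 * 2 (2κ1+5) K/c_L`.
-/

set_option autoImplicit false

namespace Pool.H38.OP

open MeasureTheory Set Pool.H19.Wa Pool.H48.Wt Pool.H19.Fc

noncomputable section

/-- the base exponent `k (ν - θ)` -/
def e0 (l p n u : ℕ) : ℝ := ((l : ℝ) + 1) * p * (1 - rh l ^ n) - ((l + 1 + p : ℕ) : ℝ) * th (l + 1 + p) u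

end

theorem bi2_sub (l p n u : ℕ) (Q r : ℝ) (P : Fin n → ℕ) (hP : ∀ i, (P i : ℝ) ≤ Q) (N : ℕ) (β : ℕ → ℝ)
    (hPw : ∀ m < N, β m ∈ Pw (l + 1 + p) u) (a : Fin p → ℝ) :
    Mb l p n u Q a r ⊆ {τ : ℝ | ∀ m < N, ∀ y ∈ Yb p n P, r ≤ |β m + ga l a y - τ|} := by
  intro τ hτ m hm y hy
  obtain ⟨x, hx⟩ := hPw m hm
  have hyb : ∀ i b, (y i b : ℝ) ≤ (2 * p + 2) * Q := by
    intro i b
    have h1 := (mem_bo.mp (mem_Yb.mp hy i) b).2
    have h2 : (y i b : ℝ) ≤ (2 * (b : ℕ) + 2) * (P i : ℝ) := by exact_mod_cast h1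
    have h3 : ((b : ℕ) : ℝ) ≤ p := by exact_mod_cast b.2.le
    have h4 : (0 : ℝ) ≤ (P i : ℝ) := Nat.cast_nonneg _
    have h5 := hP i
    calc (y i b : ℝ) ≤ (2 * (b : ℕ) + 2) * (P i : ℝ) := h2
      _ ≤ (2 * p + 2) * Q := by
        have h6 : (2 * ((b : ℕ) : ℝ) + 2) ≤ 2 * p + 2 := by linarith
        exact mul_le_mul h6 h5 h4 (by positivity)
  have h := hτ (x, y) hyb
  unfold bval at h
  simp only at h
  rw [hx]
  exact h

theorem bi2_small (k : ℕ) (c ε M : ℝ) (hε : 0 < ε) : ∃ Q0 : ℝ, 1 ≤ Q0 ∧ ∀ Q : ℝ, Q0 ≤ Q →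
    M * (Q ^ (c + ε) * Q ^ k) * Real.exp (-(Real.pi * Q ^ (2 * ε))) ≤ 1 := by
  have h1 : Filter.Tendsto (fun Q : ℝ => Q ^ (2 * ε)) Filter.atTop Filter.atTop :=
    tendsto_rpow_atTop (by positivity)
  have h3 := ((tendsto_rpow_mul_exp_neg_mul_atTop_nhds_zero (((k : ℝ) + c + ε) / (2 * ε)) Real.pi
    Real.pi_pos).comp h1).const_mul M
  rw [mul_zero] at h3
  obtain ⟨Q0, hQ0⟩ := Filter.eventually_atTop.1 (h3.eventually (ge_mem_nhds (zero_lt_one)))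
  refine ⟨max 1 Q0, le_max_left _ _, fun Q hQ => ?_⟩
  have hQ1 : 1 ≤ Q := (le_max_left _ _).trans hQ
  have hQp : 0 < Q := by linarith
  have h4 := hQ0 Q ((le_max_right _ _).trans hQ)
  simp only [Function.comp_apply] at h4
  have h5 : (Q ^ (2 * ε)) ^ (((k : ℝ) + c + ε) / (2 * ε)) = Q ^ (c + ε) * Q ^ k := by
    rw [← Real.rpow_mul hQp.le, ← Real.rpow_natCast, ← Real.rpow_add hQp]
    congr 1
    field_simp
    ring
  rw [h5] at h4
  refine le_trans (le_of_eq ?_) h4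
  rw [mul_assoc]
  congr 3
  ring

theorem base_int2 (l p n u : ℕ) (hp : 1 ≤ p) (hn : 1 ≤ n) (A : ℝ) (hA : 1 ≤ A)
    (hθ : ((l + 1 + p : ℕ) : ℝ) * th (l + 1 + p) u < ((l : ℝ) + 1) * rh l ^ n) :
    ∃ κ : ℝ, 1 ≤ κ ∧ ∀ c ε : ℝ, 0 ≤ c → 0 < ε → ∃ C Q0 : ℝ, 0 < C ∧ 1 ≤ Q0 ∧ ∀ Q : ℝ, Q0 ≤ Q →
      ∫⁻ a in Ba p A, volume (Mb l p n u Q a (Q ^ (-c)) ∩ Wi l p κ Q) ≤
        ENNReal.ofReal (C * Q ^ (((l + 1 + p : ℕ) : ℝ) - e0 l p n u + c + ε)) := by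
  have hl0 : (0 : ℝ) ≤ l := Nat.cast_nonneg l
  have hp1 : (1 : ℝ) ≤ p := by exact_mod_cast hp
  have hn1 : (1 : ℝ) ≤ n := by exact_mod_cast hn
  have hrh0 : 0 ≤ rh l := by
    unfold rh
    positivity
  have hrh1 : rh l ≤ 1 := by
    unfold rh
    rw [div_le_one (by positivity)]
    linarith
  have hrn : rh l ^ n ≤ 1 := pow_le_one₀ hrh0 hrh1
  have hu : 1 ≤ u := by
    by_contra hcon
    have hu0 : u = 0 := by omega
    subst hu0
    unfold th at hθ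
    rw [pow_zero, mul_one] at hθ
    push_cast at hθ
    nlinarith
  obtain ⟨k, hk⟩ : ∃ k, k = l + 1 + p := ⟨_, rfl⟩
  have hk2 : 2 ≤ k := by omega
  have hk0 : (0 : ℝ) < k := by exact_mod_cast (by omega : 0 < k)
  have hθ01 := theta_bd k u hk2 hu
  have hth : th k u = (1 - 1 / (k : ℝ)) ^ u := rfl
  rw [← hth] at hθ01
  obtain ⟨κ1, hκ1⟩ : ∃ κ1 : ℝ, κ1 = n * p * (1 + p * A) * (2 * p + 2) ^ (l + 1 + p) := ⟨_, rfl⟩
  have hκ11 : 1 ≤ κ1 := by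
    rw [hκ1]
    have h1 : (1 : ℝ) ≤ (2 * (p : ℝ) + 2) ^ (l + 1 + p) := one_le_pow₀ (by linarith)
    have h2 : (1 : ℝ) ≤ 1 + p * A := by nlinarith
    have h3 : (1 : ℝ) ≤ n * p := by nlinarith
    have h4 : (1 : ℝ) ≤ n * p * (1 + p * A) := by nlinarith
    nlinarith
  refine ⟨κ1 + 1, by linarith, fun c ε hc hε => ?_⟩
  obtain ⟨cL, KL, hcL, hKL, hlev⟩ := levels l p n
  obtain ⟨K, Q1, hK, hQ1, hpts⟩ := pts_Q k u hk2 hu (2 * κ1 + 5) (by linarith)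
  have hK0 : 0 < K := by linarith
  obtain ⟨C1, R0, hC1, hR0, hsc⟩ := scale2 l p n hp hn KL A (cL / K) hKL hA (by positivity)
  obtain ⟨Q2, hQ2, hsm⟩ := bi2_small k c ε (8 * (2 * κ1 + 5)) hε
  have hpos : 0 < (k : ℝ) - k * th k u := by nlinarith [hθ01.2]
  obtain ⟨Q3, hQ3⟩ := Filter.eventually_atTop.1
    ((tendsto_rpow_atTop hpos).eventually_ge_atTop (R0 * K))
  refine ⟨C1 * (2 * (2 * κ1 + 5) * K / cL), max 1 (max Q1 (max Q2 Q3)), by positivity,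
    le_max_left _ _, fun Q hQ => ?_⟩
  have hQa : 1 ≤ Q := (le_max_left _ _).trans hQ
  have hQb : Q1 ≤ Q := ((le_max_left _ _).trans (le_max_right _ _)).trans hQ
  have hQc : Q2 ≤ Q := (((le_max_left _ _).trans (le_max_right _ _)).trans (le_max_right _ _)).trans hQ
  have hQd : Q3 ≤ Q := (((le_max_right _ _).trans (le_max_right _ _)).trans (le_max_right _ _)).trans hQ
  have hQp : 0 < Q := by linarith
  obtain ⟨P, hLev, hPQ, hcard⟩ := hlev Q hQa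
  obtain ⟨N, β, D, hcell, hPw, hN0, hD1, hD2, hND1, hND2⟩ := hpts Q hQb
  have hQkθ : 1 ≤ Q ^ ((k : ℝ) * th k u) := Real.one_le_rpow hQa (mul_nonneg hk0.le hθ01.1.le)
  have hD1' : 1 ≤ D := hQkθ.trans hD1
  have hD0 : 0 < D := by linarith
  have hRD : R0 * D ≤ Q ^ k := by
    have h1 := hQ3 Q hQd
    calc R0 * D ≤ R0 * (K * Q ^ ((k : ℝ) * th k u)) := mul_le_mul_of_nonneg_left hD2 (by linarith)
      _ = (R0 * K) * Q ^ ((k : ℝ) * th k u) := by ring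
      _ ≤ Q ^ ((k : ℝ) - k * th k u) * Q ^ ((k : ℝ) * th k u) :=
          mul_le_mul_of_nonneg_right h1 (by positivity)
      _ = Q ^ k := by
          rw [← Real.rpow_add hQp, ← Real.rpow_natCast]
          congr 1
          ring
  have hQk0 : 0 < Q ^ k := by positivity
  obtain ⟨b, hb⟩ : ∃ b : ℝ, b = Q ^ (2 * (c + ε)) := ⟨_, rfl⟩
  have hb1 : 1 ≤ b := by
    rw [hb]
    exact Real.one_le_rpow hQa (by positivity)
  have hsq : Real.sqrt b = Q ^ (c + ε) := by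
    have h1 : b = (Q ^ (c + ε)) ^ 2 := by
      rw [hb, ← Real.rpow_natCast, ← Real.rpow_mul hQp.le]
      congr 1
      push_cast
      ring
    rw [h1, Real.sqrt_sq (by positivity)]
  have hbr : Real.pi * b * (Q ^ (-c)) ^ 2 = Real.pi * Q ^ (2 * ε) := by
    have h1 : b * (Q ^ (-c)) ^ 2 = Q ^ (2 * ε) := by
      rw [hb, ← Real.rpow_natCast (Q ^ (-c)), ← Real.rpow_mul hQp.le, ← Real.rpow_add hQp]
      congr 1
      push_cast
      ring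
    rw [mul_assoc, h1]
  have hmain := hsc P (cL * Q ^ (((l : ℝ) + 1) * rh l ^ n)) N β D b ((κ1 + 1 + 3) * Q ^ k)
    ((κ1 + 1) * Q ^ k) (Q ^ (-c)) hLev hD0 hcell
    (by
      calc cL / K * D ≤ cL / K * (K * Q ^ ((k : ℝ) * th k u)) :=
            mul_le_mul_of_nonneg_left hD2 (by positivity)
        _ = cL * Q ^ ((k : ℝ) * th k u) := by
            field_simp
        _ ≤ cL * Q ^ (((l : ℝ) + 1) * rh l ^ n) := by
            refine mul_le_mul_of_nonneg_left (Real.rpow_le_rpow_of_exponent_le hQa ?_) hcL.le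
            rw [hk]
            exact hθ.le)
    hb1 hD1' (by positivity) (by positivity) (by positivity)
    (fun a ha y hy τ hτ => by
      have hyb : ∀ i b, (y i b : ℝ) ≤ (2 * p + 2) * Q := by
        intro i b
        have h1 := (mem_bo.mp (mem_Yb.mp hy i) b).2
        have h2 : (y i b : ℝ) ≤ (2 * (b : ℕ) + 2) * (P i : ℝ) := by exact_mod_cast h1
        have h3 : ((b : ℕ) : ℝ) ≤ p := by exact_mod_cast b.2.le
        have h4 : (0 : ℝ) ≤ (P i : ℝ) := Nat.cast_nonneg _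
        have h6 : (2 * ((b : ℕ) : ℝ) + 2) ≤ 2 * p + 2 := by linarith
        exact h2.trans (mul_le_mul h6 (hPQ i) h4 (by positivity))
      have h1 := ga_bd l p n A Q (by linarith) hQa a ha y hyb
      rw [← hκ1, ← hk] at h1
      obtain ⟨h2, h3⟩ := abs_le.mp h1
      constructor
      · nlinarith [hτ.1]
      · nlinarith [hτ.2])
    (by
      rw [hbr, hsq]
      have h1 := hsm Q hQc
      rw [le_div_iff₀ (by positivity)]
      set E : ℝ := Real.exp (-(Real.pi * Q ^ (2 * ε))) with hE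
      have hE0 : 0 < E := Real.exp_pos _
      have hp' : 0 < Q ^ (c + ε) := by positivity
      calc Q ^ (c + ε) * (N : ℝ) * E * (4 * D) = 4 * Q ^ (c + ε) * E * (N * D) := by ring
        _ ≤ 4 * Q ^ (c + ε) * E * (2 * (2 * κ1 + 5) * Q ^ k) :=
            mul_le_mul_of_nonneg_left hND2 (by positivity)
        _ = 8 * (2 * κ1 + 5) * (Q ^ (c + ε) * Q ^ k) * E := by ring
        _ ≤ 1 := h1)
  have hWi : Wi l p (κ1 + 1) Q = Icc ((κ1 + 1) * Q ^ k) ((κ1 + 1 + 3) * Q ^ k) := by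
    unfold Wi
    rw [hk]
  rw [hWi]
  refine (setLIntegral_mono' (measurableSet_Ba p A) fun a _ =>
    measure_mono (inter_subset_inter_left _ (bi2_sub l p n u Q (Q ^ (-c)) P hPQ N β
      (by rw [← hk]; exact hPw) a))).trans ?_
  refine hmain.trans (ENNReal.ofReal_le_ofReal ?_)
  rw [hsq]
  have hV0 : 0 < cL * Q ^ (((l : ℝ) + 1) * p * (1 - rh l ^ n)) := by positivity
  have hp' : 0 < Q ^ (c + ε) := by positivity
  calc C1 * Q ^ (c + ε) * (N : ℝ) * D ^ 2 / ((Yb p n P).card : ℝ)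
      ≤ C1 * Q ^ (c + ε) * (N : ℝ) * D ^ 2 / (cL * Q ^ (((l : ℝ) + 1) * p * (1 - rh l ^ n))) := by
        apply div_le_div_of_nonneg_left _ hV0 hcard
        positivity
    _ = C1 * Q ^ (c + ε) * ((N : ℝ) * D) * D / (cL * Q ^ (((l : ℝ) + 1) * p * (1 - rh l ^ n))) := by
        congr 1
        ring
    _ ≤ C1 * Q ^ (c + ε) * (2 * (2 * κ1 + 5) * Q ^ k) * (K * Q ^ ((k : ℝ) * th k u)) /
          (cL * Q ^ (((l : ℝ) + 1) * p * (1 - rh l ^ n))) := by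
        gcongr
    _ = C1 * (2 * (2 * κ1 + 5) * K / cL) * (Q ^ (c + ε) * Q ^ k * Q ^ ((k : ℝ) * th k u) *
          (Q ^ (((l : ℝ) + 1) * p * (1 - rh l ^ n)))⁻¹) := by
        field_simp
    _ = C1 * (2 * (2 * κ1 + 5) * K / cL) *
          Q ^ (((l + 1 + p : ℕ) : ℝ) - e0 l p n u + c + ε) := by
        congr 1
        rw [← Real.rpow_neg hQp.le, ← Real.rpow_natCast, ← Real.rpow_add hQp, ← Real.rpow_add hQp,
          ← Real.rpow_add hQp]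
        congr 1
        unfold e0
        rw [← hk]
        ring

end Pool.H38.OP
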