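import Pool.Agent.H38.OP.Defs

/-!
# Module TAIL: the lower levels contribute little

`ps l y c = ∑_i ∑_b (y_ib)^(l+1+c)`, `0 < y_ib ≤ (2b+2) P_i ≤ (2p+2) P_i` (`mem_Yb`, `mem_bo`, `b < p`), so
`(y_ib)^(l+1+c) ≤ (2p+2)^(l+1+c) P_i^(l+1+c) ≤ (2p+2)^(l+1+p) K P0^(l+c)`.
-/

set_option autoImplicit false

namespace Pool.H38.OP

open MeasureTheory Set Pool.H19.Wa Pool.H48.Wt Pool.H19.Fc

theorem tail_bd (l p n : ℕ) (K : ℝ) (P0 : ℕ) (P : Fin n → ℕ)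
    (hK : ∀ i, ∀ c : Fin p, (P i : ℝ) ^ (l + 1 + (c : ℕ)) ≤ K * (P0 : ℝ) ^ (l + (c : ℕ)))
    (y : Fin n → Fin p → ℕ) (hy : y ∈ Yb p n P) (c : Fin p) :
    0 ≤ ps l y c ∧ ps l y c ≤ (n * p * (2 * p + 2) ^ (l + 1 + p) * K) * (P0 : ℝ) ^ (l + (c : ℕ)) := by
  rw [mem_Yb] at hy
  constructor
  · unfold ps pl
    exact Finset.sum_nonneg fun i _ => Finset.sum_nonneg fun b _ => by positivity
  set M : ℝ := (2 * (p : ℝ) + 2) ^ (l + 1 + p) * (K * (P0 : ℝ) ^ (l + (c : ℕ))) with hM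
  have hterm : ∀ i : Fin n, ∀ b : Fin p, (y i b : ℝ) ^ (l + 1 + (c : ℕ)) ≤ M := by
    intro i b
    have h1 := (mem_bo.1 (hy i) b).2
    have h2 : (y i b : ℝ) ≤ (2 * (p : ℝ) + 2) * P i := by
      have h3 : y i b ≤ (2 * p + 2) * P i := by
        refine h1.trans (Nat.mul_le_mul_right _ ?_)
        have := b.2
        omega
      exact_mod_cast h3
    have h4 : (0 : ℝ) ≤ K * (P0 : ℝ) ^ (l + (c : ℕ)) := le_trans (by positivity) (hK i c)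
    have h5 : (2 * (p : ℝ) + 2) ^ (l + 1 + (c : ℕ)) ≤ (2 * (p : ℝ) + 2) ^ (l + 1 + p) := by
      refine pow_le_pow_right₀ ?_ ?_
      · have : (0 : ℝ) ≤ p := Nat.cast_nonneg p
        linarith
      · have := c.2
        omega
    calc (y i b : ℝ) ^ (l + 1 + (c : ℕ)) ≤ ((2 * (p : ℝ) + 2) * P i) ^ (l + 1 + (c : ℕ)) :=
          pow_le_pow_left₀ (Nat.cast_nonneg _) h2 _
      _ = (2 * (p : ℝ) + 2) ^ (l + 1 + (c : ℕ)) * (P i : ℝ) ^ (l + 1 + (c : ℕ)) := mul_pow _ _ _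
      _ ≤ (2 * (p : ℝ) + 2) ^ (l + 1 + p) * (K * (P0 : ℝ) ^ (l + (c : ℕ))) :=
          mul_le_mul h5 (hK i c) (by positivity) (by positivity)
  unfold ps pl
  have h6 : ∀ i ∈ (Finset.univ : Finset (Fin n)),
      ∑ b, (y i b : ℝ) ^ (l + 1 + (c : ℕ)) ≤ p * M := by
    intro i _
    refine (Finset.sum_le_sum fun b _ => hterm i b).trans (le_of_eq ?_)
    rw [Finset.sum_const, Finset.card_univ, Fintype.card_fin, nsmul_eq_mul]
  refine (Finset.sum_le_sum h6).trans (le_of_eq ?_)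
  rw [Finset.sum_const, Finset.card_univ, Fintype.card_fin, nsmul_eq_mul, hM]
  ring

end Pool.H38.OP
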