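import Pool.Agent.H38.OP.Level
import Pool.Agent.H38.OP.Tail

/-!
# Module BLOCK: the number of blocks with prescribed power sums (Lemma B)

Induction on `n`. `n = 0`: `S` has at most one element (`Fin 0 → _` is a subsingleton), `C = 1`.
Step `n → n+1`: let `C0` be the constant of `level_count p`, `C1` that of the induction hypothesis for `n`, and
`B1 = n p (2p+2)^(l+1+p) K` (`tail_bd`). Let `P : Fin (n+1) → ℕ`, `P' = fun i => P i.succ`. For `y ∈ S` write `y = Fin.cons x y'`,
`x = y 0`, `y' = fun i => y i.succ`; `ps l y c = pl l x c + ps l y' c` (`ps_cons`, `Fin.cons_self_tail`).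
(1) First level: `S0 = S.image (fun y => y 0)`. For `x = y 0 ∈ S0`: `|pl l x c - T c| ≤ L + ps l y' c ≤ L + B1 (P 0)^(l+c)
≤ (L/R + B1) (P 0)^(l+c)`, because `R ≤ (P 0)^l ≤ (P 0)^(l+c)` (`1 ≤ P 0`), `tail_bd` with `P0 = P 0` (`Lev`, `0 < i.succ`). So by
`level_count` with `B = L/R + B1`: `|S0| ≤ C0 (1 + L/R + B1)^p ≤ C0 (1+B1)^p (1+L/R)^p`.
(2) Fibers: for fixed `x ∈ S0` the set `{y' | Fin.cons x y' ∈ S}` (image of the fiber under the injective map `y ↦ y'`) satisfies the
hypotheses with `P'`, `T' c = T c - pl l x c` (`Lev l p n K R P'` by restriction), so the fiber has at most `C1 (1+L/R)^(p n)` elements.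
`Finset.card_le_mul_card_image` or `Finset.card_eq_sum_card_image` gives `|S| ≤ C1 (1+L/R)^(pn) * C0 (1+B1)^p (1+L/R)^p`;
`p (n+1) = p n + p`. `C = C0 C1 (1+B1)^p`.
-/

set_option autoImplicit false

namespace Pool.H38.OP

open MeasureTheory Set Pool.H19.Wa Pool.H48.Wt Pool.H19.Fc

theorem block_count (l p n : ℕ) (K : ℝ) (hK : 1 ≤ K) : ∃ C : ℝ, 1 ≤ C ∧
    ∀ (P : Fin n → ℕ) (R L : ℝ) (T : Fin p → ℝ) (S : Finset (Fin n → Fin p → ℕ)),
      Lev l p n K R P → 0 < R → 0 ≤ L →
      (∀ y ∈ S, y ∈ Yb p n P ∧ ∀ c : Fin p, |ps l y c - T c| ≤ L) →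
      (S.card : ℝ) ≤ C * (1 + L / R) ^ (p * n) := by
  classical
  induction n with
  | zero =>
    refine ⟨1, le_rfl, ?_⟩
    intro P R L T S _ _ _ _
    rw [Nat.mul_zero, pow_zero, mul_one]
    have h1 : S.card ≤ 1 := Finset.card_le_one_of_subsingleton S
    exact_mod_cast h1
  | succ n ih =>
    obtain ⟨C1, hC1, hI⟩ := ih
    obtain ⟨C0, hC0, hL⟩ := level_count p
    set B1 : ℝ := n * p * (2 * p + 2) ^ (l + 1 + p) * K with hB1
    have hB10 : 0 ≤ B1 := by positivity
    refine ⟨C0 * C1 * (1 + B1) ^ p, ?_, ?_⟩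
    · have h1 : 1 ≤ C0 * C1 := one_le_mul_of_one_le_of_one_le hC0 hC1
      exact one_le_mul_of_one_le_of_one_le h1 (one_le_pow₀ (by linarith))
    intro P R L T S hlev hR hL0 hS
    obtain ⟨hP1, hP2, hP3⟩ := hlev
    set P' : Fin n → ℕ := fun i => P i.succ with hP'
    have hlev' : Lev l p n K R P' :=
      ⟨fun i => hP1 i.succ, fun i => hP2 i.succ, fun i j hij c =>
        hP3 i.succ j.succ (Fin.succ_lt_succ_iff.2 hij) c⟩
    have hps : ∀ (y : Fin (n + 1) → Fin p → ℕ) (c : ℕ),
        ps l y c = pl l (y 0) c + ps l (Fin.tail y : Fin n → Fin p → ℕ) c := by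
      intro y c
      have h1 := ps_cons l (y 0) (Fin.tail y : Fin n → Fin p → ℕ) c
      have h2 : (Fin.cons (y 0) (Fin.tail y) : Fin (n + 1) → Fin p → ℕ) = y := Fin.cons_self_tail y
      rw [h2] at h1
      exact h1
    have htail : ∀ y ∈ S, (Fin.tail y : Fin n → Fin p → ℕ) ∈ Yb p n P' := by
      intro y hy
      have h1 := mem_Yb.1 (hS y hy).1
      exact mem_Yb.2 fun i => h1 i.succ
    have hLR : 0 ≤ L / R := div_nonneg hL0 hR.le
    -- the first level
    have h0 : ((S.image fun y => y 0).card : ℝ) ≤ C0 * (1 + (L / R + B1)) ^ p := by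
      refine hL (P 0) l (L / R + B1) T _ (hP1 0) (by positivity) ?_
      intro x hx
      rw [Finset.mem_image] at hx
      obtain ⟨y, hy, rfl⟩ := hx
      refine ⟨mem_Yb.1 (hS y hy).1 0, fun c => ?_⟩
      have h1 := (hS y hy).2 c
      have h2 := tail_bd l p n K (P 0) P' (fun i c => hP3 0 i.succ (Fin.succ_pos i) c)
        (Fin.tail y) (htail y hy) c
      rw [← hB1] at h2
      rw [hps] at h1
      have h3 : (R : ℝ) ≤ (P 0 : ℝ) ^ (l + (c : ℕ)) := by
        refine (hP2 0).trans (pow_le_pow_right₀ ?_ (Nat.le_add_right _ _))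
        exact_mod_cast hP1 0
      have h4 : L ≤ L / R * (P 0 : ℝ) ^ (l + (c : ℕ)) := by
        calc L = L / R * R := (div_mul_cancel₀ L hR.ne').symm
          _ ≤ _ := mul_le_mul_of_nonneg_left h3 hLR
      rw [abs_le] at h1 ⊢
      constructor
      · nlinarith [h1.1, h1.2, h2.1, h2.2]
      · nlinarith [h1.1, h1.2, h2.1, h2.2]
    -- the fibers
    have hfib : ∀ x ∈ S.image (fun y => y 0), ((S.filter fun y => y 0 = x).card : ℝ) ≤
        C1 * (1 + L / R) ^ (p * n) := by
      intro x _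
      have h1 : (S.filter fun y => y 0 = x).card =
          ((S.filter fun y => y 0 = x).image fun y => (Fin.tail y : Fin n → Fin p → ℕ)).card := by
        rw [Finset.card_image_of_injOn]
        intro y hy z hz hyz
        have hy' := (Finset.mem_filter.1 (Finset.mem_coe.1 hy)).2
        have hz' := (Finset.mem_filter.1 (Finset.mem_coe.1 hz)).2
        have h2 : (Fin.tail y : Fin n → Fin p → ℕ) = Fin.tail z := hyz
        rw [← Fin.cons_self_tail y, ← Fin.cons_self_tail z, h2, hy', hz']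
      rw [h1]
      refine hI P' R L (fun c => T c - pl l x c) _ hlev' hR hL0 ?_
      intro y' hy'
      rw [Finset.mem_image] at hy'
      obtain ⟨y, hy, rfl⟩ := hy'
      rw [Finset.mem_filter] at hy
      refine ⟨htail y hy.1, fun c => ?_⟩
      have h2 := (hS y hy.1).2 c
      rw [hps, hy.2] at h2
      have h3 : ps l (Fin.tail y : Fin n → Fin p → ℕ) c - (T c - pl l x c) =
          pl l x c + ps l (Fin.tail y : Fin n → Fin p → ℕ) c - T c := by ring
      rw [h3]
      exact h2
    have hcard : (S.card : ℝ) = ∑ x ∈ S.image (fun y => y 0), ((S.filter fun y => y 0 = x).card : ℝ) := by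
      have h1 := Finset.card_eq_sum_card_image (fun y : Fin (n + 1) → Fin p → ℕ => y 0) S
      exact_mod_cast h1
    rw [hcard]
    refine (Finset.sum_le_sum hfib).trans ?_
    rw [Finset.sum_const, nsmul_eq_mul]
    have h1 : C0 * (1 + (L / R + B1)) ^ p ≤ C0 * ((1 + B1) ^ p * (1 + L / R) ^ p) := by
      refine mul_le_mul_of_nonneg_left ?_ (by linarith)
      rw [← mul_pow]
      refine pow_le_pow_left₀ (by positivity) ?_ p
      nlinarith [mul_nonneg hLR hB10]
    have h2 : 0 ≤ C1 * (1 + L / R) ^ (p * n) := by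
      have : 0 ≤ C1 := by linarith
      positivity
    refine (mul_le_mul_of_nonneg_right (h0.trans h1) h2).trans (le_of_eq ?_)
    rw [Nat.mul_succ, pow_add]
    ring

end Pool.H38.OP
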