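import Pool.Agent.H38.OP.Defs

/-!
# Module CHAIN2: v genuine powers bring a target at the top scale into the base window

`greedy k v` (`Pool.H48.Wt`): constant `K`. Let `Q = P^lam`, `Q^k = P^(lam k)` (`Real.rpow_natCast`, `Real.rpow_mul`). `t = σ - κ Q^k ≥ 0` as soon as
`κ P^(lam k) ≤ P^k/4` (`P` large, `lam < 1`). `greedy` gives `w` with `∑ w_j^k ≤ t` and `t - ∑ w_j^k ≤ K (1+t)^(th k v) ≤ K ((2^k+2) P^k)^(th k v)
≤ P^(lam k) = Q^k` for `P` large, because `th k v < lam` (`th k v ≥ 0`). Both comparisons: `tendsto_rpow_atTop` applied to `P^((1-lam) k)` and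
`P^((lam - th k v) k)`.
-/

set_option autoImplicit false

namespace Pool.H38.OP

open MeasureTheory Set Pool.H19.Wa Pool.H48.Wt Pool.H19.Fc

theorem chain2 (k v : ℕ) (hk : 2 ≤ k) (lam κ : ℝ) (hlam : th k v < lam) (hlam1 : lam < 1) (hκ : 0 ≤ κ) :
    ∃ P0 : ℝ, 1 ≤ P0 ∧ ∀ P : ℝ, P0 ≤ P → ∀ σ : ℝ, P ^ k / 4 ≤ σ → σ ≤ (2 ^ k + 1) * P ^ k →
      ∃ w : Fin v → ℕ, κ * (P ^ lam) ^ k ≤ σ - ∑ j, (w j : ℝ) ^ k ∧
        σ - ∑ j, (w j : ℝ) ^ k ≤ (κ + 1) * (P ^ lam) ^ k := by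
  obtain ⟨K, hK, hgr⟩ := greedy k v (by omega)
  have hk0 : (0 : ℝ) < k := by exact_mod_cast (by omega : 0 < k)
  obtain ⟨θ, hθ⟩ : ∃ θ : ℝ, θ = th k v := ⟨_, rfl⟩
  have hθ0 : 0 ≤ θ := by
    rw [hθ]
    unfold th
    apply pow_nonneg
    have : 1 / (k : ℝ) ≤ 1 := by
      rw [div_le_one hk0]
      exact_mod_cast (by omega : 1 ≤ k)
    linarith
  rw [← hθ] at hlam
  have e1 := (tendsto_rpow_atTop (mul_pos (by linarith : 0 < 1 - lam) hk0)).eventually_ge_atTop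
    (4 * κ)
  have e2 := (tendsto_rpow_atTop (mul_pos (by linarith : 0 < lam - θ) hk0)).eventually_ge_atTop
    (K * (2 ^ k + 2) ^ θ)
  obtain ⟨P0, hP0⟩ := Filter.eventually_atTop.1 (e1.and (e2.and (Filter.eventually_ge_atTop (1 : ℝ))))
  refine ⟨max P0 1, le_max_right _ _, fun P hP σ hσ1 hσ2 => ?_⟩
  obtain ⟨h1, h2, h3⟩ := hP0 P ((le_max_left _ _).trans hP)
  have hPpos : 0 < P := by linarith
  have hQ : (P ^ lam) ^ k = P ^ (lam * k) := by
    rw [Real.rpow_mul hPpos.le, Real.rpow_natCast]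
  have hQ0 : 0 ≤ (P ^ lam) ^ k := by positivity
  have hPk : P ^ (k : ℕ) = P ^ (lam * k) * P ^ ((1 - lam) * k) := by
    rw [← Real.rpow_add hPpos, ← Real.rpow_natCast]
    congr 1
    ring
  have hκP : κ * (P ^ lam) ^ k ≤ P ^ k / 4 := by
    rw [hQ, hPk]
    have h4 : 0 ≤ P ^ (lam * k) := by positivity
    nlinarith
  have ht : 0 ≤ σ - κ * (P ^ lam) ^ k := by linarith
  obtain ⟨n, ⟨w, hw⟩, hn1, hn2⟩ := hgr _ ht
  have hsum : n = ∑ j, (w j : ℝ) ^ k := by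
    first
    | exact hw.symm
    | exact hw
  refine ⟨w, ?_, ?_⟩
  · rw [← hsum]
    linarith
  · rw [← hsum]
    have h5 : K * (1 + (σ - κ * (P ^ lam) ^ k)) ^ ((1 - 1 / (k : ℝ)) ^ v) ≤ (P ^ lam) ^ k := by
      have h6 : (1 - 1 / (k : ℝ)) ^ v = θ := by
        rw [hθ]
        rfl
      rw [h6]
      have hP1 : 1 ≤ P ^ k := one_le_pow₀ h3
      have h7 : 1 + (σ - κ * (P ^ lam) ^ k) ≤ (2 ^ k + 2) * P ^ k := by
        have : 0 ≤ κ * (P ^ lam) ^ k := by positivity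
        linarith
      have h8 : (1 + (σ - κ * (P ^ lam) ^ k)) ^ θ ≤ ((2 ^ k + 2) * P ^ k) ^ θ :=
        Real.rpow_le_rpow (by linarith) h7 hθ0
      have h9 : ((2 ^ k + 2) * P ^ k : ℝ) ^ θ = (2 ^ k + 2) ^ θ * P ^ (k * θ) := by
        rw [Real.mul_rpow (by positivity) (by positivity), Real.rpow_mul hPpos.le,
          Real.rpow_natCast]
      have h10 : P ^ (lam * k) = P ^ ((lam - θ) * k) * P ^ (k * θ) := by
        rw [← Real.rpow_add hPpos]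
        congr 1
        ring
      calc K * (1 + (σ - κ * (P ^ lam) ^ k)) ^ θ ≤ K * ((2 ^ k + 2) ^ θ * P ^ (k * θ)) := by
            rw [← h9]
            exact mul_le_mul_of_nonneg_left h8 hK.le
        _ = (K * (2 ^ k + 2) ^ θ) * P ^ (k * θ) := by ring
        _ ≤ P ^ ((lam - θ) * k) * P ^ (k * θ) := mul_le_mul_of_nonneg_right h2 (by positivity)
        _ = _ := by rw [← h10, hQ]
    linarith

end Pool.H38.OP
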