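import Pool.Agent.H38.OP.Defs

/-!
# Module MBMONO: missed sets of nearby coefficient vectors

For an admissible index `x` (block variables `≤ M = (2p+2) Q`): `bval l x a - bval l x a0 = ∑_c (a c - a0 c) ps l x.2 c` (`ga_eq`), and
`0 ≤ ps l x.2 c ≤ n p M^(l+1+c)`. So `|bval l x a0 - τ| ≥ |bval l x a - τ| - (r - r') ≥ r'`.
-/

set_option autoImplicit false

namespace Pool.H38.OP

open MeasureTheory Set Pool.H19.Wa Pool.H48.Wt Pool.H19.Fc

theorem Mb_mono (l p n u : ℕ) (Q r r' : ℝ) (a a0 : Fin p → ℝ)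
    (h : ∑ c : Fin p, |a c - a0 c| * (n * p * ((2 * p + 2) * Q) ^ (l + 1 + (c : ℕ))) ≤ r - r') :
    Mb l p n u Q a r ⊆ Mb l p n u Q a0 r' := by
  intro τ hτ x hx
  have h1 : r ≤ |bval l x a - τ| := hτ x hx
  have h2 : bval l x a - bval l x a0 = ∑ c : Fin p, (a c - a0 c) * ps l x.2 (c : ℕ) := by
    unfold bval
    rw [ga_eq, ga_eq]
    have e : ∑ c : Fin p, (a c - a0 c) * ps l x.2 (c : ℕ) =
        ∑ c : Fin p, a c * ps l x.2 (c : ℕ) - ∑ c : Fin p, a0 c * ps l x.2 (c : ℕ) := by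
      rw [← Finset.sum_sub_distrib]
      exact Finset.sum_congr rfl fun c _ => by ring
    rw [e]
    ring
  have h3 : ∀ c : ℕ, 0 ≤ ps l x.2 c ∧ ps l x.2 c ≤ n * p * ((2 * p + 2) * Q) ^ (l + 1 + c) := by
    intro c
    unfold ps pl
    refine ⟨Finset.sum_nonneg fun i _ => Finset.sum_nonneg fun b _ => by positivity, ?_⟩
    calc ∑ i : Fin n, ∑ b : Fin p, (x.2 i b : ℝ) ^ (l + 1 + c)
        ≤ ∑ _i : Fin n, ∑ _b : Fin p, ((2 * p + 2) * Q) ^ (l + 1 + c) :=
          Finset.sum_le_sum fun i _ => Finset.sum_le_sum fun b _ =>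
            pow_le_pow_left₀ (Nat.cast_nonneg _) (hx i b) _
      _ = n * p * ((2 * p + 2) * Q) ^ (l + 1 + c) := by
          simp only [Finset.sum_const, Finset.card_univ, Fintype.card_fin, nsmul_eq_mul]
          ring
  have h4 : |bval l x a - bval l x a0| ≤ r - r' := by
    rw [h2]
    refine ((Finset.abs_sum_le_sum_abs _ _).trans (Finset.sum_le_sum fun c _ => ?_)).trans h
    rw [abs_mul, abs_of_nonneg (h3 (c : ℕ)).1]
    exact mul_le_mul_of_nonneg_left (h3 (c : ℕ)).2 (abs_nonneg _)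
  show r' ≤ |bval l x a0 - τ|
  have h5 := abs_sub_le (bval l x a) (bval l x a0) τ
  linarith

end Pool.H38.OP
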