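import Pool.Agent.H38.OP.Det
import Pool.Agent.H38.OP.Affine
import Pool.Agent.H38.OP.Chain2
import Pool.Agent.H38.OP.MbMono

/-!
# Module CELLSTEP: the missed set in one small cell

Let `k = l+1+p`, `Q = P^lam`. `P0` large: `P ≥ 4(p+1)`, `P ≥ 4 p A`, and `P0` of `chain2 k v` for `κ + 1`. Let `δ = ⌊P/(2(p+1))⌋₊` (so
`P/(4(p+1)) ≤ δ`, `p δ ≤ P/2`), `z_j = j δ : ℕ` for `j : Fin (p+1)`; `z_0 = 0`, `z_j - z_i ≥ δ` for `i < j`, `z_j ≤ P/2`.
(1) `|fa l p a0 z_j| ≤ (P/2)^k + A ∑_c (P/2)^(l+1+c) ≤ P^k/2 + p A P^(k-1) ≤ (3/4) P^k`, so `σ_j = t0 - fa l p a0 z_j ∈ [P^k/4, (2^k+1) P^k]`, and `chain2`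
gives `w_j` with `(κ+1) Q^k ≤ σ_j - ∑ w_j^k ≤ (κ+2) Q^k`. Choose `w : Fin (p+1) → Fin v → ℕ`.
(2) Let `x` be in the set, `a = fun c => x c.succ`, `q_j = x 0 - fa l p a z_j - ∑ w_j^k`. Then `|q_j - (σ_j - ∑ w_j^k)| ≤ |x 0 - t0| + ∑_c |a c - a0 c| z_j^(l+1+c)
≤ Q^k/(p+1) + ∑_c om c * P^(l+1+c) = Q^k/(p+1) + p Q^k/(p+1) = Q^k`, so `q_j ∈ [κ Q^k, (κ+3) Q^k]`, i.e. `q_j ∈ Wi l p κ Q`.
(3) `q_j ∈ Mb l p n u Q a r`: for an index `y : Ix p n u` apply `x 0 ∈ Mt` to `(y, w_j, z_j)`: `r ≤ |tval l (y, w_j, z_j) a - x 0| = |bval l y a - q_j|`. By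
`Mb_mono` (`|a c - a0 c| ≤ om`, the hypothesis; `(2p+2) P^lam ≥ 0`) `q_j ∈ Mb l p n u Q a0 r'`.
(4) `q_j = (Mz l p z).mulVec x j + b_j` with `b_j = -(z_j)^k - ∑ w_j^k` (`mulVec_Mz`, `fa`). `affine_vol` with `m = p+1`, `E = Mb .. ∩ Wi ..`, and
`det_lower`: `|det| ≥ δ^Σ ≥ (P/(4(p+1)))^Σ`, `Σ = ∑_(c<p)(l+1+c)`; so `|det|⁻¹ ≤ (4(p+1))^Σ/P^Σ`. `C = (4(p+1))^Σ`.
-/

set_option autoImplicit false

namespace Pool.H38.OP

open MeasureTheory Set Pool.H19.Wa Pool.H48.Wt Pool.H19.Fc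

/-- the size of `f_a` on `[0, P/2]` -/
private theorem cs_fa (l p : ℕ) (A P : ℝ) (hA : 0 ≤ A) (hP1 : 1 ≤ P) (hPA : 4 * p * A ≤ P) (a0 : Fin p → ℝ)
    (ha0 : ∀ c, |a0 c| ≤ A) (z : ℕ) (hz : (z : ℝ) ≤ P / 2) :
    |fa l p a0 z| ≤ 3 / 4 * P ^ (l + 1 + p) := by
  have hz0 : (0 : ℝ) ≤ z := Nat.cast_nonneg z
  have hP0 : 0 < P := by linarith
  unfold fa
  have h1 : (z : ℝ) ^ (l + 1 + p) ≤ 1 / 2 * P ^ (l + 1 + p) := by
    calc (z : ℝ) ^ (l + 1 + p) ≤ (P / 2) ^ (l + 1 + p) := pow_le_pow_left₀ hz0 hz _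
      _ = (1 / 2) ^ (l + 1 + p) * P ^ (l + 1 + p) := by rw [← mul_pow]; congr 1; ring
      _ ≤ (1 / 2) ^ 1 * P ^ (l + 1 + p) := by
          refine mul_le_mul_of_nonneg_right ?_ (by positivity)
          exact pow_le_pow_of_le_one (by norm_num) (by norm_num) (by omega)
      _ = _ := by ring
  have h2 : ∀ c : Fin p, |a0 c * (z : ℝ) ^ (l + 1 + (c : ℕ))| ≤ A * P ^ (l + p) := by
    intro c
    rw [abs_mul, abs_of_nonneg (by positivity : (0 : ℝ) ≤ (z : ℝ) ^ (l + 1 + (c : ℕ)))]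
    refine mul_le_mul (ha0 c) ?_ (by positivity) hA
    calc (z : ℝ) ^ (l + 1 + (c : ℕ)) ≤ P ^ (l + 1 + (c : ℕ)) := pow_le_pow_left₀ hz0 (by linarith) _
      _ ≤ P ^ (l + p) := pow_le_pow_right₀ hP1 (by have := c.isLt; omega)
  have h3 : |∑ c : Fin p, a0 c * (z : ℝ) ^ (l + 1 + (c : ℕ))| ≤ 1 / 4 * P ^ (l + 1 + p) := by
    calc |∑ c : Fin p, a0 c * (z : ℝ) ^ (l + 1 + (c : ℕ))|
        ≤ ∑ c : Fin p, |a0 c * (z : ℝ) ^ (l + 1 + (c : ℕ))| := Finset.abs_sum_le_sum_abs _ _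
      _ ≤ ∑ _c : Fin p, A * P ^ (l + p) := Finset.sum_le_sum fun c _ => h2 c
      _ = (p : ℝ) * A * P ^ (l + p) := by
          rw [Finset.sum_const, Finset.card_univ, Fintype.card_fin, nsmul_eq_mul]
          ring
      _ ≤ (1 / 4 * P) * P ^ (l + p) := mul_le_mul_of_nonneg_right (by linarith) (by positivity)
      _ = _ := by
          have : P ^ (l + 1 + p) = P ^ (l + p) * P := by rw [← pow_succ]; congr 1; omega
          rw [this]
          ring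
  refine (abs_add_le _ _).trans ?_
  rw [abs_of_nonneg (by positivity : (0 : ℝ) ≤ (z : ℝ) ^ (l + 1 + p))]
  linarith

theorem cell_step (l p n u v : ℕ) (hp : 1 ≤ p) (A κ lam : ℝ) (hA : 1 ≤ A) (hκ : 1 ≤ κ)
    (h1 : th (l + 1 + p) v < lam) (h2 : lam < 1) :
    ∃ C P0 : ℝ, 0 < C ∧ 1 ≤ P0 ∧ ∀ P : ℝ, P0 ≤ P → ∀ (t0 : ℝ) (a0 : Fin p → ℝ) (r r' : ℝ),
      P ^ (l + 1 + p) ≤ t0 → t0 ≤ 2 ^ (l + 1 + p) * P ^ (l + 1 + p) → (∀ c, |a0 c| ≤ A) →
      (∑ i : Fin p, om l p P (P ^ lam) i * (n * p * ((2 * p + 2) * P ^ lam) ^ (l + 1 + (i : ℕ))) ≤ r - r') →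
      volume {x : Fin (p + 1) → ℝ | x 0 ∈ Mt l p n u v (fun c => x c.succ) r ∧
          |x 0 - t0| ≤ (P ^ lam) ^ (l + 1 + p) / (p + 1) ∧
          ∀ c : Fin p, |x c.succ - a0 c| ≤ om l p P (P ^ lam) c} ≤
        ENNReal.ofReal (C / P ^ (∑ c ∈ Finset.range p, (l + 1 + c))) *
          volume (Mb l p n u (P ^ lam) a0 r' ∩ Wi l p κ (P ^ lam)) ^ (p + 1) := by
  have hk2 : 2 ≤ l + 1 + p := by omega
  obtain ⟨P3, hP3, hch⟩ := chain2 (l + 1 + p) v hk2 lam (κ + 1) h1 h2 (by linarith)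
  refine ⟨(4 * (p + 1)) ^ (∑ c ∈ Finset.range p, (l + 1 + c)), max P3 (max (4 * (p + 1)) (4 * p * A)),
    by positivity, hP3.trans (le_max_left _ _), fun P hP t0 a0 r r' ht1 ht2 ha0 hr => ?_⟩
  have hPP3 : P3 ≤ P := (le_max_left _ _).trans hP
  have hPp : 4 * ((p : ℝ) + 1) ≤ P := ((le_max_left _ _).trans (le_max_right _ _)).trans hP
  have hPA : 4 * p * A ≤ P := ((le_max_right _ _).trans (le_max_right _ _)).trans hP
  have hP1 : 1 ≤ P := hP3.trans hPP3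
  have hP0 : 0 < P := by linarith
  have hp0 : (0 : ℝ) < (p : ℝ) + 1 := by positivity
  set Sg : ℕ := ∑ c ∈ Finset.range p, (l + 1 + c) with hSg
  set k : ℕ := l + 1 + p with hk
  set Q : ℝ := P ^ lam with hQ
  have hQ0 : 0 < Q := Real.rpow_pos_of_pos hP0 _
  have hQk : 0 < Q ^ k := by positivity
  set δ : ℕ := ⌊P / (2 * ((p : ℝ) + 1))⌋₊ with hδ
  have hδ2 : (δ : ℝ) ≤ P / (2 * ((p : ℝ) + 1)) := Nat.floor_le (by positivity)
  have hδ1 : P / (4 * ((p : ℝ) + 1)) ≤ δ := by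
    have h3 : P / (2 * ((p : ℝ) + 1)) < (δ : ℝ) + 1 := Nat.lt_floor_add_one _
    have h4 : 1 ≤ P / (4 * ((p : ℝ) + 1)) := by
      rw [le_div_iff₀ (by positivity)]
      linarith
    have h5 : P / (2 * ((p : ℝ) + 1)) = P / (4 * ((p : ℝ) + 1)) + P / (4 * ((p : ℝ) + 1)) := by
      field_simp
      ring
    linarith
  have hδ0 : (0 : ℝ) < δ := lt_of_lt_of_le (by positivity) hδ1
  set z : Fin (p + 1) → ℕ := fun j => (j : ℕ) * δ with hz
  have hzr : ∀ j, ((z j : ℕ) : ℝ) = ((j : ℕ) : ℝ) * δ := by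
    intro j
    simp only [hz]
    push_cast
    ring
  have hz2 : ∀ j, ((z j : ℕ) : ℝ) ≤ P / 2 := by
    intro j
    rw [hzr]
    have h3 : ((j : ℕ) : ℝ) ≤ (p : ℝ) + 1 := by
      have : (j : ℕ) ≤ p + 1 := by have := j.isLt; omega
      exact_mod_cast this
    calc ((j : ℕ) : ℝ) * δ ≤ ((p : ℝ) + 1) * (P / (2 * ((p : ℝ) + 1))) :=
          mul_le_mul h3 hδ2 hδ0.le hp0.le
      _ = P / 2 := by field_simp
  -- (1)
  have hfa : ∀ j, |fa l p a0 (z j)| ≤ 3 / 4 * P ^ k := fun j =>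
    cs_fa l p A P (by linarith) hP1 hPA a0 ha0 (z j) (hz2 j)
  have hPk : 0 < P ^ k := by positivity
  have hσ : ∀ j, ∃ w : Fin v → ℕ, (κ + 1) * Q ^ k ≤ t0 - fa l p a0 (z j) - ∑ i, (w i : ℝ) ^ k ∧
      t0 - fa l p a0 (z j) - ∑ i, (w i : ℝ) ^ k ≤ (κ + 1 + 1) * Q ^ k := by
    intro j
    have h3 := abs_le.1 (hfa j)
    exact hch P hPP3 (t0 - fa l p a0 (z j)) (by linarith [h3.2]) (by linarith [h3.1])
  choose w hw1 hw2 using hσ
  set E : Set ℝ := Mb l p n u Q a0 r' ∩ Wi l p κ Q with hE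
  set T : Set (Fin (p + 1) → ℝ) := {x : Fin (p + 1) → ℝ | x 0 ∈ Mt l p n u v (fun c => x c.succ) r ∧
          |x 0 - t0| ≤ Q ^ k / (p + 1) ∧ ∀ c : Fin p, |x c.succ - a0 c| ≤ om l p P Q c} with hT
  have hom : ∀ c : Fin p, om l p P Q c * P ^ (l + 1 + (c : ℕ)) = Q ^ k / (p + 1) := by
    intro c
    have h3 : om l p P Q c = Q ^ k / ((p + 1) * P ^ (l + 1 + (c : ℕ))) := rfl
    rw [h3]
    field_simp
  have hom0 : ∀ c : Fin p, 0 ≤ om l p P Q c := by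
    intro c
    unfold om
    positivity
  have hmap : ∀ x ∈ T, ∀ j, (Mz l p (fun j => ((z j : ℕ) : ℝ))).mulVec x j +
      (-((z j : ℕ) : ℝ) ^ k - ∑ i, (w j i : ℝ) ^ k) ∈ E := by
    intro x hx j
    obtain ⟨hx1, hx2, hx3⟩ := hx
    set a : Fin p → ℝ := fun c => x c.succ with ha
    have hq : (Mz l p (fun j => ((z j : ℕ) : ℝ))).mulVec x j + (-((z j : ℕ) : ℝ) ^ k - ∑ i, (w j i : ℝ) ^ k) =
        x 0 - fa l p a (z j) - ∑ i, (w j i : ℝ) ^ k := by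
      rw [mulVec_Mz]
      unfold fa
      simp only [ha]
      ring
    rw [hq]
    refine ⟨?_, ?_⟩
    · -- missed by the base family
      have h3 : x 0 - fa l p a (z j) - ∑ i, (w j i : ℝ) ^ k ∈ Mb l p n u Q a r := by
        intro y _
        have h4 : r ≤ |tval l ((y, w j, z j) : Ix p n u × (Fin v → ℕ) × ℕ) a - x 0| := hx1 (y, w j, z j)
        have h5 : tval l ((y, w j, z j) : Ix p n u × (Fin v → ℕ) × ℕ) a - x 0 =
            bval l y a - (x 0 - fa l p a (z j) - ∑ i, (w j i : ℝ) ^ k) := by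
          unfold tval
          simp only [← hk]
          ring
        rw [h5] at h4
        exact h4
      refine Mb_mono l p n u Q r r' a a0 (le_trans ?_ hr) h3
      refine Finset.sum_le_sum fun c _ => ?_
      exact mul_le_mul_of_nonneg_right (hx3 c) (by positivity)
    · -- in the window
      have h3 : |(x 0 - fa l p a (z j)) - (t0 - fa l p a0 (z j))| ≤ Q ^ k := by
        have h4 : (x 0 - fa l p a (z j)) - (t0 - fa l p a0 (z j)) =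
            (x 0 - t0) - ∑ c : Fin p, (a c - a0 c) * ((z j : ℕ) : ℝ) ^ (l + 1 + (c : ℕ)) := by
          unfold fa
          simp only [sub_mul, Finset.sum_sub_distrib]
          ring
        rw [h4]
        have h5 : |∑ c : Fin p, (a c - a0 c) * ((z j : ℕ) : ℝ) ^ (l + 1 + (c : ℕ))| ≤
            p * (Q ^ k / (p + 1)) := by
          calc |∑ c : Fin p, (a c - a0 c) * ((z j : ℕ) : ℝ) ^ (l + 1 + (c : ℕ))|
              ≤ ∑ c : Fin p, |(a c - a0 c) * ((z j : ℕ) : ℝ) ^ (l + 1 + (c : ℕ))| :=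
                Finset.abs_sum_le_sum_abs _ _
            _ ≤ ∑ _c : Fin p, Q ^ k / (p + 1) := by
                refine Finset.sum_le_sum fun c _ => ?_
                rw [abs_mul, abs_of_nonneg (by positivity :
                  (0 : ℝ) ≤ ((z j : ℕ) : ℝ) ^ (l + 1 + (c : ℕ))), ← hom c]
                refine mul_le_mul (hx3 c) ?_ (by positivity) (hom0 c)
                exact pow_le_pow_left₀ (Nat.cast_nonneg _) (by linarith [hz2 j]) _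
            _ = _ := by rw [Finset.sum_const, Finset.card_univ, Fintype.card_fin, nsmul_eq_mul]
        have h6 : Q ^ k / ((p : ℝ) + 1) + p * (Q ^ k / (p + 1)) = Q ^ k := by
          field_simp
          ring
        calc |(x 0 - t0) - ∑ c : Fin p, (a c - a0 c) * ((z j : ℕ) : ℝ) ^ (l + 1 + (c : ℕ))|
            ≤ |x 0 - t0| + |∑ c : Fin p, (a c - a0 c) * ((z j : ℕ) : ℝ) ^ (l + 1 + (c : ℕ))| :=
              abs_sub _ _
          _ ≤ Q ^ k / (p + 1) + p * (Q ^ k / (p + 1)) := add_le_add hx2 h5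
          _ = _ := h6
      rw [abs_le] at h3
      have h7 := hw1 j
      have h8 := hw2 j
      have h9 : (κ + 3) * Q ^ k = (κ + 1 + 1) * Q ^ k + Q ^ k := by ring
      have h10 : (κ + 1) * Q ^ k = κ * Q ^ k + Q ^ k := by ring
      show _ ∈ Icc (κ * Q ^ k) ((κ + 3) * Q ^ k)
      constructor
      · linarith [h3.1]
      · linarith [h3.2]
  -- (4)
  have hdet := det_lower l p (fun j => ((z j : ℕ) : ℝ)) (δ : ℝ) hδ0 (by
      rw [hzr]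
      simp) (by
      intro i j hij
      rw [hzr, hzr]
      have h3 : ((i : ℕ) : ℝ) + 1 ≤ ((j : ℕ) : ℝ) := by
        have : (i : ℕ) + 1 ≤ (j : ℕ) := hij
        exact_mod_cast this
      nlinarith)
  have hdl : (P / (4 * ((p : ℝ) + 1))) ^ Sg ≤ |(Mz l p (fun j => ((z j : ℕ) : ℝ))).det| :=
    (pow_le_pow_left₀ (by positivity) hδ1 Sg).trans hdet
  have hdpos : 0 < (P / (4 * ((p : ℝ) + 1))) ^ Sg := by positivity
  have hdne : (Mz l p (fun j => ((z j : ℕ) : ℝ))).det ≠ 0 := by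
    intro h0
    rw [h0, abs_zero] at hdl
    linarith
  have hfin := affine_vol (p + 1) (Mz l p (fun j => ((z j : ℕ) : ℝ))) hdne E _ T hmap
  refine hfin.trans ?_
  refine mul_le_mul' (ENNReal.ofReal_le_ofReal ?_) le_rfl
  calc |(Mz l p (fun j => ((z j : ℕ) : ℝ))).det|⁻¹ ≤ ((P / (4 * ((p : ℝ) + 1))) ^ Sg)⁻¹ :=
        inv_anti₀ hdpos hdl
    _ = (4 * ((p : ℝ) + 1)) ^ Sg / P ^ Sg := by
        rw [div_pow, inv_div]

end Pool.H38.OP
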