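import Pool.Agent.H38.OP.Defs

/-!
# Module DET: the determinant of the map (τ, a) ↦ (τ - f_a(z_j))

Row `0` of `Mz l p z` is `(1, 0, .., 0)` since `z 0 = 0` and the exponents are at least `1`. So (`Matrix.det_succ_row_zero`, or
`Matrix.det_eq_...`) `det = det (of fun j c : Fin p => -(z j.succ)^(l+1+c))`, and
`-(z j.succ)^(l+1+c) = -(z j.succ)^(l+1) * (z j.succ)^c`, i.e. row `j` of the Vandermonde matrix of `z ∘ succ` times `-(z j.succ)^(l+1)`
(`Matrix.det_mul_column` / `Matrix.det_mul_row`, `Matrix.det_vandermonde`). Hence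
`|det| = ∏_j (z j.succ)^(l+1) * ∏_i ∏_(j > i) (z j.succ - z i.succ) ≥ δ^((l+1) p) δ^(p(p-1)/2)`, all factors being `≥ δ` (`h 0 j.succ`, `z 0 = 0`). The
exponent is `∑_(c<p) (l+1+c)` (the number of pairs `i < j` is `∑_(c<p) c`; e.g. `Finset.prod_le_prod` with `∏_i ∏_(j ∈ Ioi i) δ`, `Fin.card_Ioi`,
`Finset.sum_range_reflect`; or prove the lower bound of the Vandermonde product by induction on `p` with `Fin.prod_univ_succ`).
-/

set_option autoImplicit false

namespace Pool.H38.OP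

open MeasureTheory Set Pool.H19.Wa Pool.H48.Wt Pool.H19.Fc

noncomputable section

/-- the matrix of the linear part of `(τ, a) ↦ (τ - f_a(z_j))_j` -/
def Mz (l p : ℕ) (z : Fin (p + 1) → ℝ) : Matrix (Fin (p + 1)) (Fin (p + 1)) ℝ :=
  Matrix.of fun j => (Fin.cons 1 fun c : Fin p => -(z j) ^ (l + 1 + (c : ℕ)) : Fin (p + 1) → ℝ)

end

theorem mulVec_Mz (l p : ℕ) (z : Fin (p + 1) → ℝ) (x : Fin (p + 1) → ℝ) (j : Fin (p + 1)) :
    (Mz l p z).mulVec x j = x 0 - ∑ c : Fin p, x c.succ * z j ^ (l + 1 + (c : ℕ)) := by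
  unfold Mz Matrix.mulVec dotProduct
  rw [Fin.sum_univ_succ]
  simp only [Matrix.of_apply, Fin.cons_zero, Fin.cons_succ, one_mul]
  rw [sub_eq_add_neg, ← Finset.sum_neg_distrib]
  congr 1
  refine Finset.sum_congr rfl fun c _ => ?_
  ring

private theorem det_eq (l p : ℕ) (z : Fin (p + 1) → ℝ) (h0 : z 0 = 0) :
    (Mz l p z).det = (∏ i : Fin p, -(z i.succ) ^ (l + 1)) *
      ∏ i : Fin p, ∏ j ∈ Finset.Ioi i, (z j.succ - z i.succ) := by
  rw [Matrix.det_succ_row_zero, Finset.sum_eq_single 0]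
  · have h1 : (Mz l p z).submatrix Fin.succ (Fin.succAbove 0) =
        Matrix.of (fun i c : Fin p => -(z i.succ) ^ (l + 1) *
          Matrix.vandermonde (fun i : Fin p => z i.succ) i c) := by
      ext i c
      simp only [Matrix.submatrix_apply, Fin.succAbove_zero, Mz, Matrix.of_apply, Fin.cons_succ,
        Matrix.vandermonde_apply]
      rw [pow_add]
      ring
    rw [h1, Matrix.det_mul_column, Matrix.det_vandermonde]
    simp only [Fin.val_zero, pow_zero, one_mul, Mz, Matrix.of_apply, Fin.cons_zero]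
  · intro j _ hj
    obtain ⟨c, rfl⟩ := Fin.exists_succ_eq.2 hj
    have h2 : Mz l p z 0 c.succ = 0 := by
      simp only [Mz, Matrix.of_apply, Fin.cons_succ, h0]
      rw [zero_pow (by omega), neg_zero]
    rw [h2, mul_zero, zero_mul]
  · intro h
    exact absurd (Finset.mem_univ _) h

theorem det_lower (l p : ℕ) (z : Fin (p + 1) → ℝ) (δ : ℝ) (hδ : 0 < δ) (h0 : z 0 = 0)
    (h : ∀ i j : Fin (p + 1), i < j → δ ≤ z j - z i) :
    δ ^ (∑ c ∈ Finset.range p, (l + 1 + c)) ≤ |(Mz l p z).det| := by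
  have hz : ∀ i : Fin p, δ ≤ z i.succ := by
    intro i
    have := h 0 i.succ (Fin.succ_pos i)
    rw [h0, sub_zero] at this
    exact this
  have hz2 : ∀ i j : Fin p, i < j → δ ≤ z j.succ - z i.succ := fun i j hij =>
    h _ _ (Fin.succ_lt_succ_iff.2 hij)
  rw [det_eq l p z h0, abs_mul, Finset.abs_prod, Finset.abs_prod]
  have e1 : ∑ c ∈ Finset.range p, (l + 1 + c) = (l + 1) * p + ∑ i : Fin p, (Finset.Ioi i).card := by
    rw [Finset.sum_add_distrib, Finset.sum_const, Finset.card_range, smul_eq_mul, mul_comm p]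
    congr 1
    simp only [Fin.card_Ioi]
    rw [Fin.sum_univ_eq_sum_range (fun c => p - 1 - c) p,
      Finset.sum_range_reflect (fun c => c) p]
  rw [e1, pow_add]
  refine mul_le_mul ?_ ?_ (by positivity) (Finset.prod_nonneg fun _ _ => abs_nonneg _)
  · have h1 : δ ^ ((l + 1) * p) = ∏ _i : Fin p, δ ^ (l + 1) := by
      rw [Finset.prod_const, Finset.card_univ, Fintype.card_fin, pow_mul]
    rw [h1]
    refine Finset.prod_le_prod (fun _ _ => by positivity) fun i _ => ?_
    rw [abs_neg, abs_pow]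
    refine pow_le_pow_left₀ hδ.le ((hz i).trans (le_abs_self _)) _
  · rw [← Finset.prod_pow_eq_pow_sum]
    refine Finset.prod_le_prod (fun _ _ => by positivity) fun i _ => ?_
    rw [Finset.abs_prod, ← Finset.prod_const]
    refine Finset.prod_le_prod (fun _ _ => hδ.le) fun j hj => ?_
    exact (hz2 i j (Finset.mem_Ioi.1 hj)).trans (le_abs_self _)

end Pool.H38.OP
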