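import Mathlib

/-!
# Module TILE: adding up the windows

Replace `C` by `|C|`. For `X ≥ 1`: `V ∩ Icc 1 X ⊆ Icc 0 (κ s^J) ∪ ⋃_(j ∈ Finset.Icc J M) (V ∩ Icc (κ s^j) (κ s^(j+1)))` with `M` the largest `j` with
`s^j ≤ X` (`exists_nat_pow_near`: `s^M ≤ X < s^(M+1)`; a point `τ ∈ (κ s^J, X]` has `τ/κ ∈ [s^j, s^(j+1))` for some `j`, `J ≤ j`, and `s^j ≤ τ/κ ≤ X`, so
`j ≤ M`). So the volume is at most `κ s^J + |C| ∑_(j ≤ M) (s^η)^j ≤ κ s^J + |C| (s^η)^(M+1)/(s^η - 1) ≤ κ s^J + |C| s^η X^η/(s^η - 1)`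
(`(s^j)^η = (s^η)^j`, `geom_sum_eq`, `s^η > 1`), and `1 ≤ X^η`. `C' = κ s^J + |C| s^η/(s^η - 1)`.
-/

set_option autoImplicit false

namespace Pool.H38.OP

open MeasureTheory Set

theorem tile_sum (V : Set ℝ) (κ s η C : ℝ) (J : ℕ) (hκ : 1 ≤ κ) (hs : 1 < s) (hη : 0 < η)
    (h : ∀ j : ℕ, J ≤ j → volume (V ∩ Icc (κ * s ^ j) (κ * s ^ (j + 1))) ≤ ENNReal.ofReal (C * (s ^ j) ^ η)) :
    ∃ C' : ℝ, ∀ X : ℝ, 1 ≤ X → volume (V ∩ Icc 1 X) ≤ ENNReal.ofReal (C' * X ^ η) := by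
  have hs0 : 0 < s := by linarith
  have hκ0 : 0 < κ := by linarith
  have hq1 : 1 < s ^ η := Real.one_lt_rpow hs hη
  have hq0 : 0 < s ^ η - 1 := by linarith
  refine ⟨κ * s ^ J + |C| * s ^ η / (s ^ η - 1), fun X hX => ?_⟩
  obtain ⟨M, hM1, hM2⟩ := exists_nat_pow_near hX hs
  have hsub : V ∩ Icc 1 X ⊆ Icc 0 (κ * s ^ J) ∪
      ⋃ j ∈ Finset.Icc J M, (V ∩ Icc (κ * s ^ j) (κ * s ^ (j + 1))) := by
    rintro τ ⟨hV, h1, h2⟩
    by_cases ht : τ ≤ κ * s ^ J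
    · left
      exact ⟨by linarith, ht⟩
    · right
      push Not at ht
      have h3 : s ^ J < τ / κ := by
        rw [lt_div_iff₀ hκ0]
        linarith [mul_comm κ (s ^ J)]
      have h4 : 1 ≤ τ / κ := by
        have : (1 : ℝ) ≤ s ^ J := one_le_pow₀ hs.le
        linarith
      obtain ⟨j, hj1, hj2⟩ := exists_nat_pow_near h4 hs
      have hJj : J ≤ j := by
        by_contra hc
        push Not at hc
        have : s ^ (j + 1) ≤ s ^ J := pow_le_pow_right₀ hs.le hc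
        linarith
      have hjM : j ≤ M := by
        by_contra hc
        push Not at hc
        have h5 : s ^ (M + 1) ≤ s ^ j := pow_le_pow_right₀ hs.le hc
        have h6 : τ / κ ≤ τ := div_le_self (by linarith) hκ
        linarith
      simp only [Set.mem_iUnion]
      refine ⟨j, Finset.mem_Icc.2 ⟨hJj, hjM⟩, hV, ?_, ?_⟩
      · rw [le_div_iff₀ hκ0] at hj1
        linarith
      · rw [div_lt_iff₀ hκ0] at hj2
        linarith
  have hpow : ∀ j : ℕ, (s ^ j) ^ η = (s ^ η) ^ j := by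
    intro j
    rw [← Real.rpow_natCast, ← Real.rpow_mul hs0.le, mul_comm, Real.rpow_mul hs0.le, Real.rpow_natCast]
  have hX0 : 0 < X := by linarith
  have hX1 : 1 ≤ X ^ η := Real.one_le_rpow hX hη.le
  have hMX : (s ^ η) ^ M ≤ X ^ η := by
    rw [← hpow]
    exact Real.rpow_le_rpow (by positivity) hM1 hη.le
  have hgeo : ∑ j ∈ Finset.Icc J M, |C| * (s ^ η) ^ j ≤ |C| * s ^ η / (s ^ η - 1) * X ^ η := by
    have h1 : ∑ j ∈ Finset.Icc J M, |C| * (s ^ η) ^ j ≤ ∑ j ∈ Finset.range (M + 1), |C| * (s ^ η) ^ j := by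
      apply Finset.sum_le_sum_of_subset_of_nonneg
      · intro j hj
        rw [Finset.mem_Icc] at hj
        exact Finset.mem_range.2 (by omega)
      · intro j _ _
        positivity
    refine h1.trans ?_
    rw [← Finset.mul_sum, geom_sum_eq hq1.ne', pow_succ]
    have h2 : ((s ^ η) ^ M * s ^ η - 1) / (s ^ η - 1) ≤ s ^ η / (s ^ η - 1) * X ^ η := by
      rw [div_mul_eq_mul_div]
      apply div_le_div_of_nonneg_right _ hq0.le
      nlinarith [mul_le_mul_of_nonneg_right hMX (by linarith : (0 : ℝ) ≤ s ^ η)]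
    calc |C| * (((s ^ η) ^ M * s ^ η - 1) / (s ^ η - 1)) ≤ |C| * (s ^ η / (s ^ η - 1) * X ^ η) :=
          mul_le_mul_of_nonneg_left h2 (abs_nonneg _)
      _ = |C| * s ^ η / (s ^ η - 1) * X ^ η := by ring
  calc volume (V ∩ Icc 1 X) ≤ volume (Icc 0 (κ * s ^ J) ∪
        ⋃ j ∈ Finset.Icc J M, (V ∩ Icc (κ * s ^ j) (κ * s ^ (j + 1)))) := measure_mono hsub
    _ ≤ volume (Icc 0 (κ * s ^ J)) +
        volume (⋃ j ∈ Finset.Icc J M, (V ∩ Icc (κ * s ^ j) (κ * s ^ (j + 1)))) := measure_union_le _ _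
    _ ≤ ENNReal.ofReal (κ * s ^ J) + ∑ j ∈ Finset.Icc J M, volume (V ∩ Icc (κ * s ^ j) (κ * s ^ (j + 1))) := by
        refine add_le_add ?_ (measure_biUnion_finset_le _ _)
        rw [Real.volume_Icc, sub_zero]
    _ ≤ ENNReal.ofReal (κ * s ^ J) + ∑ j ∈ Finset.Icc J M, ENNReal.ofReal (|C| * (s ^ η) ^ j) := by
        refine add_le_add le_rfl (Finset.sum_le_sum fun j hj => ?_)
        refine (h j (Finset.mem_Icc.1 hj).1).trans (ENNReal.ofReal_le_ofReal ?_)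
        rw [hpow]
        exact mul_le_mul_of_nonneg_right (le_abs_self C) (by positivity)
    _ = ENNReal.ofReal (κ * s ^ J + ∑ j ∈ Finset.Icc J M, |C| * (s ^ η) ^ j) := by
        rw [ENNReal.ofReal_add (by positivity) (Finset.sum_nonneg fun j _ => by positivity),
          ENNReal.ofReal_sum_of_nonneg fun j _ => by positivity]
    _ ≤ ENNReal.ofReal ((κ * s ^ J + |C| * s ^ η / (s ^ η - 1)) * X ^ η) := by
        apply ENNReal.ofReal_le_ofReal
        have h7 : κ * s ^ J ≤ κ * s ^ J * X ^ η := le_mul_of_one_le_right (by positivity) hX1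
        nlinarith [hgeo, h7]

end Pool.H38.OP
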