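import Pool.Agent.H38.OP.AEBase
import Pool.Agent.H38.OP.Tile

/-!
# Module MAINI: almost all targets for almost every coefficient vector

Let `k = l+1+p`, `e1 = min (e0 l p n u) k > 0`, `c = ε = e1/8`, `E = k - e1/2` (so `k - e0 + c + ε < E` and `0 < E`), and the exponent of the
statement `c' = e1/(16 k)` (`< 1`; `c' k < c`, `E/k ≤ 1 - c'`). For every natural `A ≥ 1`: `base_int2` gives `κ ≥ 1`, `C, Q0`. Let `s = (κ+3)/κ > 1`, `μ = s^(1/k)`,
so `μ > 1`, `(μ^j)^k = s^j` and `Wi l p κ (μ^j) = Icc (κ s^j) (κ s^(j+1))` (`(κ+3) s^j = κ s^(j+1)`). `ae_base` gives, for almost every `a ∈ Ba p A`, `C'`. Let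
`V = {τ | ∀ x, τ^(-c') ≤ |bval l x a - τ|}`. For `τ ∈ V ∩ Wi l p κ (μ^j)`: `0 < τ ≤ (κ+3)(μ^j)^k`, so `τ^(-c') ≥ (κ+3)^(-c') (μ^j)^(-(k c')) ≥ (μ^j)^(-c)` for `j ≥ J`
(`k c' < c`, `μ^j → ∞`); hence `τ ∈ Mb l p n u (μ^j) a ((μ^j)^(-c))`. So `volume (V ∩ Icc (κ s^j) (κ s^(j+1))) ≤ ofReal (C' (μ^j)^E) = ofReal (C' (s^j)^(E/k))`
(`μ^j = (s^j)^(1/k)`), and `tile_sum` with `η = E/k > 0`; finally `X^(E/k) ≤ X^(1-c')` for `X ≥ 1` (`C'` may be replaced by `max C' 0`). All `A`: `ae_all_iff`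
as in MAINII.
-/

set_option autoImplicit false

namespace Pool.H38.OP

open MeasureTheory Set Pool.H19.Wa Pool.H48.Wt Pool.H19.Fc

/-- every coefficient vector lies in a box -/
private theorem m1_box {p : ℕ} (a : Fin p → ℝ) : ∃ A : ℕ, a ∈ Ba p ((A : ℝ) + 1) := by
  obtain ⟨A, hA⟩ := exists_nat_ge (∑ i, |a i|)
  refine ⟨A, mem_Ba.2 fun i => ?_⟩
  have h1 : |a i| ≤ ∑ i, |a i| := Finset.single_le_sum (f := fun i => |a i|) (fun i _ => abs_nonneg _)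
    (Finset.mem_univ i)
  linarith

/-- one box -/
private theorem m1_one (l p n u : ℕ) (hp : 1 ≤ p) (hn : 1 ≤ n) (A e1 : ℝ) (hA : 1 ≤ A)
    (hθ : ((l + 1 + p : ℕ) : ℝ) * th (l + 1 + p) u < ((l : ℝ) + 1) * rh l ^ n) (he1 : 0 < e1)
    (he10 : e1 ≤ e0 l p n u) (he1k : e1 ≤ ((l + 1 + p : ℕ) : ℝ)) :
    ∀ᵐ a ∂((volume : Measure (Fin p → ℝ)).restrict (Ba p A)), ∃ C : ℝ, ∀ X : ℝ, 1 ≤ X →
      volume ({τ : ℝ | ∀ x : Ix p n u, τ ^ (-(e1 / (16 * ((l + 1 + p : ℕ) : ℝ)))) ≤ |bval l x a - τ|} ∩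
        Icc 1 X) ≤ ENNReal.ofReal (C * X ^ (1 - e1 / (16 * ((l + 1 + p : ℕ) : ℝ)))) := by
  obtain ⟨κ, hκ, hbase⟩ := base_int2 l p n u hp hn A hA hθ
  obtain ⟨C, Q0, hC, hQ0, hb⟩ := hbase (e1 / 8) (e1 / 8) (by positivity) (by positivity)
  obtain ⟨K, hK⟩ : ∃ K : ℕ, K = l + 1 + p := ⟨_, rfl⟩
  rw [← hK] at he1k hθ ⊢
  have hK0 : (0 : ℝ) < (K : ℝ) := by
    rw [hK]
    positivity
  have hKne : (K : ℝ) ≠ 0 := hK0.ne'
  set s : ℝ := (κ + 3) / κ with hs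
  have hκ0 : 0 < κ := by linarith
  have hs1 : 1 < s := by
    rw [hs, lt_div_iff₀ hκ0]
    linarith
  have hs0 : 0 < s := by linarith
  set μ : ℝ := s ^ (1 / (K : ℝ)) with hμ
  have hμ1 : 1 < μ := Real.one_lt_rpow hs1 (by positivity)
  have hμ0 : 0 < μ := by linarith
  have hμK : ∀ j : ℕ, (μ ^ j) ^ K = s ^ j := by
    intro j
    rw [← pow_mul, mul_comm j K, pow_mul]
    congr 1
    rw [hμ, ← Real.rpow_natCast, ← Real.rpow_mul hs0.le, one_div, inv_mul_cancel₀ hKne, Real.rpow_one]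
  have hμj : ∀ j : ℕ, μ ^ j = (s ^ j) ^ (1 / (K : ℝ)) := by
    intro j
    rw [← hμK j, one_div]
    exact (Real.pow_rpow_inv_natCast (by positivity) (by omega)).symm
  have hWi : ∀ j : ℕ, Wi l p κ (μ ^ j) = Icc (κ * s ^ j) (κ * s ^ (j + 1)) := by
    intro j
    unfold Wi
    rw [← hK, hμK, pow_succ]
    congr 1
    rw [hs]
    field_simp
  set E : ℝ := (K : ℝ) - e1 / 2 with hE
  have hEpos : 0 < E := by
    rw [hE]
    linarith
  have hae := ae_base l p n u A κ (e1 / 8) (e1 / 8) C Q0 μ E hQ0 hC hμ1 hb (by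
    rw [hE, ← hK]
    linarith)
  filter_upwards [hae] with a ha
  obtain ⟨C1, hC1, hC1j⟩ := ha
  set c' : ℝ := e1 / (16 * (K : ℝ)) with hc'
  have hc'0 : 0 < c' := by positivity
  have hKc' : (K : ℝ) * c' = e1 / 16 := by
    rw [hc']
    field_simp
  set V : Set ℝ := {τ : ℝ | ∀ x : Ix p n u, τ ^ (-c') ≤ |bval l x a - τ|} with hV
  obtain ⟨J, hJ⟩ := Filter.eventually_atTop.1
    ((tendsto_pow_atTop_atTop_of_one_lt (Real.one_lt_rpow hμ1 (by positivity : 0 < e1 / 16))).eventually_ge_atTop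
      ((κ + 3) ^ c'))
  have htile := tile_sum V κ s (E / K) C1 J hκ hs1 (by positivity) (by
    intro j hj
    rw [← hWi j]
    have h2 : V ∩ Wi l p κ (μ ^ j) ⊆ Mb l p n u (μ ^ j) a ((μ ^ j) ^ (-(e1 / 8))) ∩ Wi l p κ (μ ^ j) := by
      rintro τ ⟨hτV, hτW⟩
      refine ⟨fun x _ => ?_, hτW⟩
      refine le_trans ?_ (hτV x)
      have h3 : 0 < s ^ j := by positivity
      have h4 : τ ∈ Icc (κ * s ^ j) (κ * s ^ (j + 1)) := by
        rw [← hWi j]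
        exact hτW
      have h5 : κ * s ^ (j + 1) = (κ + 3) * s ^ j := by
        rw [pow_succ, hs]
        field_simp
      have h6 : 0 < τ := lt_of_lt_of_le (by positivity) h4.1
      have h7 : ((κ + 3) * s ^ j) ^ (-c') ≤ τ ^ (-c') :=
        Real.rpow_le_rpow_of_nonpos h6 (by rw [← h5]; exact h4.2) (by linarith)
      refine le_trans ?_ h7
      rw [Real.mul_rpow (by linarith) h3.le]
      have h8 : (s ^ j) ^ (-c') = (μ ^ j) ^ (-(e1 / 16)) := by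
        rw [← hμK j, ← Real.rpow_natCast, ← Real.rpow_mul (by positivity)]
        congr 1
        rw [mul_neg, hKc']
      have h9 : (κ + 3) ^ (-c') = ((κ + 3) ^ c')⁻¹ := Real.rpow_neg (by linarith) _
      have h10 : (μ ^ j) ^ (-(e1 / 8)) = ((μ ^ j) ^ (e1 / 16))⁻¹ * (μ ^ j) ^ (-(e1 / 16)) := by
        rw [← Real.rpow_neg (by positivity), ← Real.rpow_add (by positivity)]
        congr 1
        ring
      rw [h8, h9, h10]
      refine mul_le_mul_of_nonneg_right ?_ (by positivity)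
      refine inv_anti₀ (Real.rpow_pos_of_pos (by linarith) _) ?_
      have h11 := hJ j hj
      refine h11.trans (le_of_eq ?_)
      rw [← Real.rpow_natCast (μ ^ (e1 / 16)) j, ← Real.rpow_mul hμ0.le, ← Real.rpow_natCast μ j,
        ← Real.rpow_mul hμ0.le]
      congr 1
      ring
    refine (measure_mono h2).trans ((hC1j j).trans (ENNReal.ofReal_le_ofReal (le_of_eq ?_)))
    congr 1
    rw [hμj j, ← Real.rpow_mul (by positivity)]
    congr 1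
    ring)
  obtain ⟨C2, hC2⟩ := htile
  refine ⟨max C2 0, fun X hX => (hC2 X hX).trans (ENNReal.ofReal_le_ofReal ?_)⟩
  have hX0 : 0 < X := by linarith
  calc C2 * X ^ (E / K) ≤ max C2 0 * X ^ (E / K) :=
        mul_le_mul_of_nonneg_right (le_max_left _ _) (Real.rpow_nonneg hX0.le _)
    _ ≤ max C2 0 * X ^ (1 - c') := by
        refine mul_le_mul_of_nonneg_left ?_ (le_max_right _ _)
        refine Real.rpow_le_rpow_of_exponent_le hX ?_
        have h3 : E / K = 1 - 8 * c' := by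
          rw [hE, hc']
          field_simp
          ring
        rw [h3]
        linarith

theorem main_I (l p n u : ℕ) (hp : 1 ≤ p) (hn : 1 ≤ n)
    (hθ : ((l + 1 + p : ℕ) : ℝ) * th (l + 1 + p) u < ((l : ℝ) + 1) * rh l ^ n) (h1 : 0 < e0 l p n u) :
    ∃ c : ℝ, 0 < c ∧ c < 1 ∧ ∀ᵐ a : Fin p → ℝ, ∃ C : ℝ, ∀ X : ℝ, 1 ≤ X →
      volume ({τ : ℝ | ∀ x : Ix p n u, τ ^ (-c) ≤ |bval l x a - τ|} ∩ Icc 1 X) ≤
        ENNReal.ofReal (C * X ^ (1 - c)) := by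
  set K : ℝ := ((l + 1 + p : ℕ) : ℝ) with hK
  have hK0 : 0 < K := by
    rw [hK]
    positivity
  have he1 : 0 < min (e0 l p n u) K := lt_min h1 hK0
  have he1k : min (e0 l p n u) K ≤ K := min_le_right _ _
  refine ⟨min (e0 l p n u) K / (16 * K), by positivity, ?_, ?_⟩
  · rw [div_lt_one (by positivity)]
    linarith
  have hall : ∀ A : ℕ, ∀ᵐ a : Fin p → ℝ, a ∈ Ba p ((A : ℝ) + 1) → ∃ C : ℝ, ∀ X : ℝ, 1 ≤ X →
      volume ({τ : ℝ | ∀ x : Ix p n u, τ ^ (-(min (e0 l p n u) K / (16 * K))) ≤ |bval l x a - τ|} ∩ Icc 1 X) ≤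
        ENNReal.ofReal (C * X ^ (1 - min (e0 l p n u) K / (16 * K))) := by
    intro A
    rw [← ae_restrict_iff' (measurableSet_Ba _ _)]
    exact m1_one l p n u hp hn ((A : ℝ) + 1) (min (e0 l p n u) K) (by
      have : (0 : ℝ) ≤ A := Nat.cast_nonneg A
      linarith) hθ he1 (min_le_left _ _) he1k
  filter_upwards [ae_all_iff.mpr hall] with a ha
  obtain ⟨A, hA⟩ := m1_box a
  exact ha A hA

end Pool.H38.OP
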