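import Mathlib

/-!
# Module NUMA: the numbers for sixteen coefficients, k ≥ 200

`u = (7k+39)/40 ≥ 7k/40`, `v = (37k+49)/50 ≥ 37k/50`, `n = (k+15)/16`, `k/16 ≤ n ≤ (k+15)/16` (natural division; `omega`, `Nat.cast`). `k ≥ 200` real.
* `(1-1/k)^u ≤ exp(-u/k) ≤ exp(-7/40) < 0.8395` and `(1-1/k)^v ≤ exp(-37/50) < 0.4772` (`Real.one_sub_le_exp_neg` or
`Real.add_one_le_exp`, `Real.exp_nat_mul`; for the numbers `Real.exp_bound'` or `exp(7/40) > 1/0.8395` from the partial sum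
`Real.quadratic_le_exp_of_nonneg`-type bounds: `exp x ≥ 1 + x + x^2/2 + x^3/6 + x^4/24` (`Real.sum_le_exp_of_nonneg`):
`x = .175`: `1.19124 > 1/.8395 = 1.19119`; `x = .74`: up to `x^6/720`: `2.09590 > 1/.4772 = 2.09556`).
* `ρ^n = ((k-17)/(k-16))^n = (1 - 1/(k-16))^n ≤ exp(-n/(k-16)) ≤ exp(-z)`, `z = k/(16(k-16))`, and `exp(-z) ≤ 1 - z + z^2/2` (for `z ≥ 0`;
from `exp(z)(1 - z + z^2/2) ≥ 1`, or `Real.exp_bound'`), so `16 (k-16)(1-ρ^n) ≥ k - k^2/(32 (k-16))`. Bernoulli (`one_add_mul_le_pow`): `ρ^n ≥ 1 - n/(k-16)`.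
(1) `k (1-1/k)^u < .8395 k < k - 16 - (k+15)/16 ≤ (k-16) ρ^n` (`k > 172.9`).
(2) `(2k-16) k < 17 (k-16) (k - k^2/(32(k-16)) - .8395 k)`: divide by `k`: `2k - 16 < 17 (.1605 (k-16) - k/32)`, i.e. `27.66 < .1972 k`.
(3) `(2k-16) (.4772) < k - 16`: `8.3648 < .0456 k`, `k > 183.5`.
-/

set_option autoImplicit false

namespace Pool.H38.OP

private theorem pow_exp (K x : ℝ) (hK : 1 ≤ K) (m : ℕ) (hm : x * K ≤ m) :
    (1 - 1 / K) ^ m ≤ Real.exp (-x) := by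
  have hK0 : 0 < K := by linarith
  have h0 : 0 ≤ 1 - 1 / K := by
    rw [sub_nonneg, div_le_one hK0]
    exact hK
  have h1 : 1 - 1 / K ≤ Real.exp (-(1 / K)) := by
    have := Real.add_one_le_exp (-(1 / K))
    linarith
  have h2 : (1 - 1 / K) ^ m ≤ Real.exp (-(1 / K)) ^ m := pow_le_pow_left₀ h0 h1 m
  rw [← Real.exp_nat_mul] at h2
  refine h2.trans (Real.exp_le_exp.2 ?_)
  have h3 : x ≤ m / K := by
    rw [le_div_iff₀ hK0]
    exact hm
  have h4 : (m : ℝ) * -(1 / K) = -(m / K) := by ring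
  rw [h4]
  linarith

private theorem exp_neg_lt (x c : ℝ) (hc : 0 < c) (h : 1 / c < Real.exp x) : Real.exp (-x) < c := by
  rw [Real.exp_neg, inv_lt_comm₀ (Real.exp_pos x) hc, ← one_div]
  exact h

private theorem exp_neg_le (z : ℝ) (hz : 0 ≤ z) : Real.exp (-z) ≤ 1 - z + z ^ 2 / 2 := by
  have h1 := Real.quadratic_le_exp_of_nonneg hz
  have h2 : 0 < 1 - z + z ^ 2 / 2 := by nlinarith [sq_nonneg (z - 1)]
  rw [Real.exp_neg, inv_le_comm₀ (Real.exp_pos z) h2]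
  refine le_trans ?_ h1
  rw [inv_le_iff_one_le_mul₀ h2]
  nlinarith [sq_nonneg (z ^ 2)]

private theorem num_r (K : ℝ) (hK : 200 ≤ K) (n : ℕ) (h1 : K ≤ 16 * n) (h2 : 16 * (n : ℝ) ≤ K + 15) :
    K - 16 - (K + 15) / 16 ≤ (K - 16) * ((K - 17) / (K - 16)) ^ n ∧
      K - K ^ 2 / (32 * (K - 16)) ≤ (K - 16) * 16 * (1 - ((K - 17) / (K - 16)) ^ n) := by
  have hp : 0 < K - 16 := by linarith
  have hr : (K - 17) / (K - 16) = 1 - 1 / (K - 16) := by
    field_simp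
    ring
  rw [hr]
  have hinv : 1 / (K - 16) ≤ 1 := by
    rw [div_le_one hp]
    linarith
  constructor
  · have h3 : (-2 : ℝ) ≤ -(1 / (K - 16)) := by linarith
    have h4 := one_add_mul_le_pow h3 n
    have h5 : 1 - (n : ℝ) / (K - 16) ≤ (1 - 1 / (K - 16)) ^ n := by
      have e1 : 1 + (n : ℝ) * -(1 / (K - 16)) = 1 - (n : ℝ) / (K - 16) := by ring
      have e2 : (1 : ℝ) + -(1 / (K - 16)) = 1 - 1 / (K - 16) := by ring
      rw [e1, e2] at h4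
      exact h4
    have h6 := mul_le_mul_of_nonneg_left h5 hp.le
    have h7 : (K - 16) * (1 - (n : ℝ) / (K - 16)) = K - 16 - n := by
      field_simp
    rw [h7] at h6
    linarith
  · obtain ⟨z, hz⟩ : ∃ z, z = K / (16 * (K - 16)) := ⟨_, rfl⟩
    have hz0 : 0 ≤ z := by
      rw [hz]
      positivity
    have hzn : z * (K - 16) ≤ n := by
      rw [hz]
      have : K / (16 * (K - 16)) * (K - 16) = K / 16 := by field_simp
      rw [this]
      linarith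
    have h3 := pow_exp (K - 16) z (by linarith) n hzn
    have h4 := exp_neg_le z hz0
    have h5 : z - z ^ 2 / 2 ≤ 1 - (1 - 1 / (K - 16)) ^ n := by linarith
    have h6 := mul_le_mul_of_nonneg_left h5 (by linarith : 0 ≤ (K - 16) * 16)
    refine le_trans (le_of_eq ?_) h6
    rw [hz]
    field_simp
    ring

private theorem num_e1 : Real.exp (-(7 / 40)) < 8395 / 10000 := by
  refine exp_neg_lt _ _ (by norm_num) ?_
  refine lt_of_lt_of_le ?_ (Real.sum_le_exp_of_nonneg (by norm_num : (0 : ℝ) ≤ 7 / 40) 5)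
  norm_num [Finset.sum_range_succ, Nat.factorial]

private theorem num_e2 : Real.exp (-(37 / 50)) < 4772 / 10000 := by
  refine exp_neg_lt _ _ (by norm_num) ?_
  refine lt_of_lt_of_le ?_ (Real.sum_le_exp_of_nonneg (by norm_num : (0 : ℝ) ≤ 37 / 50) 7)
  norm_num [Finset.sum_range_succ, Nat.factorial]

theorem num_A (k : ℕ) (hk : 200 ≤ k) :
    (k : ℝ) * (1 - 1 / (k : ℝ)) ^ ((7 * k + 39) / 40) <
      ((k : ℝ) - 16) * (((k : ℝ) - 17) / ((k : ℝ) - 16)) ^ ((k + 15) / 16) ∧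
    ((k : ℝ) + ((k : ℝ) - 16)) * k < ((k : ℝ) - 16) * (16 + 1) *
      (((k : ℝ) - 16) * 16 * (1 - (((k : ℝ) - 17) / ((k : ℝ) - 16)) ^ ((k + 15) / 16)) -
        k * (1 - 1 / (k : ℝ)) ^ ((7 * k + 39) / 40)) ∧
    ((k : ℝ) + ((k : ℝ) - 16)) * (1 - 1 / (k : ℝ)) ^ ((37 * k + 49) / 50) < (k : ℝ) - 16 := by
  obtain ⟨u, hu⟩ : ∃ u, u = (7 * k + 39) / 40 := ⟨_, rfl⟩
  obtain ⟨v, hv⟩ : ∃ v, v = (37 * k + 49) / 50 := ⟨_, rfl⟩
  obtain ⟨n, hn⟩ : ∃ n, n = (k + 15) / 16 := ⟨_, rfl⟩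
  have hu1 : 7 * k ≤ 40 * u := by omega
  have hv1 : 37 * k ≤ 50 * v := by omega
  have hn1 : k ≤ 16 * n := by omega
  have hn2 : 16 * n ≤ k + 15 := by omega
  rw [← hu, ← hv, ← hn]
  have hu1' : 7 * (k : ℝ) ≤ 40 * u := by exact_mod_cast hu1
  have hv1' : 37 * (k : ℝ) ≤ 50 * v := by exact_mod_cast hv1
  have hn1' : (k : ℝ) ≤ 16 * n := by exact_mod_cast hn1
  have hn2' : 16 * (n : ℝ) ≤ k + 15 := by exact_mod_cast hn2
  have hK : (200 : ℝ) ≤ k := by exact_mod_cast hk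
  obtain ⟨K, hKd⟩ : ∃ K, K = (k : ℝ) := ⟨_, rfl⟩
  rw [← hKd] at hu1' hv1' hn1' hn2' hK ⊢
  obtain ⟨r1, r2⟩ := num_r K hK n hn1' hn2'
  have h1 : (1 - 1 / K) ^ u < 8395 / 10000 :=
    (pow_exp K (7 / 40) (by linarith) u (by linarith)).trans_lt num_e1
  have h2 : (1 - 1 / K) ^ v < 4772 / 10000 :=
    (pow_exp K (37 / 50) (by linarith) v (by linarith)).trans_lt num_e2
  have hp : 0 < K - 16 := by linarith
  have h3 : K * (1 - 1 / K) ^ u < 8395 / 10000 * K := by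
    have := mul_lt_mul_of_pos_left h1 (by linarith : 0 < K)
    linarith
  refine ⟨by linarith, ?_, ?_⟩
  · have h4 : (K - 16) * (16 + 1) * (K - K ^ 2 / (32 * (K - 16)) - 8395 / 10000 * K) ≤
        (K - 16) * (16 + 1) *
        ((K - 16) * 16 * (1 - ((K - 17) / (K - 16)) ^ n) - K * (1 - 1 / K) ^ u) :=
      mul_le_mul_of_nonneg_left (by linarith) (by linarith)
    refine lt_of_lt_of_le ?_ h4
    have h5 : (K - 16) * (16 + 1) * (K - K ^ 2 / (32 * (K - 16)) - 8395 / 10000 * K) =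
        17 * (1605 / 10000 * (K - 16) * K - K ^ 2 / 32) := by
      field_simp
      ring
    rw [h5]
    nlinarith
  · have h6 : (K + (K - 16)) * (1 - 1 / K) ^ v < (K + (K - 16)) * (4772 / 10000) :=
      mul_lt_mul_of_pos_left h2 (by linarith)
    linarith

end Pool.H38.OP
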