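import Mathlib

/-!
# Module NUMB: the numbers for ten coefficients, k ≥ 400

`u = (4k+24)/25 ≥ 4k/25`, `v = (71k+99)/100 ≥ 71k/100`, `n = (11k+99)/100`, `11k/100 ≤ n ≤ (11k+99)/100` (natural division; `omega`). `k ≥ 400` real.
* `(1-1/k)^u ≤ exp(-u/k) ≤ exp(-4/25) < 0.8522` and `(1-1/k)^v ≤ exp(-71/100) < 0.4917` (`exp x ≥ ` its Taylor polynomial, `Real.sum_le_exp_of_nonneg`:
`x = .16` up to `x^4`: `1.17351 > 1/.8522 = 1.17344`; `x = .71` up to `x^6`: `2.03397 > 1/.4917 = 2.03377`).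
* `ρ^n = ((k-11)/(k-10))^n = (1 - 1/(k-10))^n ≤ exp(-n/(k-10)) ≤ exp(-z)`, `z = .11 k/(k-10)`, and `exp(-z) ≤ 1 - z + z^2/2`, so
`10 (k-10)(1-ρ^n) ≥ 1.1 k - .0605 k^2/(k-10)`. Bernoulli (`one_add_mul_le_pow`): `ρ^n ≥ 1 - n/(k-10)`.
(1) `k (1-1/k)^u < .8522 k < k - 10 - (11k+99)/100 ≤ (k-10) ρ^n` (`k > 290.8`).
(2) divide by `k`: `2k - 10 < 11 (.2478 (k-10) - .0605 k)`, i.e. `17.258 < .0603 k`, `k > 286.3`.
(3) `(2k-10)(.4917) < k - 10`: `5.083 < .0166 k`, `k > 306.3`.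
-/

set_option autoImplicit false

namespace Pool.H38.OP

private theorem pow_exp (K x : ℝ) (hK : 1 ≤ K) (m : ℕ) (hm : x * K ≤ m) :
    (1 - 1 / K) ^ m ≤ Real.exp (-x) := by
  have hK0 : 0 < K := by linarith
  have h0 : 0 ≤ 1 - 1 / K := by
    rw [sub_nonneg, div_le_one hK0]
    exact hK
  have h1 : 1 - 1 / K ≤ Real.exp (-(1 / K)) := by
    have := Real.add_one_le_exp (-(1 / K))
    linarith
  have h2 : (1 - 1 / K) ^ m ≤ Real.exp (-(1 / K)) ^ m := pow_le_pow_left₀ h0 h1 m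
  rw [← Real.exp_nat_mul] at h2
  refine h2.trans (Real.exp_le_exp.2 ?_)
  have h3 : x ≤ m / K := by
    rw [le_div_iff₀ hK0]
    exact hm
  have h4 : (m : ℝ) * -(1 / K) = -(m / K) := by ring
  rw [h4]
  linarith

private theorem exp_neg_lt (x c : ℝ) (hc : 0 < c) (h : 1 / c < Real.exp x) : Real.exp (-x) < c := by
  rw [Real.exp_neg, inv_lt_comm₀ (Real.exp_pos x) hc, ← one_div]
  exact h

private theorem exp_neg_le (z : ℝ) (hz : 0 ≤ z) : Real.exp (-z) ≤ 1 - z + z ^ 2 / 2 := by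
  have h1 := Real.quadratic_le_exp_of_nonneg hz
  have h2 : 0 < 1 - z + z ^ 2 / 2 := by nlinarith [sq_nonneg (z - 1)]
  rw [Real.exp_neg, inv_le_comm₀ (Real.exp_pos z) h2]
  refine le_trans ?_ h1
  rw [inv_le_iff_one_le_mul₀ h2]
  nlinarith [sq_nonneg (z ^ 2)]

private theorem num_r (K : ℝ) (hK : 400 ≤ K) (n : ℕ) (h1 : 11 * K ≤ 100 * n)
    (h2 : 100 * (n : ℝ) ≤ 11 * K + 99) :
    K - 10 - (11 * K + 99) / 100 ≤ (K - 10) * ((K - 11) / (K - 10)) ^ n ∧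
      11 / 10 * K - 605 / 10000 * K ^ 2 / (K - 10) ≤
        (K - 10) * 10 * (1 - ((K - 11) / (K - 10)) ^ n) := by
  have hp : 0 < K - 10 := by linarith
  have hr : (K - 11) / (K - 10) = 1 - 1 / (K - 10) := by
    field_simp
    ring
  rw [hr]
  have hinv : 1 / (K - 10) ≤ 1 := by
    rw [div_le_one hp]
    linarith
  constructor
  · have h3 : (-2 : ℝ) ≤ -(1 / (K - 10)) := by linarith
    have h4 := one_add_mul_le_pow h3 n
    have h5 : 1 - (n : ℝ) / (K - 10) ≤ (1 - 1 / (K - 10)) ^ n := by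
      have e1 : 1 + (n : ℝ) * -(1 / (K - 10)) = 1 - (n : ℝ) / (K - 10) := by ring
      have e2 : (1 : ℝ) + -(1 / (K - 10)) = 1 - 1 / (K - 10) := by ring
      rw [e1, e2] at h4
      exact h4
    have h6 := mul_le_mul_of_nonneg_left h5 hp.le
    have h7 : (K - 10) * (1 - (n : ℝ) / (K - 10)) = K - 10 - n := by
      field_simp
    rw [h7] at h6
    linarith
  · obtain ⟨z, hz⟩ : ∃ z, z = 11 / 100 * K / (K - 10) := ⟨_, rfl⟩
    have hz0 : 0 ≤ z := by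
      rw [hz]
      positivity
    have hzn : z * (K - 10) ≤ n := by
      rw [hz]
      have : 11 / 100 * K / (K - 10) * (K - 10) = 11 / 100 * K := by field_simp
      rw [this]
      linarith
    have h3 := pow_exp (K - 10) z (by linarith) n hzn
    have h4 := exp_neg_le z hz0
    have h5 : z - z ^ 2 / 2 ≤ 1 - (1 - 1 / (K - 10)) ^ n := by linarith
    have h6 := mul_le_mul_of_nonneg_left h5 (by linarith : 0 ≤ (K - 10) * 10)
    refine le_trans (le_of_eq ?_) h6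
    rw [hz]
    field_simp
    ring

private theorem num_e1 : Real.exp (-(4 / 25)) < 8522 / 10000 := by
  refine exp_neg_lt _ _ (by norm_num) ?_
  refine lt_of_lt_of_le ?_ (Real.sum_le_exp_of_nonneg (by norm_num : (0 : ℝ) ≤ 4 / 25) 5)
  norm_num [Finset.sum_range_succ, Nat.factorial]

private theorem num_e2 : Real.exp (-(71 / 100)) < 4917 / 10000 := by
  refine exp_neg_lt _ _ (by norm_num) ?_
  refine lt_of_lt_of_le ?_ (Real.sum_le_exp_of_nonneg (by norm_num : (0 : ℝ) ≤ 71 / 100) 7)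
  norm_num [Finset.sum_range_succ, Nat.factorial]

theorem num_B (k : ℕ) (hk : 400 ≤ k) :
    (k : ℝ) * (1 - 1 / (k : ℝ)) ^ ((4 * k + 24) / 25) <
      ((k : ℝ) - 10) * (((k : ℝ) - 11) / ((k : ℝ) - 10)) ^ ((11 * k + 99) / 100) ∧
    ((k : ℝ) + ((k : ℝ) - 10)) * k < ((k : ℝ) - 10) * (10 + 1) *
      (((k : ℝ) - 10) * 10 * (1 - (((k : ℝ) - 11) / ((k : ℝ) - 10)) ^ ((11 * k + 99) / 100)) -
        k * (1 - 1 / (k : ℝ)) ^ ((4 * k + 24) / 25)) ∧
    ((k : ℝ) + ((k : ℝ) - 10)) * (1 - 1 / (k : ℝ)) ^ ((71 * k + 99) / 100) < (k : ℝ) - 10 := by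
  obtain ⟨u, hu⟩ : ∃ u, u = (4 * k + 24) / 25 := ⟨_, rfl⟩
  obtain ⟨v, hv⟩ : ∃ v, v = (71 * k + 99) / 100 := ⟨_, rfl⟩
  obtain ⟨n, hn⟩ : ∃ n, n = (11 * k + 99) / 100 := ⟨_, rfl⟩
  have hu1 : 4 * k ≤ 25 * u := by omega
  have hv1 : 71 * k ≤ 100 * v := by omega
  have hn1 : 11 * k ≤ 100 * n := by omega
  have hn2 : 100 * n ≤ 11 * k + 99 := by omega
  rw [← hu, ← hv, ← hn]
  have hu1' : 4 * (k : ℝ) ≤ 25 * u := by exact_mod_cast hu1
  have hv1' : 71 * (k : ℝ) ≤ 100 * v := by exact_mod_cast hv1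
  have hn1' : 11 * (k : ℝ) ≤ 100 * n := by exact_mod_cast hn1
  have hn2' : 100 * (n : ℝ) ≤ 11 * k + 99 := by exact_mod_cast hn2
  have hK : (400 : ℝ) ≤ k := by exact_mod_cast hk
  obtain ⟨K, hKd⟩ : ∃ K, K = (k : ℝ) := ⟨_, rfl⟩
  rw [← hKd] at hu1' hv1' hn1' hn2' hK ⊢
  obtain ⟨r1, r2⟩ := num_r K hK n hn1' hn2'
  have h1 : (1 - 1 / K) ^ u < 8522 / 10000 :=
    (pow_exp K (4 / 25) (by linarith) u (by linarith)).trans_lt num_e1
  have h2 : (1 - 1 / K) ^ v < 4917 / 10000 :=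
    (pow_exp K (71 / 100) (by linarith) v (by linarith)).trans_lt num_e2
  have hp : 0 < K - 10 := by linarith
  have h3 : K * (1 - 1 / K) ^ u < 8522 / 10000 * K := by
    have := mul_lt_mul_of_pos_left h1 (by linarith : 0 < K)
    linarith
  refine ⟨by linarith, ?_, ?_⟩
  · have h4 : (K - 10) * (10 + 1) * (11 / 10 * K - 605 / 10000 * K ^ 2 / (K - 10) -
        8522 / 10000 * K) ≤ (K - 10) * (10 + 1) *
        ((K - 10) * 10 * (1 - ((K - 11) / (K - 10)) ^ n) - K * (1 - 1 / K) ^ u) :=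
      mul_le_mul_of_nonneg_left (by linarith) (by linarith)
    refine lt_of_lt_of_le ?_ h4
    have h5 : (K - 10) * (10 + 1) * (11 / 10 * K - 605 / 10000 * K ^ 2 / (K - 10) -
        8522 / 10000 * K) = 11 * (2478 / 10000 * (K - 10) * K - 605 / 10000 * K ^ 2) := by
      field_simp
      ring
    rw [h5]
    nlinarith
  · have h6 : (K + (K - 10)) * (1 - 1 / K) ^ v < (K + (K - 10)) * (4917 / 10000) :=
      mul_lt_mul_of_pos_left h2 (by linarith)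
    linarith

end Pool.H38.OP
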