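import Pool.Agent.H38.OP.Defs

/-!
# Module PAD: from the index type of the full family to two tuples of prescribed lengths

`pad_aux`: `ι` a fintype with `card ι ≤ g`; there is an embedding `e : ι ↪ Fin g` (`Function.Embedding.nonempty_of_card_le`); `y = Function.extend e f 0`.
`∑_(i : Fin g) φ (y i)`: terms outside the range of `e` are `φ 0 = 0`, so (`Finset.sum_subset`, `Finset.sum_map` / `Function.Injective` ...) it is
`∑_(i : ι) φ (f i)`.
`pad`: `y` from `pad_aux` with `ι = Fin u ⊕ Fin v`, `f = Sum.elim x.1.1 x.2.1`, `φ t = t^(l+1+p)`; `z` with `ι = (Fin n × Fin p) ⊕ Unit`,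
`f = Sum.elim (fun ib => x.1.2 ib.1 ib.2) (fun _ => x.2.2)`, `φ = fa l p a` (`fa l p a 0 = 0`: all exponents are `≥ 1`). `Fintype.sum_sum_type`,
`Fintype.sum_prod_type`; `tval`, `bval`, `ga`.
-/

set_option autoImplicit false

namespace Pool.H38.OP

open MeasureTheory Set Pool.H19.Wa Pool.H48.Wt Pool.H19.Fc

theorem pad_aux {ι : Type} [Fintype ι] (g : ℕ) (hg : Fintype.card ι ≤ g) (f : ι → ℕ) :
    ∃ y : Fin g → ℕ, ∀ φ : ℕ → ℝ, φ 0 = 0 → ∑ i, φ (y i) = ∑ i, φ (f i) := by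
  classical
  obtain ⟨e⟩ := Function.Embedding.nonempty_of_card_le (α := ι) (β := Fin g) (by simpa using hg)
  refine ⟨Function.extend e f 0, fun φ hφ => ?_⟩
  have h1 : ∑ i, φ (f i) = ∑ i, φ (Function.extend e f 0 (e i)) := by
    refine Finset.sum_congr rfl fun i _ => ?_
    rw [e.injective.extend_apply]
  rw [h1, ← Finset.sum_map Finset.univ e (fun j => φ (Function.extend e f 0 j))]
  symm
  apply Finset.sum_subset (Finset.subset_univ _)
  intro j _ hj
  rw [Function.extend_apply']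
  · exact hφ
  · rintro ⟨i, hi⟩
    exact hj (Finset.mem_map.2 ⟨i, Finset.mem_univ _, hi⟩)

theorem fa_zero' (l p : ℕ) (a : Fin p → ℝ) : fa l p a 0 = 0 := by
  unfold fa
  simp

theorem pad (l : ℕ) {p n u v : ℕ} (g h : ℕ) (hg : u + v ≤ g) (hh : p * n + 1 ≤ h)
    (x : Ix p n u × (Fin v → ℕ) × ℕ) :
    ∃ (y : Fin g → ℕ) (z : Fin h → ℕ), ∀ a : Fin p → ℝ,
      ∑ i, (y i : ℝ) ^ (l + 1 + p) + ∑ i, fa l p a (z i) = tval l x a := by
  obtain ⟨y, hy⟩ := pad_aux (ι := Fin u ⊕ Fin v) g (by simpa using hg) (Sum.elim x.1.1 x.2.1)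
  obtain ⟨z, hz⟩ := pad_aux (ι := (Fin n × Fin p) ⊕ Unit) h
    (by simp only [Fintype.card_sum, Fintype.card_prod, Fintype.card_fin, Fintype.card_unit]
        rw [Nat.mul_comm]; exact hh)
    (Sum.elim (fun ib => x.1.2 ib.1 ib.2) (fun _ => x.2.2))
  refine ⟨y, z, fun a => ?_⟩
  rw [hy (fun t => (t : ℝ) ^ (l + 1 + p)) (by simp), hz (fa l p a) (fa_zero' l p a),
    Fintype.sum_sum_type, Fintype.sum_sum_type, Fintype.sum_prod_type]
  simp only [Sum.elim_inl, Sum.elim_inr]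
  unfold tval bval ga
  simp only [Finset.univ_unique, Finset.sum_const, Finset.card_singleton, one_smul]
  ring

theorem pad_base (l : ℕ) {p n u : ℕ} (g h : ℕ) (hg : u ≤ g) (hh : p * n ≤ h) (x : Ix p n u) :
    ∃ (y : Fin g → ℕ) (z : Fin h → ℕ), ∀ a : Fin p → ℝ,
      ∑ i, (y i : ℝ) ^ (l + 1 + p) + ∑ i, fa l p a (z i) = bval l x a := by
  obtain ⟨y, hy⟩ := pad_aux (ι := Fin u) g (by simpa using hg) x.1
  obtain ⟨z, hz⟩ := pad_aux (ι := Fin n × Fin p) h
    (by simp only [Fintype.card_prod, Fintype.card_fin]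
        rw [Nat.mul_comm]; exact hh)
    (fun ib => x.2 ib.1 ib.2)
  refine ⟨y, z, fun a => ?_⟩
  rw [hy (fun t => (t : ℝ) ^ (l + 1 + p)) (by simp), hz (fa l p a) (fa_zero' l p a),
    Fintype.sum_prod_type]
  unfold bval ga
  rfl

end Pool.H38.OP
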