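import Pool.Agent.H38.OP.MainII
import Pool.Agent.H38.OP.MainI
import Pool.Agent.H38.OP.NumA
import Pool.Agent.H38.OP.NumB
import Pool.Agent.H38.OP.Pad

/-!
# Module FINAL: the theorems in terms of k and p

`l = k - 1 - p` (`obtain ⟨l, rfl⟩ : ∃ l, k = l + 1 + p`), so `l + 1 + p - p + j = l + 1 + j`, `((l+1+p : ℕ) : ℝ) - p = l + 1`, `rh l = (k-p-1)/(k-p)`, and
`x^k + ∑ a_j x^(k-p+j) = fa l p a x`.
`final_II`: the hypotheses of `main_II` from those here: multiply `h0` by `k > 0`; `e0 l p n u = k (p (1-p/k)(1-ρ^n) - θ)` (`1 - p/k = (l+1)/k`); `h1` times `(l+1) k`;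
`h2` times `l+1`; `n ≥ 1` because for `n = 0` `h1` says `(2k-p)/(k-p) < (p+1)(-θ) ≤ 0`. Then `pad`. `final_I` in the same way with `main_I`, `pad_base` (`n ≥ 1` because for
`n = 0` `h1` says `θ < 0`). `cor_A`: `final_II` with `p = 16`, `u, n, v` of `num_A`, `g = k - 15`, `h = k + 16`. `cor_B`: `p = 10`, `num_B`, `g = 7k/8`, `h = 2k+1-7k/8`.
-/

set_option autoImplicit false

namespace Pool.H38.OP

open MeasureTheory Set Pool.H19.Wa Pool.H48.Wt Pool.H19.Fc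

/-- translation of the constants: `k = l + 1 + p` -/
private theorem fn_cast (l p : ℕ) :
    (((l + 1 + p : ℕ) : ℝ) - p = (l : ℝ) + 1) ∧ (((l + 1 + p : ℕ) : ℝ) - p - 1 = (l : ℝ)) ∧
      (2 * ((l + 1 + p : ℕ) : ℝ) - p = ((l + 1 + p : ℕ) : ℝ) + ((l : ℝ) + 1)) := by
  push_cast
  refine ⟨by ring, by ring, by ring⟩

private theorem fn_frac (l p : ℕ) : 1 - (p : ℝ) / ((l + 1 + p : ℕ) : ℝ) = ((l : ℝ) + 1) / ((l + 1 + p : ℕ) : ℝ) := by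
  have h : ((l + 1 + p : ℕ) : ℝ) ≠ 0 := by positivity
  rw [eq_div_iff h, sub_mul, div_mul_cancel₀ _ h]
  push_cast
  ring

private theorem fn_fa (l p : ℕ) (a : Fin p → ℝ) (x : ℕ) :
    (x : ℝ) ^ (l + 1 + p) + ∑ j : Fin p, a j * (x : ℝ) ^ (l + 1 + p - p + (j : ℕ)) = fa l p a x := by
  unfold fa
  congr 1
  refine Finset.sum_congr rfl fun j _ => ?_
  congr 2
  omega

/-- the hypothesis on `θ` -/
private theorem fn_h0 (l p u n : ℕ)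
    (h0 : (1 - 1 / ((l + 1 + p : ℕ) : ℝ)) ^ u <
      (1 - (p : ℝ) / ((l + 1 + p : ℕ) : ℝ)) *
        ((((l + 1 + p : ℕ) : ℝ) - p - 1) / (((l + 1 + p : ℕ) : ℝ) - p)) ^ n) :
    ((l + 1 + p : ℕ) : ℝ) * th (l + 1 + p) u < ((l : ℝ) + 1) * rh l ^ n := by
  obtain ⟨e1, e2, -⟩ := fn_cast l p
  rw [fn_frac, e2, e1] at h0
  unfold th rh
  have hk : (0 : ℝ) < ((l + 1 + p : ℕ) : ℝ) := by positivity
  have h3 := mul_lt_mul_of_pos_left h0 hk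
  have h4 : ((l + 1 + p : ℕ) : ℝ) * (((l : ℝ) + 1) / ((l + 1 + p : ℕ) : ℝ) * ((l : ℝ) / ((l : ℝ) + 1)) ^ n) =
      ((l : ℝ) + 1) * ((l : ℝ) / ((l : ℝ) + 1)) ^ n := by
    field_simp
  rw [h4] at h3
  exact h3

/-- `ν - θ = e0/k` -/
private theorem fn_e0 (l p n u : ℕ) :
    (p : ℝ) * (1 - (p : ℝ) / ((l + 1 + p : ℕ) : ℝ)) *
        (1 - ((((l + 1 + p : ℕ) : ℝ) - p - 1) / (((l + 1 + p : ℕ) : ℝ) - p)) ^ n) -
      (1 - 1 / ((l + 1 + p : ℕ) : ℝ)) ^ u = e0 l p n u / ((l + 1 + p : ℕ) : ℝ) := by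
  obtain ⟨e1, e2, -⟩ := fn_cast l p
  rw [fn_frac, e2, e1]
  unfold e0 th rh
  have hk : ((l + 1 + p : ℕ) : ℝ) ≠ 0 := by positivity
  rw [eq_div_iff hk, sub_mul]
  congr 1
  · field_simp
  · ring

theorem final_II (k p u n v g h : ℕ) (hp : 1 ≤ p) (hpk : p < k) (hg : u + v ≤ g) (hh : p * n + 1 ≤ h)
    (h0 : (1 - 1 / (k : ℝ)) ^ u < (1 - p / k) * ((k - p - 1) / (k - p)) ^ n)
    (h1 : (2 * k - p) / (k - p) <
      ((p : ℝ) + 1) * (p * (1 - p / k) * (1 - (((k : ℝ) - p - 1) / (k - p)) ^ n) - (1 - 1 / (k : ℝ)) ^ u))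
    (h2 : (2 * k - p) / (k - p) * (1 - 1 / (k : ℝ)) ^ v < 1) :
    ∃ c : ℝ, 0 < c ∧ ∀ᵐ a : Fin p → ℝ, ∃ T : ℝ, ∀ τ : ℝ, T ≤ τ → ∃ (y : Fin g → ℕ) (x : Fin h → ℕ),
      |∑ i, (y i : ℝ) ^ k + ∑ i, ((x i : ℝ) ^ k + ∑ j : Fin p, a j * (x i : ℝ) ^ (k - p + (j : ℕ))) - τ| <
        τ ^ (-c) := by
  obtain ⟨l, rfl⟩ : ∃ l, k = l + 1 + p := ⟨k - 1 - p, by omega⟩
  have hk : (0 : ℝ) < ((l + 1 + p : ℕ) : ℝ) := by positivity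
  have hl : (0 : ℝ) < (l : ℝ) + 1 := by positivity
  obtain ⟨e1, e2, e3⟩ := fn_cast l p
  have hp1 : (0 : ℝ) < (p : ℝ) + 1 := by positivity
  have hth0 : 0 ≤ (1 - 1 / ((l + 1 + p : ℕ) : ℝ)) := by
    have : 1 / ((l + 1 + p : ℕ) : ℝ) ≤ 1 := by
      rw [div_le_one hk]
      exact_mod_cast (by omega : 1 ≤ l + 1 + p)
    linarith
  have hn : 1 ≤ n := by
    by_contra hcon
    have hn0 : n = 0 := by omega
    subst hn0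
    rw [pow_zero, sub_self, mul_zero, zero_sub, e3, e1] at h1
    have h3 : 0 ≤ (1 - 1 / ((l + 1 + p : ℕ) : ℝ)) ^ u := pow_nonneg hth0 u
    have h4 : 0 < (((l + 1 + p : ℕ) : ℝ) + ((l : ℝ) + 1)) / ((l : ℝ) + 1) := by positivity
    nlinarith
  have hII := main_II l p n u v hp hn (fn_h0 l p u n h0) (by
      rw [fn_e0, e3, e1, div_lt_iff₀ hl] at h1
      have h3 := mul_lt_mul_of_pos_right h1 hk
      calc _ < ((p : ℝ) + 1) * (e0 l p n u / ((l + 1 + p : ℕ) : ℝ)) * ((l : ℝ) + 1) * ((l + 1 + p : ℕ) : ℝ) := h3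
        _ = _ := by field_simp) (by
      rw [e3, e1, div_mul_eq_mul_div, div_lt_one hl] at h2
      exact h2)
  obtain ⟨c, hc, hae⟩ := hII
  refine ⟨c, hc, ?_⟩
  filter_upwards [hae] with a ha
  obtain ⟨T, hT⟩ := ha
  refine ⟨T, fun τ hτ => ?_⟩
  obtain ⟨x, hx⟩ := hT τ hτ
  obtain ⟨y, z, hyz⟩ := pad l g h hg hh x
  refine ⟨y, z, ?_⟩
  have h3 : ∑ i, ((z i : ℝ) ^ (l + 1 + p) + ∑ j : Fin p, a j * (z i : ℝ) ^ (l + 1 + p - p + (j : ℕ))) =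
      ∑ i, fa l p a (z i) := Finset.sum_congr rfl fun i _ => fn_fa l p a (z i)
  rw [h3, hyz a]
  exact hx

theorem final_I (k p u n g h : ℕ) (hp : 1 ≤ p) (hpk : p < k) (hg : u ≤ g) (hh : p * n ≤ h)
    (h0 : (1 - 1 / (k : ℝ)) ^ u < (1 - p / k) * ((k - p - 1) / (k - p)) ^ n)
    (h1 : (1 - 1 / (k : ℝ)) ^ u < p * (1 - p / k) * (1 - (((k : ℝ) - p - 1) / (k - p)) ^ n)) :
    ∃ c : ℝ, 0 < c ∧ c < 1 ∧ ∀ᵐ a : Fin p → ℝ, ∃ C : ℝ, ∀ X : ℝ, 1 ≤ X →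
      volume {τ : ℝ | τ ∈ Icc 1 X ∧ ∀ (y : Fin g → ℕ) (x : Fin h → ℕ), τ ^ (-c) ≤
        |∑ i, (y i : ℝ) ^ k + ∑ i, ((x i : ℝ) ^ k + ∑ j : Fin p, a j * (x i : ℝ) ^ (k - p + (j : ℕ))) - τ|} ≤
        ENNReal.ofReal (C * X ^ (1 - c)) := by
  obtain ⟨l, rfl⟩ : ∃ l, k = l + 1 + p := ⟨k - 1 - p, by omega⟩
  have hk : (0 : ℝ) < ((l + 1 + p : ℕ) : ℝ) := by positivity
  have hth0 : 0 ≤ (1 - 1 / ((l + 1 + p : ℕ) : ℝ)) := by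
    have : 1 / ((l + 1 + p : ℕ) : ℝ) ≤ 1 := by
      rw [div_le_one hk]
      exact_mod_cast (by omega : 1 ≤ l + 1 + p)
    linarith
  have hn : 1 ≤ n := by
    by_contra hcon
    have hn0 : n = 0 := by omega
    subst hn0
    rw [pow_zero, sub_self, mul_zero] at h1
    exact absurd (pow_nonneg hth0 u) (not_le.2 h1)
  have he : 0 < e0 l p n u := by
    have h3 := fn_e0 l p n u
    have h4 : 0 < e0 l p n u / ((l + 1 + p : ℕ) : ℝ) := by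
      rw [← h3]
      linarith
    have h5 := mul_pos h4 hk
    rwa [div_mul_cancel₀ _ hk.ne'] at h5
  obtain ⟨c, hc, hc1, hae⟩ := main_I l p n u hp hn (fn_h0 l p u n h0) he
  refine ⟨c, hc, hc1, ?_⟩
  filter_upwards [hae] with a ha
  obtain ⟨C, hC⟩ := ha
  refine ⟨C, fun X hX => (measure_mono ?_).trans (hC X hX)⟩
  rintro τ ⟨hτ, hmiss⟩
  refine ⟨fun x => ?_, hτ⟩
  obtain ⟨y, z, hyz⟩ := pad_base l g h hg hh x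
  have h3 : ∑ i, ((z i : ℝ) ^ (l + 1 + p) + ∑ j : Fin p, a j * (z i : ℝ) ^ (l + 1 + p - p + (j : ℕ))) =
      ∑ i, fa l p a (z i) := Finset.sum_congr rfl fun i _ => fn_fa l p a (z i)
  have h4 := hmiss y z
  rw [h3, hyz a] at h4
  exact h4

/-- from `main_II` with `k = l + 1 + p` to two tuples -/
private theorem fn_cor (l p u n v g h : ℕ) (hp : 1 ≤ p) (hn : 1 ≤ n) (hg : u + v ≤ g) (hh : p * n + 1 ≤ h)
    (h0 : ((l + 1 + p : ℕ) : ℝ) * th (l + 1 + p) u < ((l : ℝ) + 1) * rh l ^ n)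
    (h1 : (((l + 1 + p : ℕ) : ℝ) + ((l : ℝ) + 1)) * ((l + 1 + p : ℕ) : ℝ) <
      ((l : ℝ) + 1) * ((p : ℝ) + 1) * e0 l p n u)
    (h2 : (((l + 1 + p : ℕ) : ℝ) + ((l : ℝ) + 1)) * th (l + 1 + p) v < (l : ℝ) + 1) :
    ∃ c : ℝ, 0 < c ∧ ∀ᵐ a : Fin p → ℝ, ∃ T : ℝ, ∀ τ : ℝ, T ≤ τ → ∃ (y : Fin g → ℕ) (x : Fin h → ℕ),
      |∑ i, (y i : ℝ) ^ (l + 1 + p) + ∑ i, ((x i : ℝ) ^ (l + 1 + p) +
        ∑ j : Fin p, a j * (x i : ℝ) ^ (l + 1 + p - p + (j : ℕ))) - τ| < τ ^ (-c) := by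
  obtain ⟨c, hc, hae⟩ := main_II l p n u v hp hn h0 h1 h2
  refine ⟨c, hc, ?_⟩
  filter_upwards [hae] with a ha
  obtain ⟨T, hT⟩ := ha
  refine ⟨T, fun τ hτ => ?_⟩
  obtain ⟨x, hx⟩ := hT τ hτ
  obtain ⟨y, z, hyz⟩ := pad l g h hg hh x
  refine ⟨y, z, ?_⟩
  have h3 : ∑ i, ((z i : ℝ) ^ (l + 1 + p) + ∑ j : Fin p, a j * (z i : ℝ) ^ (l + 1 + p - p + (j : ℕ))) =
      ∑ i, fa l p a (z i) := Finset.sum_congr rfl fun i _ => fn_fa l p a (z i)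
  rw [h3, hyz a]
  exact hx

theorem cor_A (k : ℕ) (hk : 200 ≤ k) :
    ∃ c : ℝ, 0 < c ∧ ∀ᵐ a : Fin 16 → ℝ, ∃ T : ℝ, ∀ τ : ℝ, T ≤ τ → ∃ (y : Fin (k - 15) → ℕ) (x : Fin (k + 16) → ℕ),
      |∑ i, (y i : ℝ) ^ k + ∑ i, ((x i : ℝ) ^ k + ∑ j : Fin 16, a j * (x i : ℝ) ^ (k - 16 + (j : ℕ))) - τ| <
        τ ^ (-c) := by
  obtain ⟨n1, n2, n3⟩ := num_A k hk
  obtain ⟨l, rfl⟩ : ∃ l, k = l + 1 + 16 := ⟨k - 17, by omega⟩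
  have e1 : ((l + 1 + 16 : ℕ) : ℝ) - 16 = (l : ℝ) + 1 := by push_cast; ring
  have e2 : ((l + 1 + 16 : ℕ) : ℝ) - 17 = (l : ℝ) := by push_cast; ring
  rw [e1, e2] at n1 n2
  rw [e1] at n3
  exact fn_cor l 16 ((7 * (l + 1 + 16) + 39) / 40) ((l + 1 + 16 + 15) / 16) ((37 * (l + 1 + 16) + 49) / 50)
    (l + 1 + 16 - 15) (l + 1 + 16 + 16) (by norm_num) (by omega) (by omega) (by omega) n1 (by
      refine n2.trans_eq ?_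
      unfold e0 th rh
      norm_num) n3

theorem cor_B (k : ℕ) (hk : 400 ≤ k) :
    ∃ c : ℝ, 0 < c ∧ ∀ᵐ a : Fin 10 → ℝ, ∃ T : ℝ, ∀ τ : ℝ, T ≤ τ →
      ∃ (y : Fin (7 * k / 8) → ℕ) (x : Fin (2 * k + 1 - 7 * k / 8) → ℕ),
      |∑ i, (y i : ℝ) ^ k + ∑ i, ((x i : ℝ) ^ k + ∑ j : Fin 10, a j * (x i : ℝ) ^ (k - 10 + (j : ℕ))) - τ| <
        τ ^ (-c) := by
  obtain ⟨n1, n2, n3⟩ := num_B k hk
  obtain ⟨l, rfl⟩ : ∃ l, k = l + 1 + 10 := ⟨k - 11, by omega⟩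
  have e1 : ((l + 1 + 10 : ℕ) : ℝ) - 10 = (l : ℝ) + 1 := by push_cast; ring
  have e2 : ((l + 1 + 10 : ℕ) : ℝ) - 11 = (l : ℝ) := by push_cast; ring
  rw [e1, e2] at n1 n2
  rw [e1] at n3
  exact fn_cor l 10 ((4 * (l + 1 + 10) + 24) / 25) ((11 * (l + 1 + 10) + 99) / 100)
    ((71 * (l + 1 + 10) + 99) / 100) (7 * (l + 1 + 10) / 8) (2 * (l + 1 + 10) + 1 - 7 * (l + 1 + 10) / 8)
    (by norm_num) (by omega) (by omega) (by omega) n1 (by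
      refine n2.trans_eq ?_
      unfold e0 th rh
      norm_num) n3

end Pool.H38.OP
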