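import Pool.Agent.H38.OP.Tab

/-!
# Module NUMCHK: from the table to the real inequalities
-/

set_option autoImplicit false

namespace Pool.H38.OP

theorem chkT_get (s t p : ℕ) (L : List (ℕ × ℕ × ℕ)) : ∀ k : ℕ, chkT s t p k L = true → ∀ i : ℕ, i < L.length →
    ∃ u n v : ℕ, chkN s t p (k + i) u n v = true := by
  induction L with
  | nil =>
    intro k _ i hi
    simp at hi
  | cons x L ih =>
    intro k hk i hi
    unfold chkT at hk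
    rw [Bool.and_eq_true] at hk
    rcases Nat.eq_zero_or_pos i with h0 | h0
    · subst h0
      exact ⟨x.1, x.2.1, x.2.2, hk.1⟩
    · obtain ⟨j, rfl⟩ : ∃ j, i = j + 1 := ⟨i - 1, by omega⟩
      have h1 : j < L.length := by
        simp only [List.length_cons] at hi
        omega
      obtain ⟨u, n, v, h2⟩ := ih (k + 1) hk.2 j h1
      refine ⟨u, n, v, ?_⟩
      have : k + (j + 1) = k + 1 + j := by ring
      rw [this]
      exact h2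

theorem chk_real (s t p k u n v : ℕ) (hpk : p + 2 ≤ k) (h : chkN s t p k u n v = true) :
    u + v + p * n + 1 ≤ 2 * k + 1 ∧ s * k ≤ t * (2 * k - p * n) ∧
    (k : ℝ) * (1 - 1 / (k : ℝ)) ^ u < ((k : ℝ) - p) * (((k : ℝ) - p - 1) / ((k : ℝ) - p)) ^ n ∧
    ((k : ℝ) + ((k : ℝ) - p)) * k < ((k : ℝ) - p) * (p + 1) *
      (((k : ℝ) - p) * p * (1 - (((k : ℝ) - p - 1) / ((k : ℝ) - p)) ^ n) - k * (1 - 1 / (k : ℝ)) ^ u) ∧
    ((k : ℝ) + ((k : ℝ) - p)) * (1 - 1 / (k : ℝ)) ^ v < (k : ℝ) - p := by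
  unfold chkN at h
  simp only [Bool.and_eq_true, decide_eq_true_eq] at h
  obtain ⟨⟨⟨⟨h0, h1⟩, h2⟩, h3⟩, h4⟩ := h
  refine ⟨h3, h4, ?_⟩
  have hK0 : (0 : ℝ) < k := by exact_mod_cast (by omega : 0 < k)
  have hpR : (p : ℝ) + 2 ≤ k := by exact_mod_cast hpk
  have hL0 : (0 : ℝ) < (k : ℝ) - p := by linarith
  have c1 : ((k - 1 : ℕ) : ℝ) = (k : ℝ) - 1 := by
    rw [Nat.cast_sub (by omega)]
    simp
  have c2 : ((k - p : ℕ) : ℝ) = (k : ℝ) - p := Nat.cast_sub (by omega)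
  have c3 : ((k - p - 1 : ℕ) : ℝ) = (k : ℝ) - p - 1 := by
    rw [Nat.cast_sub (by omega), c2]
    simp
  have h0' : (k : ℝ) * ((k : ℝ) - 1) ^ u * ((k : ℝ) - p) ^ n < ((k : ℝ) - p) * ((k : ℝ) - p - 1) ^ n * (k : ℝ) ^ u := by
    rw [← c1, ← c3, ← c2]
    exact_mod_cast h0
  have h1' : ((k : ℝ) + ((k : ℝ) - p)) * (k : ℝ) ^ (u + 1) * ((k : ℝ) - p) ^ n +
      ((k : ℝ) - p) * (p + 1) * k * ((k : ℝ) - 1) ^ u * ((k : ℝ) - p) ^ n +
      ((k : ℝ) - p) * ((k : ℝ) - p) * (p + 1) * p * ((k : ℝ) - p - 1) ^ n * (k : ℝ) ^ u <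
      ((k : ℝ) - p) * ((k : ℝ) - p) * (p + 1) * p * ((k : ℝ) - p) ^ n * (k : ℝ) ^ u := by
    rw [← c1, ← c3, ← c2]
    exact_mod_cast h1
  have h2' : ((k : ℝ) + ((k : ℝ) - p)) * ((k : ℝ) - 1) ^ v < ((k : ℝ) - p) * (k : ℝ) ^ v := by
    rw [← c1, ← c2]
    exact_mod_cast h2
  have e1 : ∀ m : ℕ, (1 - 1 / (k : ℝ)) ^ m = ((k : ℝ) - 1) ^ m / (k : ℝ) ^ m := by
    intro m
    rw [← div_pow]
    congr 1
    field_simp
  rw [e1, e1, div_pow]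
  have hku : (0 : ℝ) < (k : ℝ) ^ u := by positivity
  have hkv : (0 : ℝ) < (k : ℝ) ^ v := by positivity
  have hLn : (0 : ℝ) < ((k : ℝ) - p) ^ n := by positivity
  refine ⟨?_, ?_, ?_⟩
  · rw [mul_div_assoc', mul_div_assoc', div_lt_div_iff₀ hku hLn]
    exact h0'
  · have e2 : ((k : ℝ) - p) * (p + 1) * (((k : ℝ) - p) * p * (1 - ((k : ℝ) - p - 1) ^ n / ((k : ℝ) - p) ^ n) -
        k * (((k : ℝ) - 1) ^ u / (k : ℝ) ^ u)) = (((k : ℝ) - p) * ((k : ℝ) - p) * (p + 1) * p *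
          ((k : ℝ) - p) ^ n * (k : ℝ) ^ u - ((k : ℝ) - p) * ((k : ℝ) - p) * (p + 1) * p *
          ((k : ℝ) - p - 1) ^ n * (k : ℝ) ^ u - ((k : ℝ) - p) * (p + 1) * k * ((k : ℝ) - 1) ^ u *
          ((k : ℝ) - p) ^ n) / (((k : ℝ) - p) ^ n * (k : ℝ) ^ u) := by
      generalize ((k : ℝ) - p) ^ n = X1 at hLn ⊢
      generalize (k : ℝ) ^ u = X2 at hku ⊢
      generalize ((k : ℝ) - p - 1) ^ n = X3
      generalize ((k : ℝ) - 1) ^ u = X4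
      field_simp
    rw [e2, lt_div_iff₀ (by positivity)]
    have e3 : ((k : ℝ) + ((k : ℝ) - p)) * k * (((k : ℝ) - p) ^ n * (k : ℝ) ^ u) =
        ((k : ℝ) + ((k : ℝ) - p)) * (k : ℝ) ^ (u + 1) * ((k : ℝ) - p) ^ n := by
      rw [pow_succ]
      ring
    rw [e3]
    linarith
  · rw [mul_div_assoc', div_lt_iff₀ hkv]
    exact h2'

/-- thirteen coefficients, `93 ≤ k ≤ 220` -/
theorem tabA_get (k : ℕ) (h1 : 93 ≤ k) (h2 : k < 221) : ∃ u n v : ℕ, chkN 9 10 13 k u n v = true := by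
  obtain ⟨i, rfl⟩ : ∃ i, k = 93 + i := ⟨k - 93, by omega⟩
  exact chkT_get 9 10 13 tabA 93 tabA_ok i (by rw [tabA_len]; omega)

/-- nine coefficients, `233 ≤ k ≤ 733` -/
theorem tabB_get (k : ℕ) (h1 : 233 ≤ k) (h2 : k < 734) : ∃ u n v : ℕ, chkN 17 20 9 k u n v = true := by
  obtain ⟨i, rfl⟩ : ∃ i, k = 233 + i := ⟨k - 233, by omega⟩
  exact chkT_get 17 20 9 tabB 233 tabB_ok i (by rw [tabB_len]; omega)

end Pool.H38.OP
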