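import Mathlib

/-!
# Module NUMGEN: the three inequalities for large k, general parameters
-/

set_option autoImplicit false

namespace Pool.H38.OP

private theorem ng_pow_exp (K x : ℝ) (hK : 1 ≤ K) (m : ℕ) (hm : x * K ≤ m) :
    (1 - 1 / K) ^ m ≤ Real.exp (-x) := by
  have hK0 : 0 < K := by linarith
  have h0 : 0 ≤ 1 - 1 / K := by
    rw [sub_nonneg, div_le_one hK0]
    exact hK
  have h1 : 1 - 1 / K ≤ Real.exp (-(1 / K)) := by
    have := Real.add_one_le_exp (-(1 / K))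
    linarith
  have h2 : (1 - 1 / K) ^ m ≤ Real.exp (-(1 / K)) ^ m := pow_le_pow_left₀ h0 h1 m
  rw [← Real.exp_nat_mul] at h2
  refine h2.trans (Real.exp_le_exp.2 ?_)
  have h3 : x ≤ m / K := by
    rw [le_div_iff₀ hK0]
    exact hm
  have h4 : (m : ℝ) * -(1 / K) = -(m / K) := by ring
  rw [h4]
  linarith

private theorem ng_exp_neg_lt (x c : ℝ) (hc : 0 < c) (h : 1 / c < Real.exp x) : Real.exp (-x) < c := by
  rw [Real.exp_neg, inv_lt_comm₀ (Real.exp_pos x) hc, ← one_div]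
  exact h

private theorem ng_exp_neg_le (z : ℝ) (hz : 0 ≤ z) : Real.exp (-z) ≤ 1 - z + z ^ 2 / 2 := by
  have h1 := Real.quadratic_le_exp_of_nonneg hz
  have h2 : 0 < 1 - z + z ^ 2 / 2 := by nlinarith [sq_nonneg (z - 1)]
  rw [Real.exp_neg, inv_le_comm₀ (Real.exp_pos z) h2]
  refine le_trans ?_ h1
  rw [inv_le_iff_one_le_mul₀ h2]
  nlinarith [sq_nonneg (z ^ 2)]

private theorem ng_r (K p B : ℝ) (hp1 : 1 ≤ p) (hB : 0 ≤ B) (hK : p + 2 ≤ K) (n : ℕ) (h1 : B * K ≤ n)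
    (h2 : (n : ℝ) ≤ B * K + 1) :
    K - p - (B * K + 1) ≤ (K - p) * ((K - p - 1) / (K - p)) ^ n ∧
      p * (B * K - B ^ 2 * K ^ 2 / (2 * (K - p))) ≤ (K - p) * p * (1 - ((K - p - 1) / (K - p)) ^ n) := by
  have hp : 0 < K - p := by linarith
  have hr : (K - p - 1) / (K - p) = 1 - 1 / (K - p) := by
    field_simp
  rw [hr]
  have hinv : 1 / (K - p) ≤ 1 := by
    rw [div_le_one hp]
    linarith
  constructor
  · have h3 : (-2 : ℝ) ≤ -(1 / (K - p)) := by linarith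
    have h4 := one_add_mul_le_pow h3 n
    have h5 : 1 - (n : ℝ) / (K - p) ≤ (1 - 1 / (K - p)) ^ n := by
      have e1 : 1 + (n : ℝ) * -(1 / (K - p)) = 1 - (n : ℝ) / (K - p) := by ring
      have e2 : (1 : ℝ) + -(1 / (K - p)) = 1 - 1 / (K - p) := by ring
      rw [e1, e2] at h4
      exact h4
    have h6 := mul_le_mul_of_nonneg_left h5 hp.le
    have h7 : (K - p) * (1 - (n : ℝ) / (K - p)) = K - p - n := by
      field_simp
    rw [h7] at h6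
    linarith
  · obtain ⟨z, hz⟩ : ∃ z, z = B * K / (K - p) := ⟨_, rfl⟩
    have hz0 : 0 ≤ z := by
      rw [hz]
      have : 0 ≤ K := by linarith
      positivity
    have hzn : z * (K - p) ≤ n := by
      rw [hz, div_mul_cancel₀ _ hp.ne']
      exact h1
    have h3 := ng_pow_exp (K - p) z (by linarith) n hzn
    have h4 := ng_exp_neg_le z hz0
    have h5 : z - z ^ 2 / 2 ≤ 1 - (1 - 1 / (K - p)) ^ n := by linarith
    have h6 := mul_le_mul_of_nonneg_left h5 (by positivity : 0 ≤ (K - p) * p)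
    refine le_trans (le_of_eq ?_) h6
    rw [hz]
    field_simp

theorem num_gen (K p A B G tA tG : ℝ) (u n v : ℕ) (hp1 : 1 ≤ p) (hB : 0 ≤ B) (hK : p + 2 ≤ K)
    (hu : A * K ≤ u) (hv : G * K ≤ v) (hn1 : B * K ≤ n) (hn2 : (n : ℝ) ≤ B * K + 1)
    (htA : Real.exp (-A) < tA) (htG : Real.exp (-G) < tG)
    (c1 : tA * K ≤ K - p - (B * K + 1))
    (c2 : (K + (K - p)) * K ≤ (K - p) * (p + 1) * (p * (B * K - B ^ 2 * K ^ 2 / (2 * (K - p))) - tA * K))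
    (c3 : (K + (K - p)) * tG ≤ K - p) :
    K * (1 - 1 / K) ^ u < (K - p) * ((K - p - 1) / (K - p)) ^ n ∧
    (K + (K - p)) * K < (K - p) * (p + 1) *
      ((K - p) * p * (1 - ((K - p - 1) / (K - p)) ^ n) - K * (1 - 1 / K) ^ u) ∧
    (K + (K - p)) * (1 - 1 / K) ^ v < K - p := by
  obtain ⟨r1, r2⟩ := ng_r K p B hp1 hB hK n hn1 hn2
  have hK1 : 1 ≤ K := by linarith
  have h1 : (1 - 1 / K) ^ u < tA := (ng_pow_exp K A hK1 u hu).trans_lt htA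
  have h2 : (1 - 1 / K) ^ v < tG := (ng_pow_exp K G hK1 v hv).trans_lt htG
  have hp : 0 < K - p := by linarith
  have h3 : K * (1 - 1 / K) ^ u < tA * K := by
    have := mul_lt_mul_of_pos_left h1 (by linarith : 0 < K)
    linarith
  refine ⟨by linarith, ?_, ?_⟩
  · refine lt_of_le_of_lt c2 ?_
    exact mul_lt_mul_of_pos_left (by linarith) (by positivity)
  · refine lt_of_lt_of_le ?_ c3
    exact mul_lt_mul_of_pos_left h2 (by linarith)

theorem ng_e1 : Real.exp (-(83 / 500)) < 8471 / 10000 := by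
  refine ng_exp_neg_lt _ _ (by norm_num) ?_
  refine lt_of_lt_of_le ?_ (Real.sum_le_exp_of_nonneg (by norm_num : (0 : ℝ) ≤ 83 / 500) 6)
  norm_num [Finset.sum_range_succ, Nat.factorial]

theorem ng_e2 : Real.exp (-(363 / 500)) < 4839 / 10000 := by
  refine ng_exp_neg_lt _ _ (by norm_num) ?_
  refine lt_of_lt_of_le ?_ (Real.sum_le_exp_of_nonneg (by norm_num : (0 : ℝ) ≤ 363 / 500) 9)
  norm_num [Finset.sum_range_succ, Nat.factorial]

theorem ng_e3 : Real.exp (-(4 / 25)) < 8522 / 10000 := by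
  refine ng_exp_neg_lt _ _ (by norm_num) ?_
  refine lt_of_lt_of_le ?_ (Real.sum_le_exp_of_nonneg (by norm_num : (0 : ℝ) ≤ 4 / 25) 6)
  norm_num [Finset.sum_range_succ, Nat.factorial]

theorem ng_e4 : Real.exp (-(7 / 10)) < 4966 / 10000 := by
  refine ng_exp_neg_lt _ _ (by norm_num) ?_
  refine lt_of_lt_of_le ?_ (Real.sum_le_exp_of_nonneg (by norm_num : (0 : ℝ) ≤ 7 / 10) 9)
  norm_num [Finset.sum_range_succ, Nat.factorial]

/-- thirteen coefficients, `k ≥ 221` -/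
theorem num_C (k : ℕ) (hk : 221 ≤ k) : ∃ u n v : ℕ, u + v + 13 * n + 1 ≤ 2 * k + 1 ∧
    9 * k ≤ 10 * (2 * k - 13 * n) ∧
    (k : ℝ) * (1 - 1 / (k : ℝ)) ^ u < ((k : ℝ) - 13) * (((k : ℝ) - 13 - 1) / ((k : ℝ) - 13)) ^ n ∧
    ((k : ℝ) + ((k : ℝ) - 13)) * k < ((k : ℝ) - 13) * (13 + 1) *
      (((k : ℝ) - 13) * 13 * (1 - (((k : ℝ) - 13 - 1) / ((k : ℝ) - 13)) ^ n) - k * (1 - 1 / (k : ℝ)) ^ u) ∧
    ((k : ℝ) + ((k : ℝ) - 13)) * (1 - 1 / (k : ℝ)) ^ v < (k : ℝ) - 13 := by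
  refine ⟨(83 * k + 499) / 500, (2 * k + 24) / 25, (363 * k + 499) / 500, by omega, by omega, ?_⟩
  obtain ⟨u, hu⟩ : ∃ u, u = (83 * k + 499) / 500 := ⟨_, rfl⟩
  obtain ⟨v, hv⟩ : ∃ v, v = (363 * k + 499) / 500 := ⟨_, rfl⟩
  obtain ⟨n, hn⟩ : ∃ n, n = (2 * k + 24) / 25 := ⟨_, rfl⟩
  have hu1 : 83 * k ≤ 500 * u := by omega
  have hv1 : 363 * k ≤ 500 * v := by omega
  have hn1 : 2 * k ≤ 25 * n := by omega
  have hn2 : 25 * n ≤ 2 * k + 24 := by omega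
  rw [← hu, ← hv, ← hn]
  have hu1' : 83 * (k : ℝ) ≤ 500 * u := by exact_mod_cast hu1
  have hv1' : 363 * (k : ℝ) ≤ 500 * v := by exact_mod_cast hv1
  have hn1' : 2 * (k : ℝ) ≤ 25 * n := by exact_mod_cast hn1
  have hn2' : 25 * (n : ℝ) ≤ 2 * k + 24 := by exact_mod_cast hn2
  have hK : (221 : ℝ) ≤ k := by exact_mod_cast hk
  obtain ⟨K, hKd⟩ : ∃ K, K = (k : ℝ) := ⟨_, rfl⟩
  rw [← hKd] at hu1' hv1' hn1' hn2' hK ⊢
  refine num_gen K 13 (83 / 500) (2 / 25) (363 / 500) (8471 / 10000) (4839 / 10000) u n v (by norm_num)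
    (by norm_num) (by linarith) (by linarith) (by linarith) (by linarith) (by linarith) ng_e1 ng_e2
    (by linarith) ?_ (by linarith)
  have hp : 0 < K - 13 := by linarith
  have e1 : (K - 13) * (13 + 1) * (13 * (2 / 25 * K - (2 / 25) ^ 2 * K ^ 2 / (2 * (K - 13))) - 8471 / 10000 * K) =
      14 * K * ((K - 13) * (1929 / 10000) - 13 * (2 / 25) ^ 2 * K / 2) := by
    field_simp
    ring
  rw [e1]
  have h4 : 0 < K := by linarith
  nlinarith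

/-- nine coefficients, `k ≥ 734` -/
theorem num_D (k : ℕ) (hk : 734 ≤ k) : ∃ u n v : ℕ, u + v + 9 * n + 1 ≤ 2 * k + 1 ∧
    17 * k ≤ 20 * (2 * k - 9 * n) ∧
    (k : ℝ) * (1 - 1 / (k : ℝ)) ^ u < ((k : ℝ) - 9) * (((k : ℝ) - 9 - 1) / ((k : ℝ) - 9)) ^ n ∧
    ((k : ℝ) + ((k : ℝ) - 9)) * k < ((k : ℝ) - 9) * (9 + 1) *
      (((k : ℝ) - 9) * 9 * (1 - (((k : ℝ) - 9 - 1) / ((k : ℝ) - 9)) ^ n) - k * (1 - 1 / (k : ℝ)) ^ u) ∧
    ((k : ℝ) + ((k : ℝ) - 9)) * (1 - 1 / (k : ℝ)) ^ v < (k : ℝ) - 9 := by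
  refine ⟨(4 * k + 24) / 25, (k + 7) / 8, (7 * k + 9) / 10, by omega, by omega, ?_⟩
  obtain ⟨u, hu⟩ : ∃ u, u = (4 * k + 24) / 25 := ⟨_, rfl⟩
  obtain ⟨v, hv⟩ : ∃ v, v = (7 * k + 9) / 10 := ⟨_, rfl⟩
  obtain ⟨n, hn⟩ : ∃ n, n = (k + 7) / 8 := ⟨_, rfl⟩
  have hu1 : 4 * k ≤ 25 * u := by omega
  have hv1 : 7 * k ≤ 10 * v := by omega
  have hn1 : k ≤ 8 * n := by omega
  have hn2 : 8 * n ≤ k + 7 := by omega
  rw [← hu, ← hv, ← hn]
  have hu1' : 4 * (k : ℝ) ≤ 25 * u := by exact_mod_cast hu1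
  have hv1' : 7 * (k : ℝ) ≤ 10 * v := by exact_mod_cast hv1
  have hn1' : (k : ℝ) ≤ 8 * n := by exact_mod_cast hn1
  have hn2' : 8 * (n : ℝ) ≤ k + 7 := by exact_mod_cast hn2
  have hK : (734 : ℝ) ≤ k := by exact_mod_cast hk
  obtain ⟨K, hKd⟩ : ∃ K, K = (k : ℝ) := ⟨_, rfl⟩
  rw [← hKd] at hu1' hv1' hn1' hn2' hK ⊢
  refine num_gen K 9 (4 / 25) (1 / 8) (7 / 10) (8522 / 10000) (4966 / 10000) u n v (by norm_num)
    (by norm_num) (by linarith) (by linarith) (by linarith) (by linarith) (by linarith) ng_e3 ng_e4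
    (by linarith) ?_ (by linarith)
  have hp : 0 < K - 9 := by linarith
  have e1 : (K - 9) * (9 + 1) * (9 * (1 / 8 * K - (1 / 8) ^ 2 * K ^ 2 / (2 * (K - 9))) - 8522 / 10000 * K) =
      10 * K * ((K - 9) * (2728 / 10000) - 9 * (1 / 8) ^ 2 * K / 2) := by
    field_simp
    ring
  rw [e1]
  have h4 : 0 < K := by linarith
  nlinarith

end Pool.H38.OP
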