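import Pool.Agent.H38.OP.Final
import Pool.Agent.H38.OP.NumChk
import Pool.Agent.H38.OP.NumGen

/-!
# Module FINAL2: 2k+1 summands, thirteen coefficients for every k ≥ 93, nine coefficients for every k ≥ 233
-/

set_option autoImplicit false

namespace Pool.H38.OP

open MeasureTheory Set Pool.H19.Wa Pool.H48.Wt Pool.H19.Fc

/-- from the real inequalities to the theorem -/
theorem cor_of (k p u n v g h : ℕ) (hp : 1 ≤ p) (hpk : p + 2 ≤ k) (hg : u + v ≤ g) (hh : p * n + 1 ≤ h)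
    (n1 : (k : ℝ) * (1 - 1 / (k : ℝ)) ^ u < ((k : ℝ) - p) * (((k : ℝ) - p - 1) / ((k : ℝ) - p)) ^ n)
    (n2 : ((k : ℝ) + ((k : ℝ) - p)) * k < ((k : ℝ) - p) * (p + 1) *
      (((k : ℝ) - p) * p * (1 - (((k : ℝ) - p - 1) / ((k : ℝ) - p)) ^ n) - k * (1 - 1 / (k : ℝ)) ^ u))
    (n3 : ((k : ℝ) + ((k : ℝ) - p)) * (1 - 1 / (k : ℝ)) ^ v < (k : ℝ) - p) :
    ∃ c : ℝ, 0 < c ∧ ∀ᵐ a : Fin p → ℝ, ∃ T : ℝ, ∀ τ : ℝ, T ≤ τ → ∃ (y : Fin g → ℕ) (x : Fin h → ℕ),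
      |∑ i, (y i : ℝ) ^ k + ∑ i, ((x i : ℝ) ^ k + ∑ j : Fin p, a j * (x i : ℝ) ^ (k - p + (j : ℕ))) - τ| <
        τ ^ (-c) := by
  have hkp : (p : ℝ) + 2 ≤ k := by exact_mod_cast hpk
  have hK0 : (0 : ℝ) < k := by
    have : (0 : ℝ) ≤ (p : ℝ) := Nat.cast_nonneg p
    linarith
  have hL : (0 : ℝ) < (k : ℝ) - p := by linarith
  refine final_II k p u n v g h hp (by omega) hg hh ?_ ?_ ?_
  · have h1 : (1 - (p : ℝ) / k) * (((k : ℝ) - p - 1) / (k - p)) ^ n =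
        (((k : ℝ) - p) * (((k : ℝ) - p - 1) / ((k : ℝ) - p)) ^ n) / k := by
      field_simp
    rw [h1, lt_div_iff₀ hK0]
    linarith
  · have h1 : ((p : ℝ) + 1) * (p * (1 - p / k) * (1 - (((k : ℝ) - p - 1) / (k - p)) ^ n) -
        (1 - 1 / (k : ℝ)) ^ u) = (((k : ℝ) - p) * (p + 1) *
      (((k : ℝ) - p) * p * (1 - (((k : ℝ) - p - 1) / ((k : ℝ) - p)) ^ n) - k * (1 - 1 / (k : ℝ)) ^ u)) /
        (((k : ℝ) - p) * k) := by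
      generalize (((k : ℝ) - p - 1) / ((k : ℝ) - p)) ^ n = X1
      generalize (1 - 1 / (k : ℝ)) ^ u = X2
      field_simp
    have h2 : (2 * (k : ℝ) - p) / (k - p) = (((k : ℝ) + ((k : ℝ) - p)) * k) / (((k : ℝ) - p) * k) := by
      field_simp
      ring
    rw [h1, h2]
    exact div_lt_div_of_pos_right n2 (by positivity)
  · rw [div_mul_eq_mul_div, div_lt_one hL]
    have h1 : 2 * (k : ℝ) - p = (k : ℝ) + ((k : ℝ) - p) := by ring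
    rw [h1]
    exact n3

/-- thirteen coefficients, every `k ≥ 93` -/
theorem cor_C (k : ℕ) (hk : 93 ≤ k) : ∃ g h : ℕ, g + h = 2 * k + 1 ∧ 9 * k ≤ 10 * g ∧
    ∃ c : ℝ, 0 < c ∧ ∀ᵐ a : Fin 13 → ℝ, ∃ T : ℝ, ∀ τ : ℝ, T ≤ τ → ∃ (y : Fin g → ℕ) (x : Fin h → ℕ),
      |∑ i, (y i : ℝ) ^ k + ∑ i, ((x i : ℝ) ^ k + ∑ j : Fin 13, a j * (x i : ℝ) ^ (k - 13 + (j : ℕ))) - τ| <
        τ ^ (-c) := by
  obtain ⟨u, n, v, h1, h2, h3, h4, h5⟩ : ∃ u n v : ℕ, u + v + 13 * n + 1 ≤ 2 * k + 1 ∧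
    9 * k ≤ 10 * (2 * k - 13 * n) ∧
    (k : ℝ) * (1 - 1 / (k : ℝ)) ^ u < ((k : ℝ) - 13) * (((k : ℝ) - 13 - 1) / ((k : ℝ) - 13)) ^ n ∧
    ((k : ℝ) + ((k : ℝ) - 13)) * k < ((k : ℝ) - 13) * (13 + 1) *
      (((k : ℝ) - 13) * 13 * (1 - (((k : ℝ) - 13 - 1) / ((k : ℝ) - 13)) ^ n) - k * (1 - 1 / (k : ℝ)) ^ u) ∧
    ((k : ℝ) + ((k : ℝ) - 13)) * (1 - 1 / (k : ℝ)) ^ v < (k : ℝ) - 13 := by
    rcases Nat.lt_or_ge k 221 with hlt | hge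
    · obtain ⟨u, n, v, h⟩ := tabA_get k hk hlt
      obtain ⟨h1, h2, h3, h4, h5⟩ := chk_real 9 10 13 k u n v (by omega) h
      exact ⟨u, n, v, h1, h2, by exact_mod_cast h3, by exact_mod_cast h4, by exact_mod_cast h5⟩
    · exact num_C k hge
  refine ⟨2 * k - 13 * n, 13 * n + 1, by omega, h2, ?_⟩
  exact cor_of k 13 u n v (2 * k - 13 * n) (13 * n + 1) (by norm_num) (by omega) (by omega) le_rfl
    (by exact_mod_cast h3) (by exact_mod_cast h4) (by exact_mod_cast h5)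

/-- nine coefficients, every `k ≥ 233` -/
theorem cor_D (k : ℕ) (hk : 233 ≤ k) : ∃ g h : ℕ, g + h = 2 * k + 1 ∧ 17 * k ≤ 20 * g ∧
    ∃ c : ℝ, 0 < c ∧ ∀ᵐ a : Fin 9 → ℝ, ∃ T : ℝ, ∀ τ : ℝ, T ≤ τ → ∃ (y : Fin g → ℕ) (x : Fin h → ℕ),
      |∑ i, (y i : ℝ) ^ k + ∑ i, ((x i : ℝ) ^ k + ∑ j : Fin 9, a j * (x i : ℝ) ^ (k - 9 + (j : ℕ))) - τ| <
        τ ^ (-c) := by
  obtain ⟨u, n, v, h1, h2, h3, h4, h5⟩ : ∃ u n v : ℕ, u + v + 9 * n + 1 ≤ 2 * k + 1 ∧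
    17 * k ≤ 20 * (2 * k - 9 * n) ∧
    (k : ℝ) * (1 - 1 / (k : ℝ)) ^ u < ((k : ℝ) - 9) * (((k : ℝ) - 9 - 1) / ((k : ℝ) - 9)) ^ n ∧
    ((k : ℝ) + ((k : ℝ) - 9)) * k < ((k : ℝ) - 9) * (9 + 1) *
      (((k : ℝ) - 9) * 9 * (1 - (((k : ℝ) - 9 - 1) / ((k : ℝ) - 9)) ^ n) - k * (1 - 1 / (k : ℝ)) ^ u) ∧
    ((k : ℝ) + ((k : ℝ) - 9)) * (1 - 1 / (k : ℝ)) ^ v < (k : ℝ) - 9 := by
    rcases Nat.lt_or_ge k 734 with hlt | hge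
    · obtain ⟨u, n, v, h⟩ := tabB_get k hk hlt
      obtain ⟨h1, h2, h3, h4, h5⟩ := chk_real 17 20 9 k u n v (by omega) h
      exact ⟨u, n, v, h1, h2, by exact_mod_cast h3, by exact_mod_cast h4, by exact_mod_cast h5⟩
    · exact num_D k hge
  refine ⟨2 * k - 9 * n, 9 * n + 1, by omega, h2, ?_⟩
  exact cor_of k 9 u n v (2 * k - 9 * n) (9 * n + 1) (by norm_num) (by omega) (by omega) le_rfl
    (by exact_mod_cast h3) (by exact_mod_cast h4) (by exact_mod_cast h5)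

end Pool.H38.OP
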