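import Pool.Agent.H38.OP.Tab2
import Pool.Agent.H38.OP.NumChk
import Pool.Agent.H38.OP.NumGen

/-!
# Module NUM3: more than half of the 2k+1 summands genuine powers: the inequalities
-/

set_option autoImplicit false

namespace Pool.H38.OP

/-- seventeen coefficients, `92 ≤ k ≤ 239` -/
theorem tabC_get (k : ℕ) (h1 : 92 ≤ k) (h2 : k < 240) : ∃ u n v : ℕ, chkN 26 25 17 k u n v = true := by
  obtain ⟨i, rfl⟩ : ∃ i, k = 92 + i := ⟨k - 92, by omega⟩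
  exact chkT_get 26 25 17 tabC 92 tabC_ok i (by rw [tabC_len]; omega)

/-- ten coefficients, `191 ≤ k ≤ 559` -/
theorem tabD_get (k : ℕ) (h1 : 191 ≤ k) (h2 : k < 560) : ∃ u n v : ℕ, chkN 401 400 10 k u n v = true := by
  obtain ⟨i, rfl⟩ : ∃ i, k = 191 + i := ⟨k - 191, by omega⟩
  exact chkT_get 401 400 10 tabD 191 tabD_ok i (by rw [tabD_len]; omega)

private theorem n3_exp_neg_lt (x c : ℝ) (hc : 0 < c) (h : 1 / c < Real.exp x) : Real.exp (-x) < c := by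
  rw [Real.exp_neg, inv_lt_comm₀ (Real.exp_pos x) hc, ← one_div]
  exact h

theorem n3_e1 : Real.exp (-(171 / 500)) < 7104 / 10000 := by
  refine n3_exp_neg_lt _ _ (by norm_num) ?_
  refine lt_of_lt_of_le ?_ (Real.sum_le_exp_of_nonneg (by norm_num : (0 : ℝ) ≤ 171 / 500) 7)
  norm_num [Finset.sum_range_succ, Nat.factorial]

theorem n3_e2 : Real.exp (-(183 / 250)) < 4810 / 10000 := by
  refine n3_exp_neg_lt _ _ (by norm_num) ?_
  refine lt_of_lt_of_le ?_ (Real.sum_le_exp_of_nonneg (by norm_num : (0 : ℝ) ≤ 183 / 250) 9)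
  norm_num [Finset.sum_range_succ, Nat.factorial]

theorem n3_e3 : Real.exp (-(3 / 10)) < 7409 / 10000 := by
  refine n3_exp_neg_lt _ _ (by norm_num) ?_
  refine lt_of_lt_of_le ?_ (Real.sum_le_exp_of_nonneg (by norm_num : (0 : ℝ) ≤ 3 / 10) 7)
  norm_num [Finset.sum_range_succ, Nat.factorial]

theorem n3_e4 : Real.exp (-(703 / 1000)) < 4951 / 10000 := by
  refine n3_exp_neg_lt _ _ (by norm_num) ?_
  refine lt_of_lt_of_le ?_ (Real.sum_le_exp_of_nonneg (by norm_num : (0 : ℝ) ≤ 703 / 1000) 10)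
  norm_num [Finset.sum_range_succ, Nat.factorial]

/-- seventeen coefficients, `k ≥ 240` -/
theorem num_E (k : ℕ) (hk : 240 ≤ k) : ∃ u n v : ℕ, u + v + 17 * n + 1 ≤ 2 * k + 1 ∧
    26 * k ≤ 25 * (2 * k - 17 * n) ∧
    (k : ℝ) * (1 - 1 / (k : ℝ)) ^ u < ((k : ℝ) - 17) * (((k : ℝ) - 17 - 1) / ((k : ℝ) - 17)) ^ n ∧
    ((k : ℝ) + ((k : ℝ) - 17)) * k < ((k : ℝ) - 17) * (17 + 1) *
      (((k : ℝ) - 17) * 17 * (1 - (((k : ℝ) - 17 - 1) / ((k : ℝ) - 17)) ^ n) - k * (1 - 1 / (k : ℝ)) ^ u) ∧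
    ((k : ℝ) + ((k : ℝ) - 17)) * (1 - 1 / (k : ℝ)) ^ v < (k : ℝ) - 17 := by
  refine ⟨(171 * k + 499) / 500, (k + 19) / 20, (183 * k + 249) / 250, by omega, by omega, ?_⟩
  obtain ⟨u, hu⟩ : ∃ u, u = (171 * k + 499) / 500 := ⟨_, rfl⟩
  obtain ⟨v, hv⟩ : ∃ v, v = (183 * k + 249) / 250 := ⟨_, rfl⟩
  obtain ⟨n, hn⟩ : ∃ n, n = (k + 19) / 20 := ⟨_, rfl⟩
  have hu1 : 171 * k ≤ 500 * u := by omega
  have hv1 : 183 * k ≤ 250 * v := by omega
  have hn1 : k ≤ 20 * n := by omega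
  have hn2 : 20 * n ≤ k + 19 := by omega
  rw [← hu, ← hv, ← hn]
  have hu1' : 171 * (k : ℝ) ≤ 500 * u := by exact_mod_cast hu1
  have hv1' : 183 * (k : ℝ) ≤ 250 * v := by exact_mod_cast hv1
  have hn1' : (k : ℝ) ≤ 20 * n := by exact_mod_cast hn1
  have hn2' : 20 * (n : ℝ) ≤ k + 19 := by exact_mod_cast hn2
  have hK : (240 : ℝ) ≤ k := by exact_mod_cast hk
  obtain ⟨K, hKd⟩ : ∃ K, K = (k : ℝ) := ⟨_, rfl⟩
  rw [← hKd] at hu1' hv1' hn1' hn2' hK ⊢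
  refine num_gen K 17 (171 / 500) (1 / 20) (183 / 250) (7104 / 10000) (4810 / 10000) u n v (by norm_num)
    (by norm_num) (by linarith) (by linarith) (by linarith) (by linarith) (by linarith) n3_e1 n3_e2
    (by linarith) ?_ (by linarith)
  have hp : 0 < K - 17 := by linarith
  have e1 : (K - 17) * (17 + 1) * (17 * (1 / 20 * K - (1 / 20) ^ 2 * K ^ 2 / (2 * (K - 17))) - 7104 / 10000 * K) =
      18 * K * ((K - 17) * (1396 / 10000) - 17 * (1 / 20) ^ 2 * K / 2) := by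
    field_simp
    ring
  rw [e1]
  have h4 : 0 < K := by linarith
  nlinarith

/-- ten coefficients, `k ≥ 560` -/
theorem num_F (k : ℕ) (hk : 560 ≤ k) : ∃ u n v : ℕ, u + v + 10 * n + 1 ≤ 2 * k + 1 ∧
    401 * k ≤ 400 * (2 * k - 10 * n) ∧
    (k : ℝ) * (1 - 1 / (k : ℝ)) ^ u < ((k : ℝ) - 10) * (((k : ℝ) - 10 - 1) / ((k : ℝ) - 10)) ^ n ∧
    ((k : ℝ) + ((k : ℝ) - 10)) * k < ((k : ℝ) - 10) * (10 + 1) *
      (((k : ℝ) - 10) * 10 * (1 - (((k : ℝ) - 10 - 1) / ((k : ℝ) - 10)) ^ n) - k * (1 - 1 / (k : ℝ)) ^ u) ∧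
    ((k : ℝ) + ((k : ℝ) - 10)) * (1 - 1 / (k : ℝ)) ^ v < (k : ℝ) - 10 := by
  refine ⟨(3 * k + 9) / 10, (4 * k + 40) / 41, (703 * k + 999) / 1000, by omega, by omega, ?_⟩
  obtain ⟨u, hu⟩ : ∃ u, u = (3 * k + 9) / 10 := ⟨_, rfl⟩
  obtain ⟨v, hv⟩ : ∃ v, v = (703 * k + 999) / 1000 := ⟨_, rfl⟩
  obtain ⟨n, hn⟩ : ∃ n, n = (4 * k + 40) / 41 := ⟨_, rfl⟩
  have hu1 : 3 * k ≤ 10 * u := by omega
  have hv1 : 703 * k ≤ 1000 * v := by omega
  have hn1 : 4 * k ≤ 41 * n := by omega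
  have hn2 : 41 * n ≤ 4 * k + 40 := by omega
  rw [← hu, ← hv, ← hn]
  have hu1' : 3 * (k : ℝ) ≤ 10 * u := by exact_mod_cast hu1
  have hv1' : 703 * (k : ℝ) ≤ 1000 * v := by exact_mod_cast hv1
  have hn1' : 4 * (k : ℝ) ≤ 41 * n := by exact_mod_cast hn1
  have hn2' : 41 * (n : ℝ) ≤ 4 * k + 40 := by exact_mod_cast hn2
  have hK : (560 : ℝ) ≤ k := by exact_mod_cast hk
  obtain ⟨K, hKd⟩ : ∃ K, K = (k : ℝ) := ⟨_, rfl⟩
  rw [← hKd] at hu1' hv1' hn1' hn2' hK ⊢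
  refine num_gen K 10 (3 / 10) (4 / 41) (703 / 1000) (7409 / 10000) (4951 / 10000) u n v (by norm_num)
    (by norm_num) (by linarith) (by linarith) (by linarith) (by linarith) (by linarith) n3_e3 n3_e4
    (by linarith) ?_ (by linarith)
  have hp : 0 < K - 10 := by linarith
  have e1 : (K - 10) * (10 + 1) * (10 * (4 / 41 * K - (4 / 41) ^ 2 * K ^ 2 / (2 * (K - 10))) - 7409 / 10000 * K) =
      11 * K * ((K - 10) * (40 / 41 - 7409 / 10000) - 10 * (4 / 41) ^ 2 * K / 2) := by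
    field_simp
    ring
  rw [e1]
  have h4 : 0 < K := by linarith
  nlinarith

end Pool.H38.OP
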