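import Pool.Agent.H38.OP.Final2
import Pool.Agent.H38.OP.Num3

/-!
# Module FINAL3: 2k+1 summands, more than half of them genuine powers: ten coefficients for every k ≥ 191,
seventeen coefficients for every k ≥ 92
-/

set_option autoImplicit false

namespace Pool.H38.OP

open MeasureTheory Set Pool.H19.Wa Pool.H48.Wt Pool.H19.Fc

/-- seventeen coefficients, every `k ≥ 92` -/
theorem cor_E (k : ℕ) (hk : 92 ≤ k) : ∃ g h : ℕ, g + h = 2 * k + 1 ∧ 2 * k + 1 < 2 * g ∧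
    ∃ c : ℝ, 0 < c ∧ ∀ᵐ a : Fin 17 → ℝ, ∃ T : ℝ, ∀ τ : ℝ, T ≤ τ → ∃ (y : Fin g → ℕ) (x : Fin h → ℕ),
      |∑ i, (y i : ℝ) ^ k + ∑ i, ((x i : ℝ) ^ k + ∑ j : Fin 17, a j * (x i : ℝ) ^ (k - 17 + (j : ℕ))) - τ| <
        τ ^ (-c) := by
  obtain ⟨u, n, v, h1, h2, h3, h4, h5⟩ : ∃ u n v : ℕ, u + v + 17 * n + 1 ≤ 2 * k + 1 ∧
    26 * k ≤ 25 * (2 * k - 17 * n) ∧
    (k : ℝ) * (1 - 1 / (k : ℝ)) ^ u < ((k : ℝ) - 17) * (((k : ℝ) - 17 - 1) / ((k : ℝ) - 17)) ^ n ∧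
    ((k : ℝ) + ((k : ℝ) - 17)) * k < ((k : ℝ) - 17) * (17 + 1) *
      (((k : ℝ) - 17) * 17 * (1 - (((k : ℝ) - 17 - 1) / ((k : ℝ) - 17)) ^ n) - k * (1 - 1 / (k : ℝ)) ^ u) ∧
    ((k : ℝ) + ((k : ℝ) - 17)) * (1 - 1 / (k : ℝ)) ^ v < (k : ℝ) - 17 := by
    rcases Nat.lt_or_ge k 240 with hlt | hge
    · obtain ⟨u, n, v, h⟩ := tabC_get k hk hlt
      obtain ⟨h1, h2, h3, h4, h5⟩ := chk_real 26 25 17 k u n v (by omega) h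
      exact ⟨u, n, v, h1, h2, by exact_mod_cast h3, by exact_mod_cast h4, by exact_mod_cast h5⟩
    · exact num_E k hge
  refine ⟨2 * k - 17 * n, 17 * n + 1, by omega, by omega, ?_⟩
  exact cor_of k 17 u n v (2 * k - 17 * n) (17 * n + 1) (by norm_num) (by omega) (by omega) le_rfl
    (by exact_mod_cast h3) (by exact_mod_cast h4) (by exact_mod_cast h5)

/-- ten coefficients, every `k ≥ 191` -/
theorem cor_F (k : ℕ) (hk : 191 ≤ k) : ∃ g h : ℕ, g + h = 2 * k + 1 ∧ 2 * k + 1 < 2 * g ∧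
    ∃ c : ℝ, 0 < c ∧ ∀ᵐ a : Fin 10 → ℝ, ∃ T : ℝ, ∀ τ : ℝ, T ≤ τ → ∃ (y : Fin g → ℕ) (x : Fin h → ℕ),
      |∑ i, (y i : ℝ) ^ k + ∑ i, ((x i : ℝ) ^ k + ∑ j : Fin 10, a j * (x i : ℝ) ^ (k - 10 + (j : ℕ))) - τ| <
        τ ^ (-c) := by
  obtain ⟨u, n, v, h1, h2, h3, h4, h5⟩ : ∃ u n v : ℕ, u + v + 10 * n + 1 ≤ 2 * k + 1 ∧
    401 * k ≤ 400 * (2 * k - 10 * n) ∧
    (k : ℝ) * (1 - 1 / (k : ℝ)) ^ u < ((k : ℝ) - 10) * (((k : ℝ) - 10 - 1) / ((k : ℝ) - 10)) ^ n ∧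
    ((k : ℝ) + ((k : ℝ) - 10)) * k < ((k : ℝ) - 10) * (10 + 1) *
      (((k : ℝ) - 10) * 10 * (1 - (((k : ℝ) - 10 - 1) / ((k : ℝ) - 10)) ^ n) - k * (1 - 1 / (k : ℝ)) ^ u) ∧
    ((k : ℝ) + ((k : ℝ) - 10)) * (1 - 1 / (k : ℝ)) ^ v < (k : ℝ) - 10 := by
    rcases Nat.lt_or_ge k 560 with hlt | hge
    · obtain ⟨u, n, v, h⟩ := tabD_get k hk hlt
      obtain ⟨h1, h2, h3, h4, h5⟩ := chk_real 401 400 10 k u n v (by omega) h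
      exact ⟨u, n, v, h1, h2, by exact_mod_cast h3, by exact_mod_cast h4, by exact_mod_cast h5⟩
    · exact num_F k hge
  refine ⟨2 * k - 10 * n, 10 * n + 1, by omega, by omega, ?_⟩
  exact cor_of k 10 u n v (2 * k - 10 * n) (10 * n + 1) (by norm_num) (by omega) (by omega) le_rfl
    (by exact_mod_cast h3) (by exact_mod_cast h4) (by exact_mod_cast h5)

end Pool.H38.OP
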