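import Pool.Agent.H38.OP.Defs

/-!
# Module HIT2: a missed target gives a whole interval of missed targets

Let `k = l+1+p`, `c' = lam c/(2k)`. For large `τ0` choose `j` with `(2^j)^k ≤ τ0 ≤ 2^k (2^j)^k` (`exists_nat_pow_near` with base `2^k`,
`(2^j)^k = (2^k)^j`), `j ≥ J` and `j` large. Suppose `|tval l x a - τ0| ≥ τ0^(-c')` for all `x`. `τ0 ≤ 2^(k(j+1))`, so
`τ0^(-c') ≥ 2^(-(lam c (j+1)/2)) ≥ 3 δ`, `δ = 2^(-(lam c j)) = ((2^j)^lam)^(-c)`, for `j` large. So every `τ` with `|τ - τ0| ≤ δ` is in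
`Mt l p n u v a (2 δ)`. `δ ≤ 1` and `I_j = Icc ((2^j)^k) (2^k (2^j)^k)` has length `≥ 1`, so `I_j` contains `Icc τ0 (τ0+δ)` or `Icc (τ0-δ) τ0`
(if `τ0 + δ` exceeds the right end, `τ0 - δ ≥` left end since the length is `(2^k - 1)(2^(jk)) ≥ 2` for `j ≥ 1`). Hence
`δ ≤ 2^(-(g j))`, i.e. `lam c j ≥ g j`, false for `j ≥ 1`.
-/

set_option autoImplicit false

namespace Pool.H38.OP

open MeasureTheory Set Pool.H19.Wa Pool.H48.Wt Pool.H19.Fc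

theorem hit2 (l p n u v : ℕ) (a : Fin p → ℝ) (lam c g : ℝ) (h0 : 0 < lam) (hc : 0 < c) (hg : lam * c < g)
    (h : ∃ J : ℕ, ∀ j : ℕ, J ≤ j →
        volume (Mt l p n u v a (2 * (((2 : ℝ) ^ j) ^ lam) ^ (-c)) ∩
          Icc (((2 : ℝ) ^ j) ^ (l + 1 + p)) (2 ^ (l + 1 + p) * ((2 : ℝ) ^ j) ^ (l + 1 + p))) ≤
        ENNReal.ofReal ((2 : ℝ) ^ (-(g * j)))) :
    ∃ T : ℝ, ∀ τ : ℝ, T ≤ τ → ∃ x : Ix p n u × (Fin v → ℕ) × ℕ,
      |tval l x a - τ| < τ ^ (-(lam * c / (2 * ((l + 1 + p : ℕ) : ℝ)))) := by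
  obtain ⟨J, hJ⟩ := h
  have hlc : 0 < lam * c := mul_pos h0 hc
  have hδ : ∀ j : ℕ, (((2 : ℝ) ^ j) ^ lam) ^ (-c) = (2 : ℝ) ^ (-(lam * c * j)) := by
    intro j
    rw [← Real.rpow_natCast, ← Real.rpow_mul (by norm_num), ← Real.rpow_mul (by norm_num)]
    congr 1
    ring
  obtain ⟨j1, hj1⟩ := exists_nat_gt (4 / (lam * c) + 1)
  have hj1' : ∀ j : ℕ, j1 ≤ j → 3 * (2 : ℝ) ^ (-(lam * c * j)) ≤ (2 : ℝ) ^ (-(lam * c * (j + 1) / 2)) := by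
    intro j hj
    have hj' : (j1 : ℝ) ≤ j := by exact_mod_cast hj
    have h1 : 4 / (lam * c) < (j : ℝ) - 1 := by linarith
    rw [div_lt_iff₀ hlc] at h1
    have h2 : (2 : ℝ) ^ (-(lam * c * (j + 1) / 2)) =
        (2 : ℝ) ^ (lam * c * (j - 1) / 2) * (2 : ℝ) ^ (-(lam * c * j)) := by
      rw [← Real.rpow_add (by norm_num)]
      congr 1
      ring
    rw [h2]
    apply mul_le_mul_of_nonneg_right _ (by positivity)
    calc (3 : ℝ) ≤ 2 ^ (2 : ℝ) := by norm_num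
      _ ≤ _ := Real.rpow_le_rpow_of_exponent_le (by norm_num) (by nlinarith)
  obtain ⟨j2, hj2⟩ : ∃ j2 : ℕ, j2 = max (max J j1) 1 := ⟨_, rfl⟩
  have hjJ : J ≤ j2 := by omega
  have hj1j : j1 ≤ j2 := by omega
  have hj21 : 1 ≤ j2 := by omega
  refine ⟨((2 : ℝ) ^ (l + 1 + p)) ^ j2, fun τ0 hτ0 => ?_⟩
  have h2k : (1 : ℝ) < 2 ^ (l + 1 + p) := one_lt_pow₀ (by norm_num) (by omega)
  have h1τ : 1 ≤ τ0 := (one_le_pow₀ h2k.le).trans hτ0
  obtain ⟨j, hja, hjb⟩ := exists_nat_pow_near h1τ h2k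
  have hjj : j2 ≤ j := by
    have h3 : ((2 : ℝ) ^ (l + 1 + p)) ^ j2 < ((2 : ℝ) ^ (l + 1 + p)) ^ (j + 1) := hτ0.trans_lt hjb
    have := (pow_lt_pow_iff_right₀ h2k).1 h3
    omega
  by_contra hcon
  push Not at hcon
  obtain ⟨d, hd⟩ : ∃ d : ℝ, d = (2 : ℝ) ^ (-(lam * c * j)) := ⟨_, rfl⟩
  have hd0 : 0 < d := by rw [hd]; positivity
  have hj1r : (1 : ℝ) ≤ j := by exact_mod_cast hj21.trans hjj
  have hd1 : d ≤ 1 := by
    rw [hd]
    apply Real.rpow_le_one_of_one_le_of_nonpos (by norm_num)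
    have : 0 ≤ lam * c * j := by positivity
    linarith
  have hk0 : (0 : ℝ) < ((l + 1 + p : ℕ) : ℝ) := by exact_mod_cast (by omega : 0 < l + 1 + p)
  have h3d : 3 * d ≤ τ0 ^ (-(lam * c / (2 * ((l + 1 + p : ℕ) : ℝ)))) := by
    have h4 := hj1' j (hj1j.trans hjj)
    rw [← hd] at h4
    refine h4.trans ?_
    have h5 : (2 : ℝ) ^ (-(lam * c * (j + 1) / 2)) =
        (((2 : ℝ) ^ (l + 1 + p)) ^ (j + 1)) ^ (-(lam * c / (2 * ((l + 1 + p : ℕ) : ℝ)))) := by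
      rw [← pow_mul, ← Real.rpow_natCast, ← Real.rpow_mul (by norm_num)]
      congr 1
      rw [Nat.cast_mul, Nat.cast_add j 1, Nat.cast_one]
      field_simp
    rw [h5]
    apply Real.rpow_le_rpow_of_nonpos (by linarith) hjb.le
    have : 0 ≤ lam * c / (2 * ((l + 1 + p : ℕ) : ℝ)) := by positivity
    linarith
  have hmem : ∀ τ : ℝ, |τ - τ0| ≤ d → τ ∈ Mt l p n u v a (2 * d) := by
    intro τ hτ x
    have h6 := hcon x
    have h7 : |tval l x a - τ0| ≤ |tval l x a - τ| + |τ - τ0| := abs_sub_le _ _ _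
    have h8 : 2 * d ≤ |tval l x a - τ| := by linarith
    exact h8
  have hpow : ((2 : ℝ) ^ (l + 1 + p)) ^ j = ((2 : ℝ) ^ j) ^ (l + 1 + p) := by
    rw [← pow_mul, ← pow_mul, mul_comm]
  have hlo : ((2 : ℝ) ^ j) ^ (l + 1 + p) ≤ τ0 := by rw [← hpow]; exact hja
  have hhi : τ0 ≤ 2 ^ (l + 1 + p) * ((2 : ℝ) ^ j) ^ (l + 1 + p) := by
    rw [← hpow]
    rw [pow_succ, mul_comm] at hjb
    exact hjb.le
  have hbig : (2 : ℝ) ≤ ((2 : ℝ) ^ j) ^ (l + 1 + p) := by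
    rw [← pow_mul]
    calc (2 : ℝ) = 2 ^ 1 := by norm_num
      _ ≤ 2 ^ (j * (l + 1 + p)) := by
        apply pow_le_pow_right₀ (by norm_num)
        have : 0 < j * (l + 1 + p) := Nat.mul_pos (by omega) (by omega)
        omega
  have h2k2 : (2 : ℝ) ≤ 2 ^ (l + 1 + p) := by
    calc (2 : ℝ) = 2 ^ 1 := by norm_num
      _ ≤ 2 ^ (l + 1 + p) := pow_le_pow_right₀ (by norm_num) (by omega)
  have hvol := hJ j (hjJ.trans hjj)
  rw [hδ j, ← hd] at hvol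
  have hIv : ENNReal.ofReal d ≤ volume (Mt l p n u v a (2 * d) ∩
      Icc (((2 : ℝ) ^ j) ^ (l + 1 + p)) (2 ^ (l + 1 + p) * ((2 : ℝ) ^ j) ^ (l + 1 + p))) := by
    by_cases hc1 : τ0 + d ≤ 2 ^ (l + 1 + p) * ((2 : ℝ) ^ j) ^ (l + 1 + p)
    · have hsub : Icc τ0 (τ0 + d) ⊆ Mt l p n u v a (2 * d) ∩
          Icc (((2 : ℝ) ^ j) ^ (l + 1 + p)) (2 ^ (l + 1 + p) * ((2 : ℝ) ^ j) ^ (l + 1 + p)) := by
        rintro τ ⟨ha1, ha2⟩
        refine ⟨hmem τ ?_, by linarith, by linarith⟩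
        rw [abs_of_nonneg (by linarith)]
        linarith
      refine le_trans (le_of_eq ?_) (measure_mono hsub)
      rw [Real.volume_Icc]
      congr 1
      ring
    · push Not at hc1
      have h9 : ((2 : ℝ) ^ j) ^ (l + 1 + p) ≤ τ0 - d := by nlinarith
      have hsub : Icc (τ0 - d) τ0 ⊆ Mt l p n u v a (2 * d) ∩
          Icc (((2 : ℝ) ^ j) ^ (l + 1 + p)) (2 ^ (l + 1 + p) * ((2 : ℝ) ^ j) ^ (l + 1 + p)) := by
        rintro τ ⟨ha1, ha2⟩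
        refine ⟨hmem τ ?_, by linarith, by linarith⟩
        rw [abs_of_nonpos (by linarith)]
        linarith
      refine le_trans (le_of_eq ?_) (measure_mono hsub)
      rw [Real.volume_Icc]
      congr 1
      ring
  have h10 := hIv.trans hvol
  rw [ENNReal.ofReal_le_ofReal_iff (by positivity), hd] at h10
  have h11 : (2 : ℝ) ^ (-(g * j)) < (2 : ℝ) ^ (-(lam * c * j)) := by
    apply Real.rpow_lt_rpow_of_exponent_lt (by norm_num)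
    nlinarith
  linarith

end Pool.H38.OP
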