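import Pool.Agent.H38.OP.Sep2

/-!
# Module LEVEL: the number of points of one level with prescribed power sums

Let `C0` be the constant of `sep2 p`. Let `x, z ∈ S`. Then `|pl l x c - pl l z c| ≤ 2 B P^(l+c)` (triangle inequality through `T c`), so by
`sep2` `|x_b - z_b| ≤ 2 C0 p B` for every `b`. Fix `z ∈ S` (if `S` is empty there is nothing to prove). So `S` is contained in
`Fintype.piFinset fun b => Finset.Icc (z b - M) (z b + M)` with `M = ⌊2 C0 p B⌋₊`, which has at most
`(2M+1)^p ≤ (4 C0 p B + 1)^p ≤ ((4 C0 p + 1)(1 + B))^p` elements. `C = (4 C0 p + 1)^p`.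
-/

set_option autoImplicit false

namespace Pool.H38.OP

open MeasureTheory Set Pool.H19.Wa Pool.H48.Wt Pool.H19.Fc

theorem level_count (p : ℕ) : ∃ C : ℝ, 1 ≤ C ∧ ∀ (P l : ℕ) (B : ℝ) (T : Fin p → ℝ) (S : Finset (Fin p → ℕ)),
    1 ≤ P → 0 ≤ B → (∀ x ∈ S, x ∈ bo p P ∧ ∀ c : Fin p, |pl l x c - T c| ≤ B * (P : ℝ) ^ (l + (c : ℕ))) →
    (S.card : ℝ) ≤ C * (1 + B) ^ p := by
  obtain ⟨C0, hC0, hsep⟩ := sep2 p
  have hA1 : (1 : ℝ) ≤ 4 * C0 * p + 1 := by
    have : 0 ≤ 4 * C0 * (p : ℝ) := by positivity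
    linarith
  refine ⟨(4 * C0 * p + 1) ^ p, one_le_pow₀ hA1, ?_⟩
  intro P l B T S hP hB hS
  rcases S.eq_empty_or_nonempty with rfl | ⟨z, hz⟩
  · simp only [Finset.card_empty, Nat.cast_zero]
    positivity
  have hP0 : (0 : ℝ) < P := by exact_mod_cast hP
  set M : ℕ := ⌊2 * C0 * p * B⌋₊ with hM
  have hMnn : 0 ≤ 2 * C0 * (p : ℝ) * B := by positivity
  have hMle : (M : ℝ) ≤ 2 * C0 * p * B := Nat.floor_le hMnn
  have hdist : ∀ x ∈ S, ∀ b, |(x b : ℝ) - z b| ≤ 2 * C0 * p * B := by
    intro x hx b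
    refine (hsep P l x z hP (hS x hx).1 (hS z hz).1 b).trans ?_
    have h1 : ∑ c : Fin p, |pl l x c - pl l z c| / (P : ℝ) ^ (l + (c : ℕ)) ≤ ∑ _c : Fin p, 2 * B := by
      refine Finset.sum_le_sum fun c _ => ?_
      rw [div_le_iff₀ (pow_pos hP0 _)]
      have hx1 := (hS x hx).2 c
      have hz1 := (hS z hz).2 c
      have h2 : |pl l x c - pl l z c| ≤ |pl l x c - T c| + |pl l z c - T c| := by
        have := abs_sub_le (pl l x c) (T c) (pl l z c)
        rwa [abs_sub_comm (T c)] at this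
      linarith
    rw [Finset.sum_const, Finset.card_univ, Fintype.card_fin, nsmul_eq_mul] at h1
    calc C0 * ∑ c : Fin p, |pl l x c - pl l z c| / (P : ℝ) ^ (l + (c : ℕ)) ≤ C0 * ((p : ℝ) * (2 * B)) :=
          mul_le_mul_of_nonneg_left h1 hC0.le
      _ = 2 * C0 * p * B := by ring
  have hsub : S ⊆ Fintype.piFinset fun b => Finset.Icc (z b - M) (z b + M) := by
    intro x hx
    rw [Fintype.mem_piFinset]
    intro b
    have hd := abs_le.mp (hdist x hx b)
    rw [Finset.mem_Icc]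
    constructor
    · rcases le_total (z b) (x b) with h | h
      · omega
      · have h3 : z b - x b ≤ M := by
          refine Nat.le_floor ?_
          rw [Nat.cast_sub h]
          linarith [hd.1]
        omega
    · rcases le_total (x b) (z b) with h | h
      · omega
      · have h3 : x b - z b ≤ M := by
          refine Nat.le_floor ?_
          rw [Nat.cast_sub h]
          linarith [hd.2]
        omega
  have hcard : S.card ≤ (2 * M + 1) ^ p := by
    refine (Finset.card_le_card hsub).trans ?_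
    rw [Fintype.card_piFinset]
    refine (Finset.prod_le_pow_card _ _ (2 * M + 1) ?_).trans ?_
    · intro b _
      rw [Nat.card_Icc]
      omega
    · rw [Finset.card_univ, Fintype.card_fin]
  calc (S.card : ℝ) ≤ ((2 * M + 1) ^ p : ℕ) := by exact_mod_cast hcard
    _ = (2 * (M : ℝ) + 1) ^ p := by push_cast; ring
    _ ≤ ((4 * C0 * p + 1) * (1 + B)) ^ p := by
        refine pow_le_pow_left₀ (by positivity) ?_ p
        have h4 : 0 ≤ 4 * C0 * (p : ℝ) := by positivity
        nlinarith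
    _ = (4 * C0 * p + 1) ^ p * (1 + B) ^ p := by rw [mul_pow]

end Pool.H38.OP
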