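import Pool.Agent.H19.Fc.Cell
import Pool.Agent.H38.OP.Defs

/-!
# Module LOWER2: a missed target makes H large

Copy the proof of `missed_lower` in `Pool/Agent/H19/Fc/Lower.lean`. `Finset.sum_product` (order: for each `y` sum over `n < N`,
`Finset.sum_product_right`). For fixed `y`: `β n + g y - τ = β n - (τ - g y)`, so `hlow` gives
`∑_n (√b G b (v - τ) - Ker q b b0 (v - τ)) ≥ 1/(2D)`; sum over `y ∈ Y`: `∑ √b G - Hs ≥ |Y|/(2D)`. Missed: `G b (v - τ) ≤ exp(-(π b r^2))`,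
so `∑ √b G ≤ |Y| (√b N exp(-(π b r^2))) ≤ |Y|/(4D)`. Hence `-Hs ≥ |Y|/(4D)`.
-/

set_option autoImplicit false

namespace Pool.H38.OP

open MeasureTheory Set Pool.H19.Wa Pool.H48.Wt Pool.H19.Fc

theorem missed_lower2 {κ : Type*} (N : ℕ) (β : ℕ → ℝ) (Y : Finset κ) (g : κ → ℝ) (q : ℕ) (D b b0 r τ : ℝ)
    (hD : 0 < D) (hb : 0 < b) (hr : 0 < r)
    (hlow : ∀ y ∈ Y, 1 / (2 * D) ≤ ∑ n ∈ Finset.range N,
      (Real.sqrt b * G b (β n - (τ - g y)) - Ker q b b0 (β n - (τ - g y))))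
    (hmiss : ∀ n < N, ∀ y ∈ Y, r ≤ |β n + g y - τ|)
    (hsm : Real.sqrt b * (N : ℝ) * Real.exp (-(Real.pi * b * r ^ 2)) ≤ 1 / (4 * D)) :
    (Y.card : ℝ) / (4 * D) ≤ |Hs q b b0 (Finset.range N ×ˢ Y) (fun x => β x.1 + g x.2) τ| := by
  have h1 : (Y.card : ℝ) / (2 * D) ≤ ∑ x ∈ Finset.range N ×ˢ Y,
      (Real.sqrt b * G b (β x.1 + g x.2 - τ) - Ker q b b0 (β x.1 + g x.2 - τ)) := by
    rw [Finset.sum_product_right]
    calc (Y.card : ℝ) / (2 * D) = ∑ _y ∈ Y, 1 / (2 * D) := by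
          rw [Finset.sum_const, nsmul_eq_mul]
          ring
      _ ≤ _ := by
          refine Finset.sum_le_sum fun y hy => ?_
          refine (hlow y hy).trans (le_of_eq ?_)
          refine Finset.sum_congr rfl fun n _ => ?_
          have h3 : β n - (τ - g y) = β n + g y - τ := by ring
          rw [h3]
  have h2 : ∑ x ∈ Finset.range N ×ˢ Y, Real.sqrt b * G b (β x.1 + g x.2 - τ) ≤ (Y.card : ℝ) / (4 * D) := by
    calc ∑ x ∈ Finset.range N ×ˢ Y, Real.sqrt b * G b (β x.1 + g x.2 - τ)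
        ≤ ∑ _x ∈ Finset.range N ×ˢ Y, Real.sqrt b * Real.exp (-(Real.pi * b * r ^ 2)) := by
          refine Finset.sum_le_sum fun x hx => mul_le_mul_of_nonneg_left ?_ (Real.sqrt_nonneg b)
          rw [Finset.mem_product, Finset.mem_range] at hx
          unfold G
          apply Real.exp_le_exp.mpr
          have h3 : r ^ 2 ≤ (β x.1 + g x.2 - τ) ^ 2 := by
            rw [← sq_abs (β x.1 + g x.2 - τ)]
            exact pow_le_pow_left₀ hr.le (hmiss x.1 hx.1 x.2 hx.2) 2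
          have h4 : 0 < Real.pi * b := by positivity
          nlinarith
      _ = (Y.card : ℝ) * (Real.sqrt b * (N : ℝ) * Real.exp (-(Real.pi * b * r ^ 2))) := by
          rw [Finset.sum_const, Finset.card_product, Finset.card_range, nsmul_eq_mul]
          push_cast
          ring
      _ ≤ (Y.card : ℝ) * (1 / (4 * D)) := mul_le_mul_of_nonneg_left hsm (Nat.cast_nonneg _)
      _ = _ := by ring
  rw [Finset.sum_sub_distrib] at h1
  have h3 : (Y.card : ℝ) / (2 * D) = (Y.card : ℝ) / (4 * D) + (Y.card : ℝ) / (4 * D) := by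
    field_simp
    ring
  have h4 : (Y.card : ℝ) / (4 * D) ≤ -Hs q b b0 (Finset.range N ×ˢ Y) (fun x => β x.1 + g x.2) τ := by
    unfold Hs
    linarith
  exact h4.trans (neg_le_abs _)

end Pool.H38.OP
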