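import Mathlib

/-!
# Module PARAMS: the choice of the exponents

`h1` gives `e0 > 0` and `k/(P1 e0) < l1/(k+l1)`; `h2` gives `t < l1/(k+l1)`. Choose `lam` strictly between `max t (k/(P1 e0))` and `l1/(k+l1)`
(`lam > 0`). `lam P1 e0 > k`, so choose `e < e0` with `lam P1 e > k` (e.g. `e = (k/(lam P1) + e0)/2`). Then `c > 0` small: `lam (k+l1+c) < l1`,
`c < (e0 - e)/2`, `lam c < lam P1 e - k`; `ε = (e0 - e - c)/2`; `g` between `lam c` and `lam P1 e - k`.
-/

set_option autoImplicit false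

namespace Pool.H38.OP

theorem params (k l1 P1 e0 t : ℝ) (hk : 0 < k) (hl : 0 < l1) (hp : 0 < P1) (ht : 0 ≤ t)
    (h1 : (k + l1) * k < l1 * P1 * e0) (h2 : (k + l1) * t < l1) :
    ∃ lam e c ε g : ℝ, 0 < lam ∧ t < lam ∧ 0 < c ∧ 0 < ε ∧ lam * (k + l1 + c) < l1 ∧ e + c + ε < e0 ∧
      lam * c < g ∧ g < lam * P1 * e - k := by
  have hkl : 0 < k + l1 := by linarith
  have he0 : 0 < e0 := by
    by_contra h
    have h3 : l1 * P1 * e0 ≤ 0 := mul_nonpos_of_nonneg_of_nonpos (mul_pos hl hp).le (not_lt.1 h)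
    have h4 : 0 < (k + l1) * k := mul_pos hkl hk
    linarith
  have hPe : 0 < P1 * e0 := mul_pos hp he0
  have ha : k / (P1 * e0) < l1 / (k + l1) := by
    rw [div_lt_div_iff₀ hPe hkl]
    linarith
  have ha0 : 0 < k / (P1 * e0) := div_pos hk hPe
  have ht' : t < l1 / (k + l1) := by
    rw [lt_div_iff₀ hkl]
    linarith
  obtain ⟨lam, hl1, hl2⟩ := exists_between (max_lt ht' ha)
  have hlt : t < lam := (le_max_left _ _).trans_lt hl1
  have hla : k / (P1 * e0) < lam := (le_max_right _ _).trans_lt hl1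
  have hlam : 0 < lam := ha0.trans hla
  have h5 : lam * (k + l1) < l1 := by rwa [lt_div_iff₀ hkl] at hl2
  have h6 : k < lam * P1 * e0 := by
    rw [div_lt_iff₀ hPe] at hla
    linarith
  have hlP : 0 < lam * P1 := mul_pos hlam hp
  have h7 : k / (lam * P1) < e0 := by
    rw [div_lt_iff₀ hlP]
    linarith
  obtain ⟨e, he1, he2⟩ := exists_between h7
  have h8 : k < lam * P1 * e := by
    rw [div_lt_iff₀ hlP] at he1
    linarith
  obtain ⟨c, hc, hcs⟩ : ∃ c : ℝ, 0 < c ∧ (lam * c ≤ (l1 - lam * (k + l1)) / 2 ∧ c ≤ (e0 - e) / 4 ∧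
      lam * c ≤ (lam * P1 * e - k) / 2) := by
    refine ⟨min ((l1 - lam * (k + l1)) / (2 * lam)) (min ((e0 - e) / 4)
      ((lam * P1 * e - k) / (2 * lam))), ?_, ?_, ?_, ?_⟩
    · refine lt_min (div_pos (by linarith) (by linarith)) (lt_min (by linarith)
        (div_pos (by linarith) (by linarith)))
    · refine (mul_le_mul_of_nonneg_left (min_le_left _ _) hlam.le).trans (le_of_eq ?_)
      field_simp
    · exact (min_le_right _ _).trans (min_le_left _ _)
    · refine (mul_le_mul_of_nonneg_left ((min_le_right _ _).trans (min_le_right _ _))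
        hlam.le).trans (le_of_eq ?_)
      field_simp
  obtain ⟨hc1, hc2, hc3⟩ := hcs
  refine ⟨lam, e, c, (e0 - e) / 4, (lam * c + (lam * P1 * e - k)) / 2, hlam, hlt, hc, by linarith,
    ?_, by linarith, by linarith, by linarith⟩
  have h9 : lam * (k + l1 + c) = lam * (k + l1) + lam * c := by ring
  rw [h9]
  linarith

end Pool.H38.OP
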