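import Pool.Agent.H38.OP.AETop
import Pool.Agent.H38.OP.Hit2
import Pool.Agent.H38.OP.Params

/-!
# Module MAINII: every large target for almost every coefficient vector

`params` with `k = l+1+p`, `l1 = l+1`, `P1 = p+1`, `e0 = e0 l p n u`, `t = th (l+1+p) v ≥ 0`. The exponent of the statement is
`lam c/(2k)`. For every natural `A ≥ 1`: `base_int2 l p n u hp hn A` gives `κ`, then `C, Q0` for `c, ε`; `ae_bad`, `ae_top` (a.e. on `Ba p A`), `hit2`. Then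
`ae_restrict_iff'` (`measurableSet_Ba`), `ae_all_iff` over `A : ℕ`, and every `a` lies in `Ba p (A+1)` for some natural `A` (`mem_Ba`; e.g. `A ≥ ∑ |a c|`).
-/

set_option autoImplicit false

namespace Pool.H38.OP

open MeasureTheory Set Pool.H19.Wa Pool.H48.Wt Pool.H19.Fc

theorem main_II (l p n u v : ℕ) (hp : 1 ≤ p) (hn : 1 ≤ n)
    (hθ : ((l + 1 + p : ℕ) : ℝ) * th (l + 1 + p) u < ((l : ℝ) + 1) * rh l ^ n)
    (h1 : (((l + 1 + p : ℕ) : ℝ) + ((l : ℝ) + 1)) * ((l + 1 + p : ℕ) : ℝ) <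
      ((l : ℝ) + 1) * ((p : ℝ) + 1) * e0 l p n u)
    (h2 : (((l + 1 + p : ℕ) : ℝ) + ((l : ℝ) + 1)) * th (l + 1 + p) v < (l : ℝ) + 1) :
    ∃ c : ℝ, 0 < c ∧ ∀ᵐ a : Fin p → ℝ, ∃ T : ℝ, ∀ τ : ℝ, T ≤ τ →
      ∃ x : Ix p n u × (Fin v → ℕ) × ℕ, |tval l x a - τ| < τ ^ (-c) := by
  have hk0 : (0 : ℝ) < ((l + 1 + p : ℕ) : ℝ) := by exact_mod_cast (by omega : 0 < l + 1 + p)
  have ht : 0 ≤ th (l + 1 + p) v := by
    unfold th
    apply pow_nonneg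
    rw [sub_nonneg, div_le_one hk0]
    exact_mod_cast (by omega : 1 ≤ l + 1 + p)
  obtain ⟨lam, e, c, ε, g, hlam0, htl, hc, hε, hl, he, hg1, hg2⟩ :=
    params ((l + 1 + p : ℕ) : ℝ) ((l : ℝ) + 1) ((p : ℝ) + 1) (e0 l p n u) (th (l + 1 + p) v)
      hk0 (by positivity) (by positivity) ht h1 h2
  refine ⟨lam * c / (2 * ((l + 1 + p : ℕ) : ℝ)), by positivity, ?_⟩
  have key : ∀ A : ℕ, ∀ᵐ a ∂((volume : Measure (Fin p → ℝ)).restrict (Ba p ((A : ℝ) + 1))),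
      ∃ T : ℝ, ∀ τ : ℝ, T ≤ τ → ∃ x : Ix p n u × (Fin v → ℕ) × ℕ,
        |tval l x a - τ| < τ ^ (-(lam * c / (2 * ((l + 1 + p : ℕ) : ℝ)))) := by
    intro A
    have hA : (1 : ℝ) ≤ (A : ℝ) + 1 := by
      have : (0 : ℝ) ≤ A := Nat.cast_nonneg A
      linarith
    obtain ⟨κ, hκ, hb⟩ := base_int2 l p n u hp hn ((A : ℝ) + 1) hA hθ
    obtain ⟨C, Q0, hC, hQ0, hbd⟩ := hb c ε hc.le hε
    have e1 := ae_bad l p n u ((A : ℝ) + 1) κ c ε C Q0 hQ0 hC hbd lam e hlam0 he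
    have e2 := ae_top l p n u v hp ((A : ℝ) + 1) κ lam c e g hA hκ hc.le hlam0 htl hl hg2
    filter_upwards [e1, e2] with a ha1 ha2
    exact hit2 l p n u v a lam c g hlam0 hc hg1 (ha2 ha1)
  have key2 : ∀ᵐ a : Fin p → ℝ, ∀ A : ℕ, a ∈ Ba p ((A : ℝ) + 1) →
      ∃ T : ℝ, ∀ τ : ℝ, T ≤ τ → ∃ x : Ix p n u × (Fin v → ℕ) × ℕ,
        |tval l x a - τ| < τ ^ (-(lam * c / (2 * ((l + 1 + p : ℕ) : ℝ)))) := by
    rw [ae_all_iff]
    intro A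
    exact (ae_restrict_iff' (measurableSet_Ba p _)).1 (key A)
  filter_upwards [key2] with a ha
  obtain ⟨A, hA⟩ := exists_nat_ge (∑ c, |a c|)
  refine ha A (mem_Ba.2 fun c => ?_)
  have h3 := Finset.single_le_sum (f := fun c => |a c|) (fun i _ => abs_nonneg _) (Finset.mem_univ c)
  linarith

end Pool.H38.OP
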