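import Pool.Agent.H19.Fc.Scale
import Pool.Agent.H38.OP.AvgH2
import Pool.Agent.H38.OP.Lower2
import Pool.Agent.H38.OP.BoxGam

/-!
# Module SCALE2: the one scale bound

Copy the proof of `scale` in `Pool/Agent/H19/Fc/Scale.lean`. `cell_lower (p * n)` (`1 ≤ p * n`) gives `A', R0`; `C1` from
`avg_H2 l p n K A' c0`. `b0 = 1/(A' D)^2 ≤ 1 ≤ b`, `M = |Yb|/(4D) > 0` (`|Yb| > 0` by `card_Yb` and `Lev`: `1 ≤ P i`).
(a) For `a ∈ Ba p A` and a missed `τ ∈ Icc Y X`: `missed_lower2` (`hlow` from `cell_lower` and the window hypothesis) gives `M ≤ |Hs|`; `sc_markov` (in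
`Fc/Scale`) gives `volume (..) ≤ ofReal (exp π/M^2) * ∫⁻ τ, ofReal (Hs^2 exp(-(π τ^2/X^2)))`.
(b) `setLIntegral_mono'` on `Ba p A` (`measurableSet_Ba`), `box_gam`, `avg_H2` (`1 ≤ √b D`). Measurability of
`a ↦ ∫⁻ τ, ofReal (Hs .. ^2 * exp ..)`: joint continuity in `(a, τ)` as in `sc_cont`, `sc_meas`.
(c) Total `exp(π p A^2) exp(π) 16 D^2/|Yb|^2 * C1 √b N |Yb| = C √b N D^2/|Yb|`.
-/

set_option autoImplicit false

namespace Pool.H38.OP

open MeasureTheory Set Pool.H19.Wa Pool.H48.Wt Pool.H19.Fc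


private theorem s2_cont {l p n : ℕ} (q N : ℕ) (b b0 : ℝ) (β : ℕ → ℝ) (Y : Finset (Fin n → Fin p → ℕ)) :
    Continuous (fun z : (Fin p → ℝ) × ℝ => Hs q b b0 (Finset.range N ×ˢ Y) (fun x => β x.1 + ga l z.1 x.2) z.2) := by
  unfold Hs
  refine continuous_finsetSum _ (fun x _ => (continuous_Ker q b b0).comp ?_)
  simp only [ga_eq]
  fun_prop

private theorem s2_meas {l p n : ℕ} (q N : ℕ) (b b0 X : ℝ) (β : ℕ → ℝ) (Y : Finset (Fin n → Fin p → ℕ)) :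
    Measurable (fun a : Fin p → ℝ => ∫⁻ τ : ℝ, ENNReal.ofReal (Hs q b b0 (Finset.range N ×ˢ Y)
      (fun x => β x.1 + ga l a x.2) τ ^ 2 * Real.exp (-(Real.pi * τ ^ 2 / X ^ 2)))) := by
  have h1 : Measurable (fun z : (Fin p → ℝ) × ℝ => ENNReal.ofReal (Hs q b b0 (Finset.range N ×ˢ Y)
      (fun x => β x.1 + ga l z.1 x.2) z.2 ^ 2 * Real.exp (-(Real.pi * z.2 ^ 2 / X ^ 2)))) := by
    apply Measurable.ennreal_ofReal
    apply Continuous.measurable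
    exact ((s2_cont q N b b0 β Y).pow 2).mul (by fun_prop)
  exact h1.lintegral_prod_right'

theorem scale2 (l p n : ℕ) (hp : 1 ≤ p) (hn : 1 ≤ n) (K A c0 : ℝ) (hK : 1 ≤ K) (hA : 1 ≤ A) (hc0 : 0 < c0) :
    ∃ C R0 : ℝ, 0 < C ∧ 1 ≤ R0 ∧ ∀ (P : Fin n → ℕ) (R : ℝ) (N : ℕ) (β : ℕ → ℝ) (D b X Y r : ℝ),
      Lev l p n K R P → 0 < D → Cells N β D → c0 * D ≤ R → 1 ≤ b → 1 ≤ D → 0 < X → 0 ≤ Y → 0 < r →
      (∀ a ∈ Ba p A, ∀ y ∈ Yb p n P, ∀ τ ∈ Icc Y X, R0 * D ≤ τ - ga l a y ∧ τ - ga l a y ≤ N * D - R0 * D) →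
      Real.sqrt b * (N : ℝ) * Real.exp (-(Real.pi * b * r ^ 2)) ≤ 1 / (4 * D) →
      ∫⁻ a in Ba p A, volume ({τ : ℝ | ∀ m < N, ∀ y ∈ Yb p n P, r ≤ |β m + ga l a y - τ|} ∩ Icc Y X) ≤
        ENNReal.ofReal (C * Real.sqrt b * (N : ℝ) * D ^ 2 / ((Yb p n P).card : ℝ)) := by
  have hpn : 1 ≤ p * n := Nat.mul_pos hp hn
  obtain ⟨A', R0, hA', hR0, hcl⟩ := cell_lower (p * n) hpn
  obtain ⟨C1, hC1, hav⟩ := avg_H2 l p n K A' c0 hK hA' hc0
  have hA0 : 0 < A' := by linarith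
  refine ⟨Real.exp (Real.pi * p * A ^ 2) * Real.exp Real.pi * 16 * C1, R0, by positivity, hR0, ?_⟩
  intro P R N β D b X Y r hlev hD hβ hDc hb hD1 hX hY hr hwin hsm
  have hb0 : 0 < b := by linarith
  set b0 : ℝ := 1 / (A' * D) ^ 2 with hb0def
  have hb00 : 0 < b0 := by positivity
  have hb0b : b0 ≤ b := by
    have h1 : 1 ≤ A' * D := by nlinarith
    have h2 : 1 ≤ (A' * D) ^ 2 := one_le_pow₀ h1
    have h3 : b0 ≤ 1 := by
      rw [hb0def, div_le_one (by positivity)]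
      exact h2
    linarith
  have hcardpos : 0 < (Yb p n P).card := by
    rw [card_Yb]
    exact Finset.prod_pos fun i _ => pow_pos (hlev.1 i) p
  set P' : ℝ := ((Yb p n P).card : ℝ) with hP
  have hP0 : 0 < P' := Nat.cast_pos.mpr hcardpos
  set M : ℝ := P' / (4 * D) with hM
  have hM0 : 0 < M := by positivity
  -- one a
  have hone : ∀ a ∈ Ba p A, volume ({τ : ℝ | ∀ m < N, ∀ y ∈ Yb p n P, r ≤ |β m + ga l a y - τ|} ∩ Icc Y X) ≤
      ENNReal.ofReal (Real.exp Real.pi / M ^ 2) *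
        ∫⁻ τ : ℝ, ENNReal.ofReal (Hs (p * n) b b0 (Finset.range N ×ˢ Yb p n P) (fun x => β x.1 + ga l a x.2) τ ^ 2 *
          Real.exp (-(Real.pi * τ ^ 2 / X ^ 2))) := by
    intro a ha
    refine sc_markov (Hs (p * n) b b0 (Finset.range N ×ˢ Yb p n P) (fun x => β x.1 + ga l a x.2))
      (continuous_Hs (p * n) b b0 (Finset.range N ×ˢ Yb p n P) (fun x => β x.1 + ga l a x.2)) M X Y hM0 hX hY _
      fun τ hτ => ?_
    refine missed_lower2 N β (Yb p n P) (ga l a) (p * n) D b b0 r τ hD hb0 hr (fun y hy => ?_) hτ.1 hsm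
    obtain ⟨h1, h2⟩ := hwin a ha y hy τ hτ.2
    exact hcl N β D b hD hβ hb0b _ h1 h2
  have hsb : 1 ≤ Real.sqrt b := Real.one_le_sqrt.mpr hb
  have hav' := hav P R N β D b X hlev hD hβ hDc hb0 hX (by nlinarith)
  calc ∫⁻ a in Ba p A, volume ({τ : ℝ | ∀ m < N, ∀ y ∈ Yb p n P, r ≤ |β m + ga l a y - τ|} ∩ Icc Y X)
      ≤ ∫⁻ a in Ba p A, ENNReal.ofReal (Real.exp Real.pi / M ^ 2) *
        ∫⁻ τ : ℝ, ENNReal.ofReal (Hs (p * n) b b0 (Finset.range N ×ˢ Yb p n P) (fun x => β x.1 + ga l a x.2) τ ^ 2 *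
          Real.exp (-(Real.pi * τ ^ 2 / X ^ 2))) := setLIntegral_mono' (measurableSet_Ba p A) hone
    _ = ENNReal.ofReal (Real.exp Real.pi / M ^ 2) * ∫⁻ a in Ba p A,
        ∫⁻ τ : ℝ, ENNReal.ofReal (Hs (p * n) b b0 (Finset.range N ×ˢ Yb p n P) (fun x => β x.1 + ga l a x.2) τ ^ 2 *
          Real.exp (-(Real.pi * τ ^ 2 / X ^ 2))) := lintegral_const_mul _ (s2_meas (p * n) N b b0 X β (Yb p n P))
    _ ≤ ENNReal.ofReal (Real.exp Real.pi / M ^ 2) * (ENNReal.ofReal (Real.exp (Real.pi * p * A ^ 2)) *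
        ENNReal.ofReal (C1 * Real.sqrt b * (N : ℝ) * P')) := by
        gcongr
        exact (box_gam p A (by linarith) _ (s2_meas (p * n) N b b0 X β (Yb p n P))).trans (by gcongr)
    _ = _ := by
        rw [← ENNReal.ofReal_mul (by positivity), ← ENNReal.ofReal_mul (by positivity)]
        congr 1
        rw [hM]
        field_simp
        ring

end Pool.H38.OP
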