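import Pool.Agent.H82.WP.SepPoly
import Pool.Agent.H38.OP.Defs

/-!
# Module SEP2: power sums separate points of separated intervals, scaled form

This is `Pool.H82.WP.sep` (file `Pool/Agent/H82/WP/Sep.lean`; copy its proof) for `T = univ : Finset (Fin p)`, with the weights kept:
let `C0` be the constant of `Pool.H82.WP.sep_poly p`, `C = C0`. Let `s_i = 1` if `y_i ≤ x_i` and `-1` otherwise, `q` from `sep_poly`
(`T = univ`, `card = p`), `h(u) = ∑_(c<p) q_c u^(l+c+1)/(l+c+1)`; `s_i h(u) - u` is monotone on `[2i+1, 2i+2]` because its derivative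
is `s_i u^l q(u) - 1 ≥ 0` (`sep_mono` there is private: copy it). Hence
`|x_i - y_i|/P ≤ h(x_i/P) - h(y_i/P)` for every `i`, each term is nonnegative, and summing over `i`
`|x_i0 - y_i0|/P ≤ ∑_c q_c/(l+c+1) P^(-(l+c+1)) (pl l x c - pl l y c) ≤ C0 ∑_c |pl l x c - pl l y c|/P^(l+c+1)`.
Multiply by `P` (`P^(l+c+1) = P^(l+c) P`).
-/

set_option autoImplicit false

namespace Pool.H38.OP

open MeasureTheory Set Pool.H19.Wa Pool.H48.Wt Pool.H19.Fc

private theorem sep2_mono {m l : ℕ} {q : ℕ → ℝ} {s lo hi : ℝ} (hlo : 1 ≤ lo)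
    (hq : ∀ u : ℝ, lo ≤ u → u ≤ hi → 1 ≤ s * ∑ c ∈ Finset.range m, q c * u ^ c) :
    MonotoneOn (fun u : ℝ => s * ∑ c ∈ Finset.range m, q c / ((l : ℝ) + c + 1) * u ^ (l + c + 1) - u)
      (Set.Icc lo hi) := by
  have hd : ∀ u : ℝ, HasDerivAt
      (fun u : ℝ => s * ∑ c ∈ Finset.range m, q c / ((l : ℝ) + c + 1) * u ^ (l + c + 1) - u)
      (s * ∑ c ∈ Finset.range m, q c * u ^ (l + c) - 1) u := by
    intro u
    refine HasDerivAt.sub (HasDerivAt.const_mul s ?_) (hasDerivAt_id u)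
    refine HasDerivAt.fun_sum fun c _ => ?_
    have h := (hasDerivAt_pow (l + c + 1) u).const_mul (q c / ((l : ℝ) + c + 1))
    refine h.congr_deriv ?_
    have hne : (l : ℝ) + c + 1 ≠ 0 := by positivity
    push_cast
    field_simp
  refine monotoneOn_of_deriv_nonneg (convex_Icc lo hi)
    (fun u _ => (hd u).continuousAt.continuousWithinAt)
    (fun u _ => (hd u).differentiableAt.differentiableWithinAt) ?_
  intro u hu
  rw [interior_Icc] at hu
  rw [(hd u).deriv]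
  have hu1 : 1 ≤ u := hlo.trans hu.1.le
  have h1 := hq u hu.1.le hu.2.le
  have h2 : s * ∑ c ∈ Finset.range m, q c * u ^ (l + c) = u ^ l * (s * ∑ c ∈ Finset.range m, q c * u ^ c) := by
    rw [Finset.mul_sum, Finset.mul_sum, Finset.mul_sum]
    refine Finset.sum_congr rfl fun c _ => ?_
    rw [pow_add]
    ring
  rw [h2]
  have h3 : 1 ≤ u ^ l := one_le_pow₀ hu1
  nlinarith

theorem sep2 (p : ℕ) : ∃ C : ℝ, 0 < C ∧ ∀ (P l : ℕ) (x y : Fin p → ℕ), 1 ≤ P → x ∈ bo p P → y ∈ bo p P →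
    ∀ i, |(x i : ℝ) - y i| ≤ C * ∑ c : Fin p, |pl l x c - pl l y c| / (P : ℝ) ^ (l + (c : ℕ)) := by
  obtain ⟨C0, hC0, hsep⟩ := Pool.H82.WP.sep_poly p
  refine ⟨C0, hC0, ?_⟩
  intro P l x y hP hx hy i0
  have hxy : ∀ i : Fin p, ((2 * (i : ℕ) + 1) * P ≤ x i ∧ x i ≤ (2 * (i : ℕ) + 2) * P) ∧
      ((2 * (i : ℕ) + 1) * P ≤ y i ∧ y i ≤ (2 * (i : ℕ) + 2) * P) := fun i =>
    ⟨⟨(mem_bo.mp hx i).1.le, (mem_bo.mp hx i).2⟩, ⟨(mem_bo.mp hy i).1.le, (mem_bo.mp hy i).2⟩⟩
  have hP0 : (0 : ℝ) < P := by exact_mod_cast hP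
  obtain ⟨q, hqC, hq⟩ := hsep Finset.univ (fun i => if y i ≤ x i then 1 else -1) (fun i => by
    by_cases h : y i ≤ x i
    · left; simp [h]
    · right; simp [h])
  rw [Finset.card_univ, Fintype.card_fin] at hq
  let h : ℝ → ℝ := fun u => ∑ c ∈ Finset.range p, q c / ((l : ℝ) + c + 1) * u ^ (l + c + 1)
  have hrange : ∀ i : Fin p, ∀ z : ℕ, (2 * (i : ℕ) + 1) * P ≤ z → z ≤ (2 * (i : ℕ) + 2) * P →
      (z : ℝ) / P ∈ Set.Icc (2 * ((i : ℕ) : ℝ) + 1) (2 * ((i : ℕ) : ℝ) + 2) := by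
    intro i z h1 h2
    have h1' : (2 * ((i : ℕ) : ℝ) + 1) * P ≤ z := by exact_mod_cast h1
    have h2' : (z : ℝ) ≤ (2 * ((i : ℕ) : ℝ) + 2) * P := by exact_mod_cast h2
    constructor
    · rw [le_div_iff₀ hP0]; exact h1'
    · rw [div_le_iff₀ hP0]; exact h2'
  have hterm : ∀ i : Fin p, |(x i : ℝ) - y i| / P ≤ h ((x i : ℝ) / P) - h ((y i : ℝ) / P) := by
    intro i
    have hlo : (1 : ℝ) ≤ 2 * ((i : ℕ) : ℝ) + 1 := by
      have : (0 : ℝ) ≤ ((i : ℕ) : ℝ) := Nat.cast_nonneg _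
      linarith
    have hmono := sep2_mono (l := l) hlo (hq i (Finset.mem_univ i))
    have hxr := hrange i (x i) (hxy i).1.1 (hxy i).1.2
    have hyr := hrange i (y i) (hxy i).2.1 (hxy i).2.2
    by_cases hle : y i ≤ x i
    · have hle' : (y i : ℝ) / P ≤ (x i : ℝ) / P := by
        have : (y i : ℝ) ≤ x i := by exact_mod_cast hle
        gcongr
      have h1 := hmono hyr hxr hle'
      simp only [hle, if_true, one_mul] at h1
      have h2 : |(x i : ℝ) - y i| = (x i : ℝ) - y i := by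
        rw [abs_of_nonneg]
        have : (y i : ℝ) ≤ x i := by exact_mod_cast hle
        linarith
      rw [h2, sub_div]
      show _ ≤ (∑ c ∈ Finset.range p, q c / ((l : ℝ) + c + 1) * ((x i : ℝ) / P) ^ (l + c + 1)) -
        (∑ c ∈ Finset.range p, q c / ((l : ℝ) + c + 1) * ((y i : ℝ) / P) ^ (l + c + 1))
      linarith
    · have hle2 : (x i : ℝ) ≤ y i := by
        have : x i ≤ y i := by omega
        exact_mod_cast this
      have hle' : (x i : ℝ) / P ≤ (y i : ℝ) / P := by gcongr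
      have h1 := hmono hxr hyr hle'
      simp only [hle, if_false] at h1
      have h2 : |(x i : ℝ) - y i| = (y i : ℝ) - x i := by
        rw [abs_of_nonpos (by linarith)]
        ring
      rw [h2, sub_div]
      show _ ≤ (∑ c ∈ Finset.range p, q c / ((l : ℝ) + c + 1) * ((x i : ℝ) / P) ^ (l + c + 1)) -
        (∑ c ∈ Finset.range p, q c / ((l : ℝ) + c + 1) * ((y i : ℝ) / P) ^ (l + c + 1))
      linarith
  have hone : |(x i0 : ℝ) - y i0| / P ≤ ∑ i : Fin p, (h ((x i : ℝ) / P) - h ((y i : ℝ) / P)) := by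
    refine (hterm i0).trans ?_
    refine Finset.single_le_sum (f := fun i : Fin p => h ((x i : ℝ) / P) - h ((y i : ℝ) / P)) ?_
      (Finset.mem_univ i0)
    intro i _
    exact le_trans (by positivity) (hterm i)
  have hswap : ∑ i : Fin p, (h ((x i : ℝ) / P) - h ((y i : ℝ) / P)) =
      ∑ c ∈ Finset.range p, q c / ((l : ℝ) + c + 1) / (P : ℝ) ^ (l + c + 1) * (pl l x c - pl l y c) := by
    show ∑ i : Fin p, ((∑ c ∈ Finset.range p, q c / ((l : ℝ) + c + 1) * ((x i : ℝ) / P) ^ (l + c + 1)) -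
        (∑ c ∈ Finset.range p, q c / ((l : ℝ) + c + 1) * ((y i : ℝ) / P) ^ (l + c + 1))) = _
    unfold pl
    simp only [← Finset.sum_sub_distrib]
    rw [Finset.sum_comm]
    refine Finset.sum_congr rfl fun c _ => ?_
    rw [Finset.mul_sum]
    refine Finset.sum_congr rfl fun i _ => ?_
    have e : l + 1 + c = l + c + 1 := by omega
    rw [div_pow, div_pow, e]
    ring
  have hbound : ∑ c ∈ Finset.range p, q c / ((l : ℝ) + c + 1) / (P : ℝ) ^ (l + c + 1) *
        (pl l x c - pl l y c) ≤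
      ∑ c ∈ Finset.range p, C0 * (|pl l x c - pl l y c| / (P : ℝ) ^ (l + c + 1)) := by
    refine Finset.sum_le_sum fun c _ => ?_
    refine (le_abs_self _).trans ?_
    rw [abs_mul, abs_div, abs_div]
    have e1 : |(l : ℝ) + c + 1| = (l : ℝ) + c + 1 := abs_of_pos (by positivity)
    have e2 : |(P : ℝ) ^ (l + c + 1)| = (P : ℝ) ^ (l + c + 1) := abs_of_pos (by positivity)
    rw [e1, e2]
    have h1 : |q c| / ((l : ℝ) + c + 1) ≤ C0 := by
      rw [div_le_iff₀ (by positivity)]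
      have h3 : (1 : ℝ) ≤ (l : ℝ) + c + 1 := by
        have : (0 : ℝ) ≤ (l : ℝ) + c := by positivity
        linarith
      calc |q c| ≤ C0 := hqC c
        _ = C0 * 1 := by ring
        _ ≤ C0 * ((l : ℝ) + c + 1) := by gcongr
    calc |q c| / ((l : ℝ) + c + 1) / (P : ℝ) ^ (l + c + 1) * |pl l x c - pl l y c|
        = |q c| / ((l : ℝ) + c + 1) * (|pl l x c - pl l y c| / (P : ℝ) ^ (l + c + 1)) := by ring
      _ ≤ C0 * (|pl l x c - pl l y c| / (P : ℝ) ^ (l + c + 1)) :=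
          mul_le_mul_of_nonneg_right h1 (by positivity)
  have hfin : |(x i0 : ℝ) - y i0| / P ≤
      ∑ c ∈ Finset.range p, C0 * (|pl l x c - pl l y c| / (P : ℝ) ^ (l + c + 1)) := by
    rw [hswap] at hone
    exact hone.trans hbound
  rw [div_le_iff₀ hP0] at hfin
  refine hfin.trans (le_of_eq ?_)
  rw [Fin.sum_univ_eq_sum_range (fun c => |pl l x c - pl l y c| / (P : ℝ) ^ (l + c)) p,
    Finset.mul_sum, Finset.sum_mul]
  refine Finset.sum_congr rfl fun c _ => ?_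
  rw [pow_succ]
  have hne : (P : ℝ) ≠ 0 := hP0.ne'
  field_simp

end Pool.H38.OP
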